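import Pool.Agent.Lib.MP_0d518c_an.WCount

/-! Task W3: averages of members of the auxiliary norming set. -/

namespace Pool.Agent.MP0d518c

open Finset Filter Topology

theorem WAvg_quarter_pow (j : ℕ) : (1 / 4 : ℝ) ^ (2 ^ j) = (mm j : ℝ)⁻¹ := by
  unfold mm
  rw [Nat.cast_pow, one_div, inv_pow]
  norm_num

theorem WAvg_aux {P : ℕ → Prop} {i j e : ℕ} (hij : i < j) {τ : ℝ} (hτ : 0 ≤ τ)
    (hP : ∀ i, P i → j ≤ i → (mm i : ℝ)⁻¹ ≤ τ) (he : (1 / 4 : ℝ) ^ e = τ)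
    {L : List (ℕ → ℝ)} (hlen : L.length ≤ 4 * nn i) (hL : ∀ f ∈ L, W P f)
    (hd : L.Pairwise (fun f g => ∀ k, f k = 0 ∨ g k = 0)) (I : Finset ℕ) :
    ∑ k ∈ I, (L.map (fun f => f k)).sum ≤ ((NN j) ^ (e + 1) : ℕ) + τ * I.card := by
  have hmax : max ((1 / 4 : ℝ) ^ e) τ = τ := by rw [he, max_self]
  have h1 := W_count_list hτ hP hL hd e I
  rw [hmax] at h1
  have h2 : (I.filter (fun k => τ < (L.map (fun f => f k)).sum)).card ≤ NN j ^ (e + 1) := by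
    calc _ ≤ _ := h1
      _ ≤ (4 * nn i) * NN j ^ e := Nat.mul_le_mul_right _ hlen
      _ ≤ NN j * NN j ^ e := Nat.mul_le_mul_right _ (four_nn_le_NN hij)
      _ = NN j ^ (e + 1) := by rw [pow_succ, mul_comm]
  rw [← Finset.sum_filter_add_sum_filter_not I (fun k => τ < (L.map (fun f => f k)).sum)]
  refine add_le_add ?_ ?_
  · calc ∑ k ∈ I.filter (fun k => τ < (L.map (fun f => f k)).sum), (L.map (fun f => f k)).sum
        ≤ ∑ _k ∈ I.filter (fun k => τ < (L.map (fun f => f k)).sum), (1 : ℝ) :=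
          Finset.sum_le_sum fun k _ => WBase_sum_le hL hd k
      _ = ((I.filter (fun k => τ < (L.map (fun f => f k)).sum)).card : ℝ) := by
          rw [Finset.sum_const, nsmul_eq_mul, mul_one]
      _ ≤ ((NN j) ^ (e + 1) : ℕ) := by exact_mod_cast h2
  · calc ∑ k ∈ I.filter (fun k => ¬ τ < (L.map (fun f => f k)).sum), (L.map (fun f => f k)).sum
        ≤ ∑ _k ∈ I.filter (fun k => ¬ τ < (L.map (fun f => f k)).sum), τ :=
          Finset.sum_le_sum fun k hk => not_lt.1 (Finset.mem_filter.1 hk).2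
      _ = τ * ((I.filter (fun k => ¬ τ < (L.map (fun f => f k)).sum)).card : ℝ) := by
          rw [Finset.sum_const, nsmul_eq_mul, mul_comm]
      _ ≤ τ * I.card := by
          refine mul_le_mul_of_nonneg_left ?_ hτ
          exact_mod_cast Finset.card_filter_le _ _

/-- `g ∈ W` of weight index `i < j`, average over `n_j` points -/
theorem WN_avg_lt {i j : ℕ} (hij : i < j) {g : ℕ → ℝ} (hg : WN (fun _ => True) i g)
    {I : Finset ℕ} (hI : I.card = nn j) :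
    ∑ k ∈ I, g k ≤ 2 * (mm i : ℝ)⁻¹ * (mm j : ℝ)⁻¹ * nn j := by
  obtain ⟨L, hlen, hL, hd, rfl⟩ := hg
  have h1 := WAvg_aux (P := fun _ => True) (e := 2 ^ j) hij (mm_inv_pos j).le
    (fun i' _ h => mm_inv_anti h) (WAvg_quarter_pow j) hlen hL hd I
  have h2 : (((NN j) ^ (2 ^ j + 1) : ℕ) : ℝ) ≤ (mm j : ℝ)⁻¹ * nn j := by
    have h0 : (0 : ℝ) < mm j := Nat.cast_pos.2 (mm_pos j)
    rw [← div_eq_inv_mul, le_div_iff₀ h0]
    have h3 : (NN j) ^ (2 ^ j + 1) * mm j ≤ nn j := by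
      rw [nn_eq, mul_comm]
      refine Nat.mul_le_mul (Nat.le_self_pow two_ne_zero _) ?_
      refine Nat.pow_le_pow_right (one_le_NN j) ?_
      have : 2 ^ j ≤ 2 ^ (j + 1) := Nat.pow_le_pow_right (by norm_num) (Nat.le_succ j)
      omega
    exact_mod_cast h3
  rw [hI] at h1
  rw [← Finset.mul_sum]
  have h4 := mm_inv_pos i
  calc (mm i : ℝ)⁻¹ * ∑ k ∈ I, (L.map (fun f => f k)).sum
      ≤ (mm i : ℝ)⁻¹ * ((mm j : ℝ)⁻¹ * nn j + (mm j : ℝ)⁻¹ * nn j) := by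
        refine mul_le_mul_of_nonneg_left ?_ h4.le
        linarith
    _ = 2 * (mm i : ℝ)⁻¹ * (mm j : ℝ)⁻¹ * nn j := by ring

/-- `g ∈ W` built without the weight `m_j`, average over `n_j` points -/
theorem WN_avg_ne {i j : ℕ} {g : ℕ → ℝ} (hij : i ≠ j) (hg : WN (fun i => i ≠ j) i g)
    {I : Finset ℕ} (hI : I.card = nn j) :
    ∑ k ∈ I, g k ≤ 2 * ((mm j : ℝ)⁻¹) ^ 2 * nn j := by
  have hn : (0 : ℝ) ≤ nn j := Nat.cast_nonneg _
  have hsq : (0 : ℝ) ≤ ((mm j : ℝ)⁻¹) ^ 2 * nn j := by positivity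
  rcases lt_or_gt_of_ne hij with hlt | hgt
  · obtain ⟨L, hlen, hL, hd, rfl⟩ := hg
    have h1 := WAvg_aux (P := fun i => i ≠ j) (e := 2 ^ (j + 1)) (τ := ((mm j : ℝ)⁻¹) ^ 2) hlt
      (by positivity)
      (fun i' hi' h => mm_inv_le_sq (lt_of_le_of_ne h (Ne.symm hi')))
      (by rw [← WAvg_quarter_pow, pow_succ 2 j, pow_mul]) hlen hL hd I
    have h2 : (((NN j) ^ (2 ^ (j + 1) + 1) : ℕ) : ℝ) = ((mm j : ℝ)⁻¹) ^ 2 * nn j := by
      have h0 : (mm j : ℝ) ≠ 0 := (Nat.cast_pos.2 (mm_pos j)).ne'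
      rw [nn_eq j]
      push_cast
      field_simp
    rw [hI] at h1
    rw [← Finset.mul_sum]
    have h4 := mm_inv_pos i
    have h5 := mm_inv_le_quarter i
    calc (mm i : ℝ)⁻¹ * ∑ k ∈ I, (L.map (fun f => f k)).sum
        ≤ (mm i : ℝ)⁻¹ * (((mm j : ℝ)⁻¹) ^ 2 * nn j + ((mm j : ℝ)⁻¹) ^ 2 * nn j) := by
          refine mul_le_mul_of_nonneg_left ?_ h4.le
          linarith
      _ ≤ 1 * (((mm j : ℝ)⁻¹) ^ 2 * nn j + ((mm j : ℝ)⁻¹) ^ 2 * nn j) := by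
          refine mul_le_mul_of_nonneg_right (by linarith) (by linarith)
      _ = 2 * ((mm j : ℝ)⁻¹) ^ 2 * nn j := by ring
  · have h1 := WN_avg_le hg I
    rw [hI] at h1
    have h2 := mm_inv_le_sq hgt
    calc ∑ k ∈ I, g k ≤ (mm i : ℝ)⁻¹ * nn j := h1
      _ ≤ ((mm j : ℝ)⁻¹) ^ 2 * nn j := mul_le_mul_of_nonneg_right h2 hn
      _ ≤ 2 * ((mm j : ℝ)⁻¹) ^ 2 * nn j := by linarith

end Pool.Agent.MP0d518c
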