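import Pool.Agent.Lib.MP_0d518c_an.BI
import Pool.Agent.Lib.MP_0d518c_an.WAvg

/-! Task A1: coordinates on sums of members of an RIS. -/

namespace Pool.Agent.MP0d518c

open Finset Filter Topology

variable {T X : Type} [NormedAddCommGroup X] [NormedSpace ℝ X] (A : AHData T X)

theorem A1_sum_e {e g : ℕ → ℝ} {I : Finset ℕ}
    (h : e = 0 ∨ ∃ k0 ∈ I, g k0 = 0 ∧ e = Pi.single k0 1) : ∑ k ∈ I, e k ≤ 1 := by
  rcases h with h | ⟨k0, hk0, -, h⟩
  · rw [h]
    simp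
  · rw [h]
    have : ∑ k ∈ I, (Pi.single k0 (1 : ℝ) : ℕ → ℝ) k = 1 := by
      rw [Finset.sum_eq_single k0]
      · simp
      · intro b _ hb
        exact Pi.single_eq_of_ne hb 1
      · intro h'
        exact absurd hk0 h'
    rw [this]

namespace AHData

theorem A1_bound {C : ℝ} (hC : 0 ≤ C) {I : Finset ℕ} {e g : ℕ → ℝ} {a M : ℝ}
    (he : e = 0 ∨ ∃ k0 ∈ I, g k0 = 0 ∧ e = Pi.single k0 1)
    (hg : ∑ k ∈ I, g k ≤ M) (h : a ≤ 6 * C * ∑ k ∈ I, (e k + g k)) :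
    a ≤ 6 * C * (1 + M) := by
  refine h.trans ?_
  rw [Finset.sum_add_distrib]
  have := A1_sum_e he
  exact mul_le_mul_of_nonneg_left (by linarith) (by linarith)

theorem avg_lt {C : ℝ} (hC : 0 ≤ C) {N : ℕ} {x : ℕ → X} {s t j : ℕ → ℕ}
    (h : A.RIS C N x s t j) {J : ℕ} {I : Finset ℕ} (hI : I ⊆ Finset.range N)
    (hc : I.card = nn J) {q : T × ℕ} {i : ℕ} (hw : A.wt q.1 = some i) (hi : i < J) (u : ℕ) :
    |A.ev q ((∑ k ∈ I, x k) - A.Q u (∑ k ∈ I, x k))| ≤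
      6 * C * (1 + 2 * (mm i : ℝ)⁻¹ * (mm J : ℝ)⁻¹ * nn J) := by
  obtain ⟨e, g, he, -, hg, hb⟩ := A.basic hC h (fun _ => True)
    (fun i hi => absurd trivial hi) q I hI u
  refine A1_bound hC he ?_ hb
  rcases hg with hg | ⟨i', hi', -, hg⟩
  · rw [hg]
    have h1 := mm_inv_pos i
    have h2 := mm_inv_pos J
    simp only [Pi.zero_apply, Finset.sum_const_zero]
    positivity
  · have : i' = i := by
      rw [hw] at hi'
      exact (Option.some.inj hi').symm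
    subst this
    exact WN_avg_lt hi hg hc

theorem avg_ge {C : ℝ} (hC : 0 ≤ C) {N : ℕ} {x : ℕ → X} {s t j : ℕ → ℕ}
    (h : A.RIS C N x s t j) {J : ℕ} {I : Finset ℕ} (hI : I ⊆ Finset.range N)
    (hc : I.card = nn J) {q : T × ℕ} {i : ℕ} (hw : A.wt q.1 = some i) (u : ℕ) :
    |A.ev q ((∑ k ∈ I, x k) - A.Q u (∑ k ∈ I, x k))| ≤
      6 * C * (1 + (mm i : ℝ)⁻¹ * nn J) := by
  obtain ⟨e, g, he, -, hg, hb⟩ := A.basic hC h (fun _ => True)
    (fun i hi => absurd trivial hi) q I hI u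
  refine A1_bound hC he ?_ hb
  rcases hg with hg | ⟨i', hi', -, hg⟩
  · rw [hg]
    have h1 := mm_inv_pos i
    simp only [Pi.zero_apply, Finset.sum_const_zero]
    positivity
  · have : i' = i := by
      rw [hw] at hi'
      exact (Option.some.inj hi').symm
    subst this
    have := WN_avg_le hg I
    rw [hc] at this
    exact this

theorem avg_base {C : ℝ} (hC : 0 ≤ C) {N : ℕ} {x : ℕ → X} {s t j : ℕ → ℕ}
    (h : A.RIS C N x s t j) {I : Finset ℕ} (hI : I ⊆ Finset.range N)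
    {q : T × ℕ} (hw : A.wt q.1 = none) (u : ℕ) :
    |A.ev q ((∑ k ∈ I, x k) - A.Q u (∑ k ∈ I, x k))| ≤ 6 * C := by
  obtain ⟨e, g, he, -, hg, hb⟩ := A.basic hC h (fun _ => True)
    (fun i hi => absurd trivial hi) q I hI u
  have h0 : ∑ k ∈ I, g k ≤ 0 := by
    rcases hg with hg | ⟨i', hi', -, hg⟩
    · rw [hg]
      simp
    · rw [hw] at hi'
      exact absurd hi' (by simp)
  have := A1_bound hC he h0 hb
  linarith

/-- improved estimate if the coordinates of weight `m_J` are bounded on partial sums -/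
theorem avg_H {C : ℝ} (hC : 0 ≤ C) {N : ℕ} {x : ℕ → X} {s t j : ℕ → ℕ}
    (h : A.RIS C N x s t j) {J : ℕ} {I : Finset ℕ} (hI : I ⊆ Finset.range N)
    (hc : I.card = nn J)
    (hH : ∀ q : T × ℕ, A.wt q.1 = some J → ∀ K ⊆ Finset.range N, |A.ev q (∑ k ∈ K, x k)| ≤ C) :
    ‖∑ k ∈ I, x k‖ ≤ 18 * C * ((mm J : ℝ)⁻¹) ^ 2 * nn J := by
  have hM := one_le_nn_mul_sq J
  set M : ℝ := ((mm J : ℝ)⁻¹) ^ 2 * nn J with hMdef
  have hgoal : 18 * C * ((mm J : ℝ)⁻¹) ^ 2 * nn J = 18 * C * M := by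
    rw [hMdef]
    ring
  rw [hgoal]
  refine A.norm_le _ _ (by positivity) fun q => ?_
  obtain ⟨e, g, he, -, hg, hb⟩ := A.basic hC h (fun i => i ≠ J)
    (fun i hi q hq K hK => by
      have : i = J := not_not.1 hi
      subst this
      exact hH q hq K hK) q I hI 0
  rw [A.Q_zero, sub_zero] at hb
  have h0 : ∑ k ∈ I, g k ≤ 2 * M := by
    rcases hg with hg | ⟨i', hi', hne, hg⟩
    · rw [hg]
      simp only [Pi.zero_apply, Finset.sum_const_zero]
      positivity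
    · have := WN_avg_ne hne hg hc
      rw [hMdef]
      linarith
  have := A1_bound hC he h0 hb
  nlinarith

end AHData

end Pool.Agent.MP0d518c
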