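import Pool.Agent.Lib.MP_0d518c_an.Par

/-! Task AK1: `RadAlg` over `𝕜 = ℝ` or `ℂ`: coefficients (generalises AL1). -/

namespace Pool.Agent.MP0d518c

open Finset Filter Topology

variable {𝕜 : Type} [RCLike 𝕜] {R : Type} [NormedRing R] [NormedAlgebra 𝕜 R] [CompleteSpace R]


/-- hypotheses on `R`, the two-sided ideal `K` and `S` -/
structure RadAlgK (𝕜 : Type) [RCLike 𝕜] {R : Type} [NormedRing R] [NormedAlgebra 𝕜 R] (M : ℝ)
    (K : TwoSidedIdeal R) (S : R) : Prop where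
  closed : IsClosed {x : R | x ∈ K}
  pow_le : ∀ j, ‖S ^ j‖ ≤ om j
  rep : ∀ V : R, ∃ μ : ℕ → 𝕜, (Summable fun l => ‖μ l‖ * om l) ∧
    V - ∑' l, μ l • S ^ l ∈ K
  low : ∀ (μ : ℕ → 𝕜) (k : R), (Summable fun l => ‖μ l‖ * om l) → k ∈ K →
    ∑' l, ‖μ l‖ * om l ≤ M * ‖(∑' l, μ l • S ^ l) + k‖

theorem summableK {S : R} (hpow : ∀ j, ‖S ^ j‖ ≤ om j) {μ : ℕ → 𝕜}
    (hμ : Summable fun l => ‖μ l‖ * om l) : Summable fun l => μ l • S ^ l := by
  refine Summable.of_norm_bounded hμ (fun l => ?_)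
  rw [norm_smul]
  exact mul_le_mul_of_nonneg_left (hpow l) (norm_nonneg _)

/-- the coefficients are unique -/
theorem RadAlgK.coef_zero {M : ℝ} {K : TwoSidedIdeal R} {S : R} (h : RadAlgK 𝕜 M K S)
    {μ : ℕ → 𝕜} (hμ : Summable fun l => ‖μ l‖ * om l) (hmem : (∑' l, μ l • S ^ l) ∈ K) :
    ∀ l, μ l = 0 := by
  have h1 := h.low μ (-(∑' l, μ l • S ^ l)) hμ (K.neg_mem hmem)
  rw [add_neg_cancel, norm_zero, mul_zero] at h1
  have h2 : ∀ l, 0 ≤ ‖μ l‖ * om l := fun l => mul_nonneg (norm_nonneg _) (om_pos l).le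
  have h3 : ∑' l, ‖μ l‖ * om l = 0 := le_antisymm h1 (tsum_nonneg h2)
  have h4 := (hasSum_zero_iff_of_nonneg h2).1 (h3 ▸ hμ.hasSum)
  intro l
  have h5 : ‖μ l‖ * om l = 0 := congrFun h4 l
  rcases mul_eq_zero.1 h5 with h6 | h6
  · exact norm_eq_zero.1 h6
  · exact absurd h6 (om_pos l).ne'

/-- ideals are closed under scalars -/
theorem smul_memK (I : TwoSidedIdeal R) (c : 𝕜) {x : R} (hx : x ∈ I) : c • x ∈ I := by
  have : c • x = (algebraMap 𝕜 R c) * x := Algebra.smul_def c x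
  rw [this]
  exact I.mul_mem_left _ _ hx

/-- series in a closed ideal -/
theorem tsum_memK {S : R} (hpow : ∀ j, ‖S ^ j‖ ≤ om j)
    (I : TwoSidedIdeal R) (hI : IsClosed {x : R | x ∈ I}) {μ : ℕ → 𝕜}
    (hμ : Summable fun l => ‖μ l‖ * om l) (hmem : ∀ l, μ l ≠ 0 → S ^ l ∈ I) :
    (∑' l, μ l • S ^ l) ∈ I := by
  have h1 := (summableK hpow hμ).hasSum
  have h2 : ∀ s : Finset ℕ, (∑ l ∈ s, μ l • S ^ l) ∈ {x : R | x ∈ I} := by
    intro s
    refine Finset.sum_induction _ (fun x => x ∈ I) (fun a b ha hb => I.add_mem ha hb) I.zero_mem ?_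
    intro l _
    by_cases h : μ l = 0
    · rw [h, zero_smul]; exact I.zero_mem
    · exact smul_memK I _ (hmem l h)
  exact hI.mem_of_tendsto h1 (Filter.Eventually.of_forall h2)

end Pool.Agent.MP0d518c
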