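import Pool.Agent.Lib.MP_0d518c_an.AK1

/-! Task AK2: existence of the ideals `I_k` over `𝕜 = ℝ` or `ℂ`. -/

namespace Pool.Agent.MP0d518c

open Finset Filter Topology

variable {𝕜 : Type} [RCLike 𝕜] {R : Type} [NormedRing R] [NormedAlgebra 𝕜 R] [CompleteSpace R]
  {M : ℝ}

/-- membership in `I_k` -/
private def AK2_mem (𝕜 : Type) [RCLike 𝕜] {R : Type} [NormedRing R] [NormedAlgebra 𝕜 R]
    (K : TwoSidedIdeal R) (S : R) (k : ℕ) (x : R) : Prop :=
  ∃ μ : ℕ → 𝕜, (Summable fun l => ‖μ l‖ * om l) ∧ (∀ l < k, μ l = 0) ∧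
    x - ∑' l, μ l • S ^ l ∈ K

private theorem AK2_smul_mem (K : TwoSidedIdeal R) (c : 𝕜) {x : R} (hx : x ∈ K) : c • x ∈ K := by
  rw [Algebra.smul_def]
  exact K.mul_mem_left _ _ hx

private theorem AK2_sum_add {μ ν : ℕ → 𝕜} (hμ : Summable fun l => ‖μ l‖ * om l)
    (hν : Summable fun l => ‖ν l‖ * om l) : Summable fun l => ‖μ l + ν l‖ * om l := by
  apply Summable.of_nonneg_of_le _ _ (hμ.add hν)
  · intro l
    exact mul_nonneg (norm_nonneg _) (om_pos l).le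
  · intro l
    rw [← add_mul]
    exact mul_le_mul_of_nonneg_right (norm_add_le _ _) (om_pos l).le

private theorem AK2_sum_smul (c : 𝕜) {μ : ℕ → 𝕜} (hμ : Summable fun l => ‖μ l‖ * om l) :
    Summable fun l => ‖c * μ l‖ * om l := by
  have h := hμ.mul_left ‖c‖
  refine h.congr fun l => ?_
  rw [norm_mul, mul_assoc]

private theorem AK2_zero (K : TwoSidedIdeal R) (S : R) (k : ℕ) : AK2_mem 𝕜 K S k 0 := by
  refine ⟨fun _ => 0, ?_, fun _ _ => rfl, ?_⟩
  · simp only [norm_zero, zero_mul]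
    exact summable_zero
  · simp only [zero_smul, tsum_zero, sub_zero]
    exact K.zero_mem

private theorem AK2_add {K : TwoSidedIdeal R} {S : R} (h : RadAlgK 𝕜 M K S) {k : ℕ} {x y : R}
    (hx : AK2_mem 𝕜 K S k x) (hy : AK2_mem 𝕜 K S k y) : AK2_mem 𝕜 K S k (x + y) := by
  obtain ⟨μ, hμ, hμ0, hμK⟩ := hx
  obtain ⟨ν, hν, hν0, hνK⟩ := hy
  refine ⟨fun l => μ l + ν l, AK2_sum_add hμ hν, ?_, ?_⟩
  · intro l hl
    change μ l + ν l = 0
    rw [hμ0 l hl, hν0 l hl, add_zero]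
  · have h1 : ∑' l, (μ l + ν l) • S ^ l = ∑' l, μ l • S ^ l + ∑' l, ν l • S ^ l := by
      rw [← (summableK h.pow_le hμ).tsum_add (summableK h.pow_le hν)]
      exact tsum_congr fun l => add_smul _ _ _
    rw [h1, add_sub_add_comm]
    exact K.add_mem hμK hνK

private theorem AK2_smul {K : TwoSidedIdeal R} {S : R} (h : RadAlgK 𝕜 M K S) {k : ℕ} (c : 𝕜) {x : R}
    (hx : AK2_mem 𝕜 K S k x) : AK2_mem 𝕜 K S k (c • x) := by
  obtain ⟨μ, hμ, hμ0, hμK⟩ := hx
  refine ⟨fun l => c * μ l, AK2_sum_smul c hμ, ?_, ?_⟩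
  · intro l hl
    change c * μ l = 0
    rw [hμ0 l hl, mul_zero]
  · have h1 : ∑' l, (c * μ l) • S ^ l = c • ∑' l, μ l • S ^ l := by
      rw [← (summableK h.pow_le hμ).tsum_const_smul]
      exact tsum_congr fun l => mul_smul _ _ _
    rw [h1, ← smul_sub]
    exact AK2_smul_mem K c hμK

private theorem AK2_of_K {K : TwoSidedIdeal R} (S : R) (k : ℕ) {x : R} (hx : x ∈ K) :
    AK2_mem 𝕜 K S k x := by
  refine ⟨fun _ => 0, ?_, fun _ _ => rfl, ?_⟩
  · simp only [norm_zero, zero_mul]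
    exact summable_zero
  · simp only [zero_smul, tsum_zero, sub_zero]
    exact hx

private theorem AK2_sum {K : TwoSidedIdeal R} {S : R} (h : RadAlgK 𝕜 M K S) {k : ℕ} {ι : Type}
    (s : Finset ι) (f : ι → R) (hf : ∀ i ∈ s, AK2_mem 𝕜 K S k (f i)) :
    AK2_mem 𝕜 K S k (∑ i ∈ s, f i) := by
  classical
  induction s using Finset.induction_on with
  | empty => rw [Finset.sum_empty]; exact AK2_zero K S k
  | insert a s ha ih =>
    rw [Finset.sum_insert ha]
    exact AK2_add h (hf a (Finset.mem_insert_self a s))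
      (ih fun i hi => hf i (Finset.mem_insert_of_mem hi))

private theorem AK2_closed {K : TwoSidedIdeal R} {S : R} (h : RadAlgK 𝕜 M K S) (k : ℕ) :
    IsClosed {x : R | AK2_mem 𝕜 K S k x} := by
  apply isClosed_of_closure_subset
  intro x hx
  rw [Metric.mem_closure_iff] at hx
  obtain ⟨μ, hμ, hμK⟩ := h.rep x
  refine ⟨μ, hμ, ?_, hμK⟩
  intro l hl
  by_contra hne
  have hpos : 0 < ‖μ l‖ * om l := mul_pos (norm_pos_iff.2 hne) (om_pos l)
  obtain ⟨y, ⟨ν, hν, hν0, hνK⟩, hxy⟩ := hx (‖μ l‖ * om l / (|M| + 1)) (by positivity)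
  have hsum : Summable fun l => ‖μ l + (-1) * ν l‖ * om l :=
    AK2_sum_add hμ (AK2_sum_smul (-1) hν)
  have h1 := h.low (fun l => μ l + (-1) * ν l)
    ((x - ∑' l, μ l • S ^ l) - (y - ∑' l, ν l • S ^ l)) hsum (K.sub_mem hμK hνK)
  have h2 : ∑' l, (μ l + (-1) * ν l) • S ^ l = ∑' l, μ l • S ^ l - ∑' l, ν l • S ^ l := by
    rw [← (summableK h.pow_le hμ).tsum_sub (summableK h.pow_le hν)]
    refine tsum_congr fun l => ?_
    rw [add_smul, neg_one_mul, neg_smul, sub_eq_add_neg]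
  have h3 : (∑' l, (μ l + (-1) * ν l) • S ^ l) +
      ((x - ∑' l, μ l • S ^ l) - (y - ∑' l, ν l • S ^ l)) = x - y := by
    rw [h2]
    abel
  rw [h3, ← dist_eq_norm] at h1
  have h4 : ‖μ l + (-1) * ν l‖ * om l ≤ ∑' l, ‖μ l + (-1) * ν l‖ * om l :=
    hsum.le_tsum l fun j _ => mul_nonneg (norm_nonneg _) (om_pos j).le
  rw [hν0 l hl, mul_zero, add_zero] at h4
  have hM : 0 < |M| + 1 := by positivity
  rw [lt_div_iff₀ hM] at hxy
  have h5 : M * dist x y ≤ |M| * dist x y := mul_le_mul_of_nonneg_right (le_abs_self M) dist_nonneg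
  have h6 : (0 : ℝ) ≤ dist x y := dist_nonneg
  nlinarith

/-- the shifted coefficients -/
private def AK2_sh (μ : ℕ → 𝕜) : ℕ → 𝕜
  | 0 => 0
  | (l + 1) => μ l

private theorem AK2_sh_summable {μ : ℕ → 𝕜} (hμ : Summable fun l => ‖μ l‖ * om l) :
    Summable fun l => ‖AK2_sh μ l‖ * om l := by
  rw [← summable_nat_add_iff 1]
  apply Summable.of_nonneg_of_le _ _ hμ
  · intro l
    exact mul_nonneg (norm_nonneg _) (om_pos _).le
  · intro l
    exact mul_le_mul_of_nonneg_left (om_antitone (Nat.le_succ l)) (norm_nonneg _)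

private theorem AK2_sh_tsum {K : TwoSidedIdeal R} {S : R} (h : RadAlgK 𝕜 M K S) {μ : ℕ → 𝕜}
    (hμ : Summable fun l => ‖μ l‖ * om l) :
    ∑' l, AK2_sh μ l • S ^ l = ∑' l, μ l • S ^ (l + 1) := by
  rw [(summableK h.pow_le (AK2_sh_summable hμ)).tsum_eq_zero_add]
  simp [AK2_sh]

private theorem AK2_S_mul {K : TwoSidedIdeal R} {S : R} (h : RadAlgK 𝕜 M K S) {k : ℕ} {x : R}
    (hx : AK2_mem 𝕜 K S k x) : AK2_mem 𝕜 K S k (S * x) := by
  obtain ⟨μ, hμ, hμ0, hμK⟩ := hx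
  refine ⟨AK2_sh μ, AK2_sh_summable hμ, ?_, ?_⟩
  · intro l hl
    cases l with
    | zero => rfl
    | succ l => exact hμ0 l (by omega)
  · have h1 : S * ∑' l, μ l • S ^ l = ∑' l, μ l • S ^ (l + 1) := by
      rw [← (summableK h.pow_le hμ).tsum_mul_left]
      refine tsum_congr fun l => ?_
      rw [mul_smul_comm, ← pow_succ']
    rw [AK2_sh_tsum h hμ, ← h1, ← mul_sub]
    exact K.mul_mem_left _ _ hμK

private theorem AK2_mul_S {K : TwoSidedIdeal R} {S : R} (h : RadAlgK 𝕜 M K S) {k : ℕ} {x : R}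
    (hx : AK2_mem 𝕜 K S k x) : AK2_mem 𝕜 K S k (x * S) := by
  obtain ⟨μ, hμ, hμ0, hμK⟩ := hx
  refine ⟨AK2_sh μ, AK2_sh_summable hμ, ?_, ?_⟩
  · intro l hl
    cases l with
    | zero => rfl
    | succ l => exact hμ0 l (by omega)
  · have h1 : (∑' l, μ l • S ^ l) * S = ∑' l, μ l • S ^ (l + 1) := by
      rw [← (summableK h.pow_le hμ).tsum_mul_right]
      refine tsum_congr fun l => ?_
      rw [smul_mul_assoc, ← pow_succ]
    rw [AK2_sh_tsum h hμ, ← h1, ← sub_mul]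
    exact K.mul_mem_right _ _ hμK

private theorem AK2_Spow_mul {K : TwoSidedIdeal R} {S : R} (h : RadAlgK 𝕜 M K S) {k : ℕ} {x : R}
    (hx : AK2_mem 𝕜 K S k x) (j : ℕ) : AK2_mem 𝕜 K S k (S ^ j * x) := by
  induction j with
  | zero => rwa [pow_zero, one_mul]
  | succ j ih => rw [pow_succ', mul_assoc]; exact AK2_S_mul h ih

private theorem AK2_mul_Spow {K : TwoSidedIdeal R} {S : R} (h : RadAlgK 𝕜 M K S) {k : ℕ} {x : R}
    (hx : AK2_mem 𝕜 K S k x) (j : ℕ) : AK2_mem 𝕜 K S k (x * S ^ j) := by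
  induction j with
  | zero => rwa [pow_zero, mul_one]
  | succ j ih => rw [pow_succ, ← mul_assoc]; exact AK2_mul_S h ih

private theorem AK2_hasSum {K : TwoSidedIdeal R} {S : R} (h : RadAlgK 𝕜 M K S) {k : ℕ} {f : ℕ → R}
    {a : R} (hf : HasSum f a) (hm : ∀ l, AK2_mem 𝕜 K S k (f l)) : AK2_mem 𝕜 K S k a := by
  have h1 : a ∈ {x : R | AK2_mem 𝕜 K S k x} :=
    (AK2_closed h k).mem_of_tendsto hf (Eventually.of_forall fun s =>
      AK2_sum h s f fun i _ => hm i)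
  exact h1

private theorem AK2_mul_left {K : TwoSidedIdeal R} {S : R} (h : RadAlgK 𝕜 M K S) {k : ℕ} (V : R)
    {x : R} (hx : AK2_mem 𝕜 K S k x) : AK2_mem 𝕜 K S k (V * x) := by
  obtain ⟨ν, hν, hνK⟩ := h.rep V
  have h1 : V * x = (∑' l, ν l • S ^ l) * x + (V - ∑' l, ν l • S ^ l) * x := by
    rw [← add_mul]
    congr 1
    abel
  rw [h1]
  apply AK2_add h
  · apply AK2_hasSum h ((summableK h.pow_le hν).hasSum.mul_right x)
    intro l
    rw [smul_mul_assoc]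
    exact AK2_smul h _ (AK2_Spow_mul h hx l)
  · exact AK2_of_K S k (K.mul_mem_right _ _ hνK)

private theorem AK2_mul_right {K : TwoSidedIdeal R} {S : R} (h : RadAlgK 𝕜 M K S) {k : ℕ} (V : R)
    {x : R} (hx : AK2_mem 𝕜 K S k x) : AK2_mem 𝕜 K S k (x * V) := by
  obtain ⟨ν, hν, hνK⟩ := h.rep V
  have h1 : x * V = x * (∑' l, ν l • S ^ l) + x * (V - ∑' l, ν l • S ^ l) := by
    rw [← mul_add]
    congr 1
    abel
  rw [h1]
  apply AK2_add h
  · apply AK2_hasSum h ((summableK h.pow_le hν).hasSum.mul_left x)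
    intro l
    rw [mul_smul_comm]
    exact AK2_smul h _ (AK2_mul_Spow h hx l)
  · exact AK2_of_K S k (K.mul_mem_left _ _ hνK)

/-- the coefficient sequence of `S ^ l` -/
private theorem AK2_single_summable (l : ℕ) :
    Summable fun i => ‖(Pi.single l (1 : 𝕜) : ℕ → 𝕜) i‖ * om i := by
  apply summable_of_ne_finset_zero (s := {l})
  intro i hi
  rw [Finset.mem_singleton] at hi
  rw [Pi.single_eq_of_ne hi, norm_zero, zero_mul]

private theorem AK2_single_tsum (S : R) (l : ℕ) :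
    ∑' i, (Pi.single l (1 : 𝕜) : ℕ → 𝕜) i • S ^ i = S ^ l := by
  rw [tsum_eq_single l]
  · rw [Pi.single_eq_same, one_smul]
  · intro i hi
    rw [Pi.single_eq_of_ne hi, zero_smul]

/-- the ideals `I_k = {μ(S) + c : μ_l = 0 for l < k, c ∈ K}` exist, are closed and pairwise
different -/
theorem RadAlgK.exist {K : TwoSidedIdeal R} {S : R} (h : RadAlgK 𝕜 M K S) (k : ℕ) :
    ∃ I : TwoSidedIdeal R, IsClosed {x : R | x ∈ I} ∧ S ^ k ∈ I ∧ (∀ l < k, S ^ l ∉ I) := by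
  refine ⟨TwoSidedIdeal.mk' {x : R | AK2_mem 𝕜 K S k x} (AK2_zero K S k)
    (fun hx hy => AK2_add h hx hy)
    (fun {x} hx => by
      have := AK2_smul h (-1) hx
      rwa [neg_one_smul] at this)
    (fun {x y} hy => AK2_mul_left h x hy) (fun {x y} hx => AK2_mul_right h y hx), ?_, ?_, ?_⟩
  · simp only [TwoSidedIdeal.mem_mk']
    exact AK2_closed h k
  · rw [TwoSidedIdeal.mem_mk']
    refine ⟨Pi.single k 1, AK2_single_summable k, ?_, ?_⟩
    · intro l hl
      exact Pi.single_eq_of_ne (by omega) _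
    · rw [AK2_single_tsum, sub_self]
      exact K.zero_mem
  · intro l hl hmem
    rw [TwoSidedIdeal.mem_mk'] at hmem
    obtain ⟨μ, hμ, hμ0, hμK⟩ := hmem
    have hsum := AK2_sum_add (AK2_single_summable l) (AK2_sum_smul (-1) hμ)
    have h2 : ∑' i, ((Pi.single l (1 : 𝕜) : ℕ → 𝕜) i + (-1) * μ i) • S ^ i =
        S ^ l - ∑' i, μ i • S ^ i := by
      rw [← AK2_single_tsum (𝕜 := 𝕜) S l,
        ← (summableK h.pow_le (AK2_single_summable l)).tsum_sub (summableK h.pow_le hμ)]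
      refine tsum_congr fun i => ?_
      rw [add_smul, neg_one_mul, neg_smul, sub_eq_add_neg]
    have h3 := h.coef_zero hsum (by rw [h2]; exact hμK) l
    rw [hμ0 l hl, Pi.single_eq_same, mul_zero, add_zero] at h3
    exact one_ne_zero h3

end Pool.Agent.MP0d518c
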