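import Pool.Agent.Lib.MP_0d518c_an.AK1

/-! Task AK3: the radical algebra argument over `𝕜 = ℝ` or `ℂ`. -/

namespace Pool.Agent.MP0d518c

open Finset Filter Topology

private theorem AK3_step {𝕜 : Type} [RCLike 𝕜] {E : Type*}
    [NormedAddCommGroup E] [NormedSpace 𝕜 E] {a : ℕ → E}
    {k : ℕ} {ν : ℕ → 𝕜} (hν : Summable fun l => ‖ν l‖ * om l) (h0 : ∀ l < k, ν l = 0)
    (hs : ∀ m, HasSum (fun l => ν l • a (l + m)) 0) (m : ℕ) {c : ℝ} (hc : 0 ≤ c)
    (hN : ∀ N, k + m < N → ‖a N‖ ≤ c * om N) :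
    ‖ν k‖ * ‖a (k + m)‖ ≤ c * om (k + m) * (2 ^ (k ^ 2) * (1 / 2 : ℝ) ^ (2 * m)) *
      ∑' l, ‖ν l‖ * om l := by
  have h1 := (hs m).update k 0
  have h2 : HasSum (fun l => c * om (k + m) * (2 ^ (k ^ 2) * (1 / 2 : ℝ) ^ (2 * m)) *
      (‖ν l‖ * om l)) (c * om (k + m) * (2 ^ (k ^ 2) * (1 / 2 : ℝ) ^ (2 * m)) *
      ∑' l, ‖ν l‖ * om l) := hν.hasSum.mul_left _
  have hK : 0 ≤ c * om (k + m) * (2 ^ (k ^ 2) * (1 / 2 : ℝ) ^ (2 * m)) := by
    have := om_pos (k + m)
    positivity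
  have h3 := h1.norm_le_of_bounded h2 (by
    intro l
    rcases lt_trichotomy l k with hl | hl | hl
    · rw [Function.update_of_ne (ne_of_lt hl), h0 l hl]
      simp
    · subst hl
      rw [Function.update_self, norm_zero]
      have := om_pos l
      positivity
    · rw [Function.update_of_ne (ne_of_gt hl), norm_smul]
      have h4 := hN (l + m) (by omega)
      have h5 := om_ratio (m := m) hl
      calc ‖ν l‖ * ‖a (l + m)‖ ≤ ‖ν l‖ * (c * om (l + m)) :=
            mul_le_mul_of_nonneg_left h4 (norm_nonneg _)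
        _ ≤ ‖ν l‖ * (c * (om l * om (k + m) * (2 ^ (k ^ 2) * (1 / 2 : ℝ) ^ (2 * m)))) := by
            apply mul_le_mul_of_nonneg_left _ (norm_nonneg _)
            exact mul_le_mul_of_nonneg_left h5 hc
        _ = _ := by ring)
  rw [zero_sub, add_zero, norm_neg, norm_smul] at h3
  exact h3

private theorem AK3_aux {𝕜 : Type} [RCLike 𝕜] {E : Type*}
    [NormedAddCommGroup E] [NormedSpace 𝕜 E] {a : ℕ → E}
    {k : ℕ} {ν : ℕ → 𝕜} (ha : ∀ N, ‖a N‖ ≤ om N)
    (hν : Summable fun l => ‖ν l‖ * om l) (h0 : ∀ l < k, ν l = 0) (hk : ν k ≠ 0)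
    (hs : ∀ m, HasSum (fun l => ν l • a (l + m)) 0) : a k = 0 := by
  set A : ℝ := ∑' l, ‖ν l‖ * om l with hA
  have hkpos : 0 < ‖ν k‖ := norm_pos_iff.mpr hk
  have hA0 : 0 ≤ A := tsum_nonneg fun l => mul_nonneg (norm_nonneg _) (om_pos l).le
  -- choose m0
  obtain ⟨m0, hm0⟩ : ∃ m0 : ℕ, ∀ m, m0 ≤ m →
      2 ^ (k ^ 2) * (1 / 2 : ℝ) ^ (2 * m) * A ≤ ‖ν k‖ / 2 := by
    have hlim : Tendsto (fun m : ℕ => 2 ^ (k ^ 2) * A * (1 / 4 : ℝ) ^ m) atTop (𝓝 0) := by
      have := (tendsto_pow_atTop_nhds_zero_of_lt_one (r := (1 / 4 : ℝ)) (by norm_num)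
        (by norm_num)).const_mul (2 ^ (k ^ 2) * A)
      simpa using this
    have hev := hlim.eventually (gt_mem_nhds (show (0 : ℝ) < ‖ν k‖ / 2 by positivity))
    obtain ⟨m0, hm0⟩ := eventually_atTop.mp hev
    refine ⟨m0, fun m hm => ?_⟩
    have := (hm0 m hm).le
    calc 2 ^ (k ^ 2) * (1 / 2 : ℝ) ^ (2 * m) * A = 2 ^ (k ^ 2) * A * (1 / 4 : ℝ) ^ m := by
          rw [pow_mul]; norm_num; ring
      _ ≤ _ := this
  -- decay
  have hdec : ∀ r : ℕ, ∀ N, k + m0 ≤ N → ‖a N‖ ≤ (1 / 2 : ℝ) ^ r * om N := by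
    intro r
    induction r with
    | zero => intro N _; simpa using ha N
    | succ r ih =>
      intro N hN
      obtain ⟨m, rfl⟩ : ∃ m, N = k + m := ⟨N - k, by omega⟩
      have h1 := AK3_step (a := a) hν h0 hs m (c := (1 / 2 : ℝ) ^ r) (by positivity)
        (fun N' hN' => ih N' (by omega))
      have h2 := hm0 m (by omega)
      have h3 : ‖ν k‖ * ‖a (k + m)‖ ≤ ‖ν k‖ * ((1 / 2 : ℝ) ^ (r + 1) * om (k + m)) := by
        calc ‖ν k‖ * ‖a (k + m)‖ ≤ (1 / 2 : ℝ) ^ r * om (k + m) *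
              (2 ^ (k ^ 2) * (1 / 2 : ℝ) ^ (2 * m)) * A := h1
          _ = (1 / 2 : ℝ) ^ r * om (k + m) * (2 ^ (k ^ 2) * (1 / 2 : ℝ) ^ (2 * m) * A) := by ring
          _ ≤ (1 / 2 : ℝ) ^ r * om (k + m) * (‖ν k‖ / 2) := by
              apply mul_le_mul_of_nonneg_left h2
              have := om_pos (k + m)
              positivity
          _ = _ := by rw [pow_succ]; ring
      exact le_of_mul_le_mul_left h3 hkpos
  have hzero : ∀ N, k + m0 ≤ N → a N = 0 := by
    intro N hN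
    have h1 : Tendsto (fun r : ℕ => (1 / 2 : ℝ) ^ r * om N) atTop (𝓝 0) := by
      have := (tendsto_pow_atTop_nhds_zero_of_lt_one (r := (1 / 2 : ℝ)) (by norm_num)
        (by norm_num)).mul_const (om N)
      simpa using this
    have h2 : ‖a N‖ ≤ 0 := ge_of_tendsto' h1 fun r => hdec r N hN
    exact norm_le_zero_iff.mp h2
  -- downward induction
  have hdown : ∀ j : ℕ, j ≤ m0 → ∀ N, k + (m0 - j) ≤ N → a N = 0 := by
    intro j
    induction j with
    | zero => intro _ N hN; exact hzero N (by omega)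
    | succ j ih =>
      intro hj N hN
      rcases Nat.lt_or_ge (k + (m0 - (j + 1))) N with hlt | hge
      · exact ih (by omega) N (by omega)
      · have hNe : N = k + (m0 - (j + 1)) := le_antisymm hge hN
        subst hNe
        have h1 := hs (m0 - (j + 1))
        have h2 : HasSum (fun l => ν l • a (l + (m0 - (j + 1))))
            (ν k • a (k + (m0 - (j + 1)))) := by
          apply hasSum_single k
          intro l hl
          rcases lt_or_gt_of_ne hl with h | h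
          · rw [h0 l h, zero_smul]
          · rw [ih (by omega) (l + (m0 - (j + 1))) (by omega), smul_zero]
        have h3 := h1.unique h2
        rcases smul_eq_zero.mp h3.symm with h | h
        · exact absurd h hk
        · exact h
  exact hdown m0 le_rfl k (by omega)

variable {𝕜 : Type} [RCLike 𝕜] {R : Type} [NormedRing R] [NormedAlgebra 𝕜 R] [CompleteSpace R]

/-- a closed ideal containing `Σ_{l ≥ k} ν_l S^l`, `ν_k ≠ 0`, contains `S^k` -/
theorem pow_memK {S : R} (hpow : ∀ j, ‖S ^ j‖ ≤ om j)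
    (I : TwoSidedIdeal R) (hI : IsClosed {x : R | x ∈ I}) {k : ℕ} {ν : ℕ → 𝕜}
    (hν : Summable fun l => ‖ν l‖ * om l) (h0 : ∀ l < k, ν l = 0) (hk : ν k ≠ 0)
    (hmem : (∑' l, ν l • S ^ l) ∈ I) : S ^ k ∈ I := by
  -- the ideal as a closed subspace
  let J : Submodule 𝕜 R :=
    { carrier := {x : R | x ∈ I}
      add_mem' := fun {x y} hx hy => I.add_mem hx hy
      zero_mem' := I.zero_mem
      smul_mem' := fun c x hx => by
        have : c • x = (algebraMap 𝕜 R c) * x := Algebra.smul_def c x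
        show c • x ∈ I
        rw [this]
        exact I.mul_mem_left _ _ hx }
  have hJc : IsClosed (J : Set R) := hI
  have hmemJ : ∀ x : R, x ∈ J ↔ x ∈ I := fun x => Iff.rfl
  have : IsClosed (J : Set R) := hJc
  have hsum : Summable fun l => ν l • S ^ l := by
    refine Summable.of_norm_bounded hν (fun l => ?_)
    rw [norm_smul]
    exact mul_le_mul_of_nonneg_left (hpow l) (norm_nonneg _)
  let π : R →L[𝕜] (R ⧸ J) := J.mkQL
  have hπ : ∀ x : R, ‖π x‖ ≤ ‖x‖ := fun x => Submodule.Quotient.norm_mk_le J x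
  have hfin := AK3_aux (a := fun N => π (S ^ N)) (k := k) (ν := ν)
    (fun N => (hπ _).trans (hpow N)) hν h0 hk (by
      intro m
      have h1 : HasSum (fun l => S ^ m * (ν l • S ^ l)) (S ^ m * ∑' l, ν l • S ^ l) :=
        hsum.hasSum.mul_left _
      have h2 := h1.mapL π
      have h3 : π (S ^ m * ∑' l, ν l • S ^ l) = 0 := by
        have : (S ^ m * ∑' l, ν l • S ^ l) ∈ J := I.mul_mem_left _ _ hmem
        exact (Submodule.Quotient.mk_eq_zero J).mpr this
      rw [h3] at h2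
      have h4 : (fun l => π (S ^ m * ν l • S ^ l)) = fun l => ν l • π (S ^ (l + m)) := by
        funext l
        rw [mul_smul_comm, ← pow_add, map_smul, add_comm]
      rw [h4] at h2
      exact h2)
  exact (Submodule.Quotient.mk_eq_zero J).mp hfin

end Pool.Agent.MP0d518c
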