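import Pool.Agent.Lib.MP_0d518c_an.AK2
import Pool.Agent.Lib.MP_0d518c_an.AK3

/-! Task AK4: classification of the closed ideals over `𝕜 = ℝ` or `ℂ`. -/

namespace Pool.Agent.MP0d518c

open Finset Filter Topology

variable {𝕜 : Type} [RCLike 𝕜] {R : Type} [NormedRing R] [NormedAlgebra 𝕜 R] [CompleteSpace R]


/-- a closed ideal containing `K` properly contains `Σ_{l ≥ k} μ_l S^l + K` and nothing else,
for some `k` -/
theorem RadAlgK.classify {M : ℝ} {K : TwoSidedIdeal R} {S : R} (h : RadAlgK 𝕜 M K S)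
    (I : TwoSidedIdeal R) (hI : IsClosed {x : R | x ∈ I}) (hK : ∀ x ∈ K, x ∈ I)
    (hne : ∃ x ∈ I, x ∉ K) :
    ∃ k : ℕ, ∀ x : R, x ∈ I ↔ ∃ (μ : ℕ → 𝕜) (c : R), (Summable fun l => ‖μ l‖ * om l) ∧
      (∀ l < k, μ l = 0) ∧ c ∈ K ∧ x = (∑' l, μ l • S ^ l) + c := by
  classical
  have hex : ∃ k : ℕ, ∃ x ∈ I, ∃ μ : ℕ → 𝕜, (Summable fun l => ‖μ l‖ * om l) ∧
      x - ∑' l, μ l • S ^ l ∈ K ∧ μ k ≠ 0 := by
    obtain ⟨x, hx, hxK⟩ := hne
    obtain ⟨μ, hμ, hμK⟩ := h.rep x
    by_contra hcon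
    push Not at hcon
    have hz : ∀ l, μ l = 0 := fun l => hcon l x hx μ hμ hμK
    apply hxK
    have : (∑' l, μ l • S ^ l) = 0 := by simp [hz]
    rw [this, sub_zero] at hμK
    exact hμK
  obtain ⟨x0, hx0, μ0, hμ0, hμ0K, hk⟩ := Nat.find_spec hex
  have hmin : ∀ l < Nat.find hex, ∀ x ∈ I, ∀ μ : ℕ → 𝕜, (Summable fun l => ‖μ l‖ * om l) →
      x - ∑' l, μ l • S ^ l ∈ K → μ l = 0 := by
    intro l hl x hx μ hμ hμK
    by_contra hne'
    exact Nat.find_min hex hl ⟨x, hx, μ, hμ, hμK, hne'⟩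
  set k := Nat.find hex with hkdef
  have hSk : S ^ k ∈ I := by
    refine pow_memK h.pow_le I hI hμ0 (fun l hl => hmin l hl x0 hx0 μ0 hμ0 hμ0K) hk ?_
    have : (∑' l, μ0 l • S ^ l) = x0 - (x0 - ∑' l, μ0 l • S ^ l) := by abel
    rw [this]
    exact I.sub_mem hx0 (hK _ hμ0K)
  have hSl : ∀ l, k ≤ l → S ^ l ∈ I := by
    intro l hl
    have : S ^ l = S ^ (l - k) * S ^ k := by
      rw [← pow_add]; congr 1; omega
    rw [this]
    exact I.mul_mem_left _ _ hSk
  refine ⟨k, fun x => ⟨fun hx => ?_, ?_⟩⟩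
  · obtain ⟨μ, hμ, hμK⟩ := h.rep x
    exact ⟨μ, x - ∑' l, μ l • S ^ l, hμ, fun l hl => hmin l hl x hx μ hμ hμK, hμK, by abel⟩
  · rintro ⟨μ, c, hμ, hz, hc, rfl⟩
    refine I.add_mem (tsum_memK h.pow_le I hI hμ fun l hl => hSl l ?_) (hK c hc)
    by_contra hcon
    exact hl (hz l (not_le.mp hcon))

/-- the set of closed ideals is countably infinite if every nonzero closed ideal contains `K` -/
theorem RadAlgK.main {M : ℝ} {K : TwoSidedIdeal R} {S : R} (h : RadAlgK 𝕜 M K S)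
    (hmin : ∀ I : TwoSidedIdeal R, IsClosed {x : R | x ∈ I} → (∃ x ∈ I, x ≠ 0) →
      ∀ x ∈ K, x ∈ I) :
    Cardinal.mk {I : TwoSidedIdeal R // IsClosed {x : R | x ∈ I}} = Cardinal.aleph0 := by
  have hinf : Infinite {I : TwoSidedIdeal R // IsClosed {x : R | x ∈ I}} := by
    choose J hJc hJ1 hJ2 using fun k => h.exist k
    refine Infinite.of_injective (fun k : ℕ => (⟨J k, hJc k⟩ :
      {I : TwoSidedIdeal R // IsClosed {x : R | x ∈ I}})) ?_
    intro a b hab
    have hab' : J a = J b := congrArg Subtype.val hab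
    rcases lt_trichotomy a b with hlt | heq | hgt
    · exact absurd (hab' ▸ hJ1 a) (hJ2 b a hlt)
    · exact heq
    · exact absurd (hab' ▸ hJ1 b) (hJ2 a b hgt)
  have hcount : Countable {I : TwoSidedIdeal R // IsClosed {x : R | x ∈ I}} := by
    let Cs : ℕ → Set R := fun k => {x | ∃ (μ : ℕ → 𝕜) (c : R),
      (Summable fun l => ‖μ l‖ * om l) ∧ (∀ l < k, μ l = 0) ∧ c ∈ K ∧
        x = (∑' l, μ l • S ^ l) + c}
    let F : {I : TwoSidedIdeal R // IsClosed {x : R | x ∈ I}} → Set R := fun I => {x | x ∈ I.1}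
    have hF : Function.Injective F := by
      intro I I' hII
      apply Subtype.ext
      ext x
      exact Set.ext_iff.mp hII x
    have hrange : Set.range F ⊆ {({0} : Set R), {x | x ∈ K}} ∪ Set.range Cs := by
      rintro _ ⟨⟨I, hI⟩, rfl⟩
      by_cases h0 : ∃ x ∈ I, x ≠ 0
      · have hKI := hmin I hI h0
        by_cases h1 : ∃ x ∈ I, x ∉ K
        · obtain ⟨k, hk⟩ := h.classify I hI hKI h1
          right
          exact ⟨k, Set.ext fun x => (hk x).symm⟩
        · push Not at h1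
          left; right
          exact Set.ext fun x => ⟨fun hx => h1 x hx, fun hx => hKI x hx⟩
      · push Not at h0
        left; left
        refine Set.ext fun x => ⟨fun hx => h0 x hx, ?_⟩
        rintro rfl
        exact I.zero_mem
    have hc : (Set.range F).Countable :=
      Set.Countable.mono hrange (((Set.finite_singleton _).insert _).countable.union
        (Set.countable_range Cs))
    have := hc.to_subtype
    exact (Equiv.ofInjective F hF).injective.countable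
  exact Cardinal.mk_eq_aleph0 _

end Pool.Agent.MP0d518c
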