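import Pool.Agent.Lib.MP_0d518c_an.AK4

/-! The order of the closed ideals over `𝕜 = ℝ` or `ℂ`: they are `{0}`, `K` and a strictly
decreasing sequence. -/

namespace Pool.Agent.MP0d518c

open Finset Filter Topology

variable {𝕜 : Type} [RCLike 𝕜] {R : Type} [NormedRing R] [NormedAlgebra 𝕜 R] [CompleteSpace R]

private theorem AK5_single_summable (k : ℕ) :
    Summable fun l => ‖(Pi.single k (1 : 𝕜) : ℕ → 𝕜) l‖ * om l := by
  apply summable_of_ne_finset_zero (s := {k})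
  intro i hi
  rw [Finset.mem_singleton] at hi
  rw [Pi.single_eq_of_ne hi, norm_zero, zero_mul]

private theorem AK5_single_tsum (S : R) (l : ℕ) :
    ∑' i, (Pi.single l (1 : 𝕜) : ℕ → 𝕜) i • S ^ i = S ^ l := by
  rw [tsum_eq_single l]
  · rw [Pi.single_eq_same, one_smul]
  · intro i hi
    rw [Pi.single_eq_of_ne hi, zero_smul]

/-- powers of `S` are not in `K` -/
theorem RadAlgK.pow_notMem {M : ℝ} {K : TwoSidedIdeal R} {S : R} (h : RadAlgK 𝕜 M K S) (k : ℕ) :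
    S ^ k ∉ K := by
  intro hk
  have h1 := h.coef_zero (AK5_single_summable (𝕜 := 𝕜) k)
    (by rw [AK5_single_tsum]; exact hk) k
  rw [Pi.single_eq_same] at h1
  exact one_ne_zero h1

/-- uniqueness of the coefficients -/
theorem RadAlgK.rep_unique {M : ℝ} {K : TwoSidedIdeal R} {S : R} (h : RadAlgK 𝕜 M K S) (V : R) :
    ∃! μ : ℕ → 𝕜, (Summable fun l => ‖μ l‖ * om l) ∧ V - ∑' l, μ l • S ^ l ∈ K := by
  obtain ⟨μ, hμ, hK⟩ := h.rep V
  refine ⟨μ, ⟨hμ, hK⟩, ?_⟩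
  rintro ν ⟨hν, hνK⟩
  have hd : Summable fun l => ‖ν l - μ l‖ * om l := by
    apply Summable.of_nonneg_of_le _ _ (hν.add hμ)
    · intro l
      exact mul_nonneg (norm_nonneg _) (om_pos l).le
    · intro l
      rw [← add_mul]
      exact mul_le_mul_of_nonneg_right (norm_sub_le _ _) (om_pos l).le
  have h1 : ∑' l, (ν l - μ l) • S ^ l = ∑' l, ν l • S ^ l - ∑' l, μ l • S ^ l := by
    rw [← (summableK h.pow_le hν).tsum_sub (summableK h.pow_le hμ)]
    exact tsum_congr fun l => sub_smul _ _ _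
  have h2 : (∑' l, (ν l - μ l) • S ^ l) ∈ K := by
    have h3 : (∑' l, (ν l - μ l) • S ^ l) =
        (V - ∑' l, μ l • S ^ l) - (V - ∑' l, ν l • S ^ l) := by
      rw [h1]; abel
    rw [h3]
    exact K.sub_mem hK hνK
  funext l
  exact sub_eq_zero.1 (h.coef_zero hd h2 l)

/-- the ideals `I_k`, with their description -/
theorem RadAlgK.exist_desc {M : ℝ} {K : TwoSidedIdeal R} {S : R} (h : RadAlgK 𝕜 M K S)
    (hmin : ∀ I : TwoSidedIdeal R, IsClosed {x : R | x ∈ I} → (∃ x ∈ I, x ≠ 0) →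
      ∀ x ∈ K, x ∈ I) (k : ℕ) :
    ∃ I : TwoSidedIdeal R, IsClosed {x : R | x ∈ I} ∧ S ^ k ∈ I ∧ (∀ l < k, S ^ l ∉ I) ∧
      ∀ x : R, x ∈ I ↔ ∃ (μ : ℕ → 𝕜) (c : R), (Summable fun l => ‖μ l‖ * om l) ∧
        (∀ l < k, μ l = 0) ∧ c ∈ K ∧ x = (∑' l, μ l • S ^ l) + c := by
  obtain ⟨I, hc, hk, hl⟩ := h.exist k
  have hne : S ^ k ≠ 0 := by
    intro h0
    exact h.pow_notMem k (by rw [h0]; exact K.zero_mem)
  obtain ⟨k', hk'⟩ := h.classify I hc (hmin I hc ⟨_, hk, hne⟩) ⟨_, hk, h.pow_notMem k⟩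
  have e : k' = k := by
    rcases lt_trichotomy k' k with h1 | h1 | h1
    · exfalso
      apply hl k' h1
      rw [hk']
      refine ⟨Pi.single k' 1, 0, AK5_single_summable k', ?_, K.zero_mem, ?_⟩
      · intro l hl'
        exact Pi.single_eq_of_ne (by omega) _
      · rw [AK5_single_tsum, add_zero]
    · exact h1
    · exfalso
      obtain ⟨μ, c, hμ, h0, hcK, hx⟩ := (hk' _).1 hk
      have h2 := (h.rep_unique (S ^ k)).unique (y₁ := μ) (y₂ := Pi.single k 1)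
        ⟨hμ, by rw [hx, add_sub_cancel_left]; exact hcK⟩
        ⟨AK5_single_summable k, by rw [AK5_single_tsum, sub_self]; exact K.zero_mem⟩
      have h3 := h0 k h1
      rw [h2, Pi.single_eq_same] at h3
      exact one_ne_zero h3
  subst e
  exact ⟨I, hc, hk, hl, hk'⟩

/-- the chain of the closed ideals -/
theorem RadAlgK.chain {M : ℝ} {K : TwoSidedIdeal R} {S : R} (h : RadAlgK 𝕜 M K S)
    (hKne : ∃ x ∈ K, x ≠ 0)
    (hmin : ∀ I : TwoSidedIdeal R, IsClosed {x : R | x ∈ I} → (∃ x ∈ I, x ≠ 0) →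
      ∀ x ∈ K, x ∈ I) :
    ∃ I : ℕ → TwoSidedIdeal R,
      (∀ k x, x ∈ I k ↔ ∃ μ : ℕ → 𝕜, (Summable fun l => ‖μ l‖ * om l) ∧ (∀ l < k, μ l = 0) ∧
        x - ∑' l, μ l • S ^ l ∈ K) ∧
      ⊥ < K ∧ (∀ k, K < I k) ∧ (∀ k, I (k + 1) < I k) ∧ I 0 = ⊤ ∧
      ∀ J : TwoSidedIdeal R, IsClosed {x : R | x ∈ J} ↔ J = ⊥ ∨ J = K ∨ ∃ k, J = I k := by
  classical
  choose J hJc hJk hJl hJ using fun k => h.exist_desc hmin k
  have hKJ : ∀ k, ∀ x ∈ K, x ∈ J k := by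
    intro k x hx
    refine (hJ k x).2 ⟨fun _ => 0, x, ?_, fun _ _ => rfl, hx, ?_⟩
    · simp only [norm_zero, zero_mul]
      exact summable_zero
    · simp only [zero_smul, tsum_zero, zero_add]
  have hlt : ∀ I I' : TwoSidedIdeal R, (∀ x ∈ I, x ∈ I') → (∃ x ∈ I', x ∉ I) → I < I' := by
    intro I I' h1 h2
    rw [lt_iff_le_not_ge]
    refine ⟨fun x hx => h1 x hx, fun h3 => ?_⟩
    obtain ⟨x, hx, hx'⟩ := h2
    exact hx' (h3 hx)
  refine ⟨J, ?_, ?_, ?_, ?_, ?_, ?_⟩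
  · intro k x
    rw [hJ]
    constructor
    · rintro ⟨μ, c, hμ, h0, hcK, hx⟩
      exact ⟨μ, hμ, h0, by rw [hx, add_sub_cancel_left]; exact hcK⟩
    · rintro ⟨μ, hμ, h0, hK⟩
      exact ⟨μ, x - ∑' l, μ l • S ^ l, hμ, h0, hK, by abel⟩
  · obtain ⟨x, hx, hx0⟩ := hKne
    refine hlt _ _ (fun y hy => ?_) ⟨x, hx, fun h1 => hx0 ((TwoSidedIdeal.mem_bot _).1 h1)⟩
    have h1 : y = 0 := (TwoSidedIdeal.mem_bot _).1 hy
    rw [h1]
    exact K.zero_mem
  · intro k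
    exact hlt _ _ (hKJ k) ⟨S ^ k, hJk k, h.pow_notMem k⟩
  · intro k
    refine hlt _ _ (fun x hx => ?_) ⟨S ^ k, hJk k, hJl (k + 1) k (Nat.lt_succ_self k)⟩
    obtain ⟨μ, c, hμ, h0, hcK, hx'⟩ := (hJ _ x).1 hx
    exact (hJ _ x).2 ⟨μ, c, hμ, fun i hi => h0 i (hi.trans (Nat.lt_succ_self k)), hcK, hx'⟩
  · have h1 : (1 : R) ∈ J 0 := by
      have := hJk 0
      rwa [pow_zero] at this
    rw [eq_top_iff]
    intro x _
    have h2 := (J 0).mul_mem_left x 1 h1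
    rwa [mul_one] at h2
  · intro I
    constructor
    · intro hI
      by_cases h0 : ∃ x ∈ I, x ≠ 0
      · have hKI := hmin I hI h0
        by_cases h1 : ∃ x ∈ I, x ∉ K
        · obtain ⟨k, hk⟩ := h.classify I hI hKI h1
          refine Or.inr (Or.inr ⟨k, ?_⟩)
          ext x
          rw [hJ, hk]
        · push Not at h1
          refine Or.inr (Or.inl ?_)
          ext x
          exact ⟨h1 x, hKI x⟩
      · push Not at h0
        refine Or.inl ?_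
        ext x
        rw [TwoSidedIdeal.mem_bot]
        exact ⟨h0 x, fun hx => by rw [hx]; exact I.zero_mem⟩
    · rintro (rfl | rfl | ⟨k, rfl⟩)
      · have h1 : {x : R | x ∈ (⊥ : TwoSidedIdeal R)} = {0} := by
          ext x
          exact TwoSidedIdeal.mem_bot _
        rw [h1]
        exact isClosed_singleton
      · exact h.closed
      · exact hJc k

end Pool.Agent.MP0d518c
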