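import Pool.Agent.Lib.MP_0d518c_an.Basic

/-! Task R2: rational approximation. -/

namespace Pool.Agent.MP0d518c

open Finset Filter Topology

variable {T X : Type} [NormedAddCommGroup X] [NormedSpace ℝ X] (A : AHData T X)

namespace AHData

theorem R2_choice {η : ℝ} (hη : 0 < η) (y : ℝ) :
    ∃ r : ℚ, |(r : ℝ)| ≤ |y| / 2 ∧ |(r : ℝ) - y / 2| ≤ η := by
  have pos : ∀ y : ℝ, 0 < y → ∃ r : ℚ, |(r : ℝ)| ≤ |y| / 2 ∧ |(r : ℝ) - y / 2| ≤ η := by
    intro y hy
    obtain ⟨r, hr1, hr2⟩ := exists_rat_btwn (show max 0 (y / 2 - η) < y / 2 from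
      max_lt (by linarith) (by linarith))
    have h0 : (0 : ℝ) < r := lt_of_le_of_lt (le_max_left _ _) hr1
    have h1 : y / 2 - η < r := lt_of_le_of_lt (le_max_right _ _) hr1
    refine ⟨r, ?_, ?_⟩
    · rw [abs_of_pos h0, abs_of_pos hy]; exact hr2.le
    · rw [abs_le]; constructor <;> linarith
  rcases lt_trichotomy y 0 with hy | hy | hy
  · obtain ⟨r, h1, h2⟩ := pos (-y) (by linarith)
    refine ⟨-r, ?_, ?_⟩
    · rw [abs_neg] at h1
      push_cast
      rwa [abs_neg]
    · push_cast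
      rw [← abs_neg]
      have : -(-(r : ℝ) - y / 2) = r - -y / 2 := by ring
      rwa [this]
  · exact ⟨0, by simp [hy], by simp [hy, hη.le]⟩
  · exact pos y hy

/-- rational approximation of `b / 2` -/
theorem rat_approx (b : T × ℕ →₀ ℝ) (hb : ∑ q ∈ b.support, |b q| ≤ 2) {ε : ℝ} (hε : 0 < ε) :
    ∃ b' : T × ℕ →₀ ℝ, (∀ q, ∃ r : ℚ, (r : ℝ) = b' q) ∧ ∑ q ∈ b'.support, |b' q| ≤ 1 ∧
      ∀ x, |A.pair b' x - A.pair b x / 2| ≤ ε * ‖x‖ := by
  classical
  have hη : 0 < ε / (b.support.card + 1) := by positivity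
  choose g hg1 hg2 using fun y : ℝ => R2_choice hη y
  have hg0 : ((g 0 : ℚ) : ℝ) = 0 := by
    have := hg1 0
    simp only [abs_zero, zero_div] at this
    exact abs_eq_zero.1 (le_antisymm this (abs_nonneg _))
  set b' : T × ℕ →₀ ℝ := b.mapRange (fun y => ((g y : ℚ) : ℝ)) hg0 with hb'
  have hb'q : ∀ q, b' q = ((g (b q) : ℚ) : ℝ) := fun q => by rw [hb', Finsupp.mapRange_apply]
  have hsub : b'.support ⊆ b.support := Finsupp.support_mapRange
  refine ⟨b', fun q => ⟨g (b q), (hb'q q).symm⟩, ?_, ?_⟩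
  · calc ∑ q ∈ b'.support, |b' q| ≤ ∑ q ∈ b.support, |b' q| :=
          Finset.sum_le_sum_of_subset_of_nonneg hsub (fun _ _ _ => abs_nonneg _)
      _ ≤ ∑ q ∈ b.support, |b q| / 2 := by
          apply Finset.sum_le_sum
          intro q _
          rw [hb'q]; exact hg1 _
      _ = (∑ q ∈ b.support, |b q|) / 2 := by rw [Finset.sum_div]
      _ ≤ 1 := by linarith
  · intro x
    have e1 : A.pair b' x = ∑ q ∈ b.support, b' q * A.ev q x := by
      unfold AHData.pair
      apply Finset.sum_subset hsub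
      intro q _ hq
      rw [Finsupp.notMem_support_iff.1 hq, zero_mul]
    have e2 : A.pair b' x - A.pair b x / 2 =
        ∑ q ∈ b.support, (b' q - b q / 2) * A.ev q x := by
      rw [e1]
      unfold AHData.pair
      rw [Finset.sum_div, ← Finset.sum_sub_distrib]
      apply Finset.sum_congr rfl
      intro q _
      ring
    rw [e2]
    calc |∑ q ∈ b.support, (b' q - b q / 2) * A.ev q x| ≤
        ∑ q ∈ b.support, |(b' q - b q / 2) * A.ev q x| := Finset.abs_sum_le_sum_abs _ _
      _ ≤ ∑ q ∈ b.support, ε / (b.support.card + 1) * ‖x‖ := by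
          apply Finset.sum_le_sum
          intro q _
          rw [abs_mul]
          have := hg2 (b q)
          rw [← hb'q] at this
          exact mul_le_mul this (A.ev_le q x) (abs_nonneg _) hη.le
      _ = (b.support.card : ℝ) * (ε / (b.support.card + 1)) * ‖x‖ := by
          rw [Finset.sum_const, nsmul_eq_mul]; ring
      _ ≤ ε * ‖x‖ := by
          apply mul_le_mul_of_nonneg_right _ (norm_nonneg _)
          rw [mul_div_assoc', div_le_iff₀ (by positivity)]
          nlinarith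

end AHData

end Pool.Agent.MP0d518c
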