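import Pool.Agent.Lib.MP_0d518c_an.R1

/-! Task R3: weakly null sequences, separability. -/

namespace Pool.Agent.MP0d518c

open Finset Filter Topology

variable {T X : Type} [NormedAddCommGroup X] [NormedSpace ℝ X] (A : AHData T X)

namespace AHData

/-- for an operator `V` and a weakly null sequence, `Q p (V x_k) → 0` -/
theorem Q_tendsto_zero {x : ℕ → X} (hx : ∀ φ : X →L[ℝ] ℝ, Tendsto (fun k => φ (x k)) atTop (𝓝 0))
    (V : X →L[ℝ] X) (p : ℕ) : Tendsto (fun k => A.Q p (V (x k))) atTop (𝓝 0) := by
  obtain ⟨F, v, _, _, _, _, hF⟩ := exists_dual A p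
  have h1 : (fun k => A.Q p (V (x k))) = fun k => ∑ q ∈ F, A.ev q (V (x k)) • v q := by
    funext k
    exact hF _
  rw [h1]
  have h2 : (0 : X) = ∑ q ∈ F, (0 : ℝ) • v q := by simp
  rw [h2]
  refine tendsto_finsetSum _ fun q _ => ?_
  exact (hx ((A.ev q).comp V)).smul_const (v q)

/-- the space is separable -/
theorem separable {T X : Type} [NormedAddCommGroup X] [NormedSpace ℝ X] (A : AHData T X) :
    TopologicalSpace.SeparableSpace X := by
  choose F v h1 h2 h3 h4 h5 using exists_dual A
  rw [← TopologicalSpace.isSeparable_univ_iff]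
  have hc : (⋃ n, v n '' (F n : Set (T × ℕ))).Countable :=
    Set.countable_iUnion fun n => ((F n).finite_toSet.image (v n)).countable
  have hs : TopologicalSpace.IsSeparable
      (closure (Submodule.span ℝ (⋃ n, v n '' (F n : Set (T × ℕ))) : Set X)) :=
    (hc.isSeparable.span).closure
  refine hs.mono ?_
  intro x _
  refine mem_closure_of_tendsto (A.Q_tendsto x) (Filter.Eventually.of_forall fun n => ?_)
  rw [h5 n x]
  refine Submodule.sum_mem _ fun q hq => Submodule.smul_mem _ _ (Submodule.subset_span ?_)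
  exact Set.mem_iUnion.2 ⟨n, q, hq, rfl⟩

end AHData

end Pool.Agent.MP0d518c
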