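import Pool.Agent.Lib.MP_0d518c_an.R1

/-! Task R4: compact operators. -/

namespace Pool.Agent.MP0d518c

open Finset Filter Topology

variable {T X : Type} [NormedAddCommGroup X] [NormedSpace ℝ X] (A : AHData T X)

namespace AHData

/-- compact operators: weakly null sequences are mapped to norm null ones -/
theorem compact_weak_null {T X : Type} [NormedAddCommGroup X] [NormedSpace ℝ X]
    (A : AHData T X) {K : X →L[ℝ] X} (hK : IsCompactOperator K) {x : ℕ → X} {C : ℝ}
    (hb : ∀ k, ‖x k‖ ≤ C)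
    (hx : ∀ φ : X →L[ℝ] ℝ, Tendsto (fun k => φ (x k)) atTop (𝓝 0)) :
    Tendsto (fun k => K (x k)) atTop (𝓝 0) := by
  have hS : IsCompact (closure (K '' Metric.closedBall 0 C)) :=
    IsCompactOperator.isCompact_closure_image_closedBall (f := (K : X →ₗ[ℝ] X)) hK C
  refine hS.tendsto_nhds_of_unique_mapClusterPt (Eventually.of_forall fun k => ?_) ?_
  · exact subset_closure ⟨x k, by simpa using hb k, rfl⟩
  · intro y _ hy
    refine A.eq_zero_of_ev fun q => ?_
    have h1 : MapClusterPt (A.ev q y) atTop (fun k => A.ev q (K (x k))) :=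
      hy.tendsto_comp (A.ev q).continuous.continuousAt
    have h2 : Tendsto (fun k => A.ev q (K (x k))) atTop (𝓝 0) := hx ((A.ev q).comp K)
    have h3 : ClusterPt (A.ev q y) (𝓝 0) := ClusterPt.mono h1 h2
    have : (𝓝 (A.ev q y) ⊓ 𝓝 (0 : ℝ)).NeBot := h3
    exact eq_of_nhds_neBot this

/-- a compact operator is a limit of `Q n ∘ K` -/
theorem compact_approx {K : X →L[ℝ] X} (hK : IsCompactOperator K) :
    Tendsto (fun n => (A.Q n).comp K) atTop (𝓝 K) := by
  have hS : IsCompact (closure (K '' Metric.closedBall 0 1)) :=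
    IsCompactOperator.isCompact_closure_image_closedBall (f := (K : X →ₗ[ℝ] X)) hK 1
  rw [Metric.tendsto_atTop']
  intro ε hε
  obtain ⟨t, -, htf, ht⟩ := hS.finite_cover_balls (show (0 : ℝ) < ε / 8 by positivity)
  have h1 : ∀ᶠ n in atTop, ∀ c ∈ t, ‖A.Q n c - c‖ < ε / 4 := by
    rw [Filter.eventually_all_finite htf]
    intro c _
    have := (Metric.tendsto_nhds.1 (A.Q_tendsto c)) (ε / 4) (by positivity)
    refine this.mono fun n hn => ?_
    rwa [dist_eq_norm] at hn
  obtain ⟨N, hN⟩ := eventually_atTop.1 h1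
  refine ⟨N, fun n hn => ?_⟩
  rw [dist_eq_norm]
  refine lt_of_le_of_lt (b := ε * (3 / 4)) ?_ (by linarith)
  refine ContinuousLinearMap.opNorm_le_of_unit_norm (by positivity) fun z hz => ?_
  have hKz : K z ∈ closure (K '' Metric.closedBall 0 1) :=
    subset_closure ⟨z, by simp [hz], rfl⟩
  obtain ⟨c, hc, hzc⟩ := Set.mem_iUnion₂.1 (ht hKz)
  rw [Metric.mem_ball, dist_eq_norm] at hzc
  have e : ((A.Q n).comp K - K) z = A.Q n (K z - c) + (A.Q n c - c) + (c - K z) := by
    rw [map_sub]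
    simp only [_root_.sub_apply, ContinuousLinearMap.comp_apply]
    abel
  rw [e]
  have h2 : ‖A.Q n (K z - c)‖ ≤ 2 * ‖K z - c‖ := A.Q_norm n _
  have h3 := hN n hn.le c hc
  have h4 : ‖c - K z‖ = ‖K z - c‖ := norm_sub_rev _ _
  calc ‖A.Q n (K z - c) + (A.Q n c - c) + (c - K z)‖
      ≤ ‖A.Q n (K z - c)‖ + ‖A.Q n c - c‖ + ‖c - K z‖ := norm_add₃_le
    _ ≤ ε * (3 / 4) := by rw [h4]; linarith

/-- `V ∘ Q n` is compact (finite rank) -/
theorem compact_comp_Q (V : X →L[ℝ] X) (n : ℕ) : IsCompactOperator (V.comp (A.Q n)) := by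
  classical
  obtain ⟨F, v, -, -, -, -, hQ⟩ := A.exists_dual n
  let g : (F → ℝ) →L[ℝ] X := ∑ q : F, (ContinuousLinearMap.proj q).smulRight (v q)
  let f : X →L[ℝ] (F → ℝ) := ContinuousLinearMap.pi fun q => A.ev q
  have hg : IsCompactOperator g := isCompactOperator_of_locallyCompactSpace_rng g
  have e : A.Q n = g.comp f := by
    ext x
    rw [hQ x]
    simp only [g, f, ContinuousLinearMap.comp_apply, ContinuousLinearMap.sum_apply,
      ContinuousLinearMap.smulRight_apply, ContinuousLinearMap.proj_apply,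
      ContinuousLinearMap.pi_apply]
    exact (Finset.sum_coe_sort F (fun q => A.ev q x • v q)).symm
  rw [e]
  exact (hg.comp_clm f).clm_comp V

end AHData

end Pool.Agent.MP0d518c
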