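import Pool.Agent.Lib.MP_0d518c_an.KDefs
import Pool.Agent.Lib.MP_0d518c_an.K2
import Pool.Agent.Lib.MP_0d518c_an.Rep

/-! Task K5: the ideal of compact operators of `KX 𝕜 X` and its minimality. -/

namespace Pool.Agent.MP0d518c

open Finset Filter Topology

/-- the ideal of compact operators -/
theorem exists_compactIdealK {𝕜 Y : Type} [RCLike 𝕜] [NormedAddCommGroup Y] [NormedSpace 𝕜 Y]
    [CompleteSpace Y] : ∃ K : TwoSidedIdeal (Y →L[𝕜] Y),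
    ∀ V : Y →L[𝕜] Y, V ∈ K ↔ IsCompactOperator V := by
  refine ⟨TwoSidedIdeal.mk' {V : Y →L[𝕜] Y | IsCompactOperator V} ?_ ?_ ?_ ?_ ?_, ?_⟩
  · exact isCompactOperator_zero
  · intro x y hx hy
    exact IsCompactOperator.add hx hy
  · intro x hx
    exact IsCompactOperator.neg hx
  · intro x y hy
    exact IsCompactOperator.clm_comp (f := (y : Y → Y)) hy x
  · intro x y hx
    exact IsCompactOperator.comp_clm (f := (x : Y → Y)) hx y
  · intro V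
    rw [TwoSidedIdeal.mem_mk']
    exact Iff.rfl

private theorem K5_norm_I_le {𝕜 : Type} [RCLike 𝕜] : ‖(RCLike.I : 𝕜)‖ ≤ 1 := by
  rcases RCLike.I_eq_zero_or_im_I_eq_one (K := 𝕜) with h | h
  · rw [h, norm_zero]; exact zero_le_one
  · have h5 : (RCLike.I : 𝕜) ≠ 0 := by
      intro h6; rw [h6] at h; simp at h
    exact (RCLike.norm_I_of_ne_zero h5).le

private theorem K5_io_jv {𝕜 X : Type} [RCLike 𝕜] [NormedAddCommGroup X] [NormedSpace ℝ X]
    (B : X →L[ℝ] X) (x : X) : (KX.io B : KX 𝕜 X →L[𝕜] KX 𝕜 X) (KX.jv x) = KX.jv (B x) := by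
  apply KX.ext'
  intro z
  rw [KX.io_fn, KX.jv_fn, KX.jv_fn, map_smul]

private theorem K5_io_sub_le {𝕜 X : Type} [RCLike 𝕜] [NormedAddCommGroup X] [NormedSpace ℝ X]
    (B : X →L[ℝ] X) (f : KX 𝕜 X) :
    ‖(KX.io B : KX 𝕜 X →L[𝕜] KX 𝕜 X) f - f‖ ≤
      ‖B (f.fn 1) - f.fn 1‖ + ‖B (-(f.fn RCLike.I)) - (-(f.fn RCLike.I))‖ := by
  have e : (KX.io B : KX 𝕜 X →L[𝕜] KX 𝕜 X) f - f = KX.jv (B (f.fn 1) - f.fn 1) +
      (RCLike.I : 𝕜) • KX.jv (B (-(f.fn RCLike.I)) - (-(f.fn RCLike.I))) := by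
    have hjs : ∀ x y : X, (KX.jv (x - y) : KX 𝕜 X) = KX.jv x - KX.jv y := by
      intro x y
      apply KX.ext'
      intro z
      rw [KX.fn_sub, _root_.sub_apply, KX.jv_fn, KX.jv_fn, KX.jv_fn, smul_sub]
    have h1 : (KX.io B : KX 𝕜 X →L[𝕜] KX 𝕜 X) f = KX.jv (B (f.fn 1)) +
        (RCLike.I : 𝕜) • KX.jv (B (-(f.fn RCLike.I))) := by
      conv_lhs => rw [KX.eq_jv f]
      rw [map_add, map_smul, K5_io_jv, K5_io_jv]
    rw [h1, hjs, hjs, smul_sub]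
    conv_lhs => rw [KX.eq_jv f]
    have h2 : ∀ (a b c d : KX 𝕜 X), a + b - (c + d) = a - c + (b - d) := by
      intro a b c d
      abel
    have h3 := KX.eq_jv f
    rw [← h3]
    rw [← h2, ← h3]
  rw [e]
  refine (norm_add_le _ _).trans (add_le_add (KX.norm_jv_le _) ?_)
  rw [norm_smul]
  calc ‖(RCLike.I : 𝕜)‖ * ‖(KX.jv (B (-(f.fn RCLike.I)) - (-(f.fn RCLike.I))) : KX 𝕜 X)‖
      ≤ 1 * ‖B (-(f.fn RCLike.I)) - (-(f.fn RCLike.I))‖ :=
        mul_le_mul K5_norm_I_le (KX.norm_jv_le _) (norm_nonneg _) zero_le_one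
    _ = _ := one_mul _

private theorem K5_opNorm_le {𝕜 Y : Type} [RCLike 𝕜] [NormedAddCommGroup Y] [NormedSpace 𝕜 Y]
    (U : Y →L[𝕜] Y) {C : ℝ} (hC : 0 ≤ C) (h : ∀ x, ‖x‖ = 1 → ‖U x‖ ≤ C) : ‖U‖ ≤ C := by
  refine ContinuousLinearMap.opNorm_le_bound _ hC fun x => ?_
  by_cases hx : x = 0
  · subst hx; simp
  · have h1 := h ((‖x‖⁻¹ : 𝕜) • x) (norm_smul_inv_norm hx)
    rw [map_smul, norm_smul] at h1
    have h2 : ‖(‖x‖⁻¹ : 𝕜)‖ = ‖x‖⁻¹ := by
      rw [norm_inv, RCLike.norm_ofReal, abs_norm]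
    rw [h2] at h1
    have h3 : 0 < ‖x‖ := norm_pos_iff.2 hx
    rwa [inv_mul_le_iff₀ h3, mul_comm] at h1

/-- a compact operator of `KX 𝕜 X` is a limit of `io (Q n) ∘ K` -/
theorem compact_approxK {𝕜 T X : Type} [RCLike 𝕜] [NormedAddCommGroup X] [NormedSpace ℝ X]
    [CompleteSpace X] (A : AHData T X) {K : KX 𝕜 X →L[𝕜] KX 𝕜 X} (hK : IsCompactOperator K) :
    Tendsto (fun n => (KX.io (A.Q n) : KX 𝕜 X →L[𝕜] KX 𝕜 X).comp K) atTop (𝓝 K) := by
  have hQn : ∀ n, ‖A.Q n‖ ≤ 2 := fun n =>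
    ContinuousLinearMap.opNorm_le_bound _ (by norm_num) (A.Q_norm n)
  have hio : ∀ n (f : KX 𝕜 X), ‖(KX.io (A.Q n) : KX 𝕜 X →L[𝕜] KX 𝕜 X) f‖ ≤ 2 * ‖f‖ := by
    intro n f
    refine (ContinuousLinearMap.le_opNorm _ _).trans ?_
    exact mul_le_mul_of_nonneg_right ((KX.norm_io_le _).trans (hQn n)) (norm_nonneg _)
  have hpt : ∀ f : KX 𝕜 X,
      Tendsto (fun n => ‖(KX.io (A.Q n) : KX 𝕜 X →L[𝕜] KX 𝕜 X) f - f‖) atTop (𝓝 0) := by
    intro f
    have h1 : ∀ x : X, Tendsto (fun n => ‖A.Q n x - x‖) atTop (𝓝 0) := by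
      intro x
      have := ((A.Q_tendsto x).sub_const x).norm
      rwa [sub_self, norm_zero] at this
    have h2 := (h1 (f.fn 1)).add (h1 (-(f.fn RCLike.I)))
    rw [add_zero] at h2
    exact squeeze_zero (fun n => norm_nonneg _) (fun n => K5_io_sub_le _ _) h2
  have hS : IsCompact (closure (K '' Metric.closedBall 0 1)) :=
    IsCompactOperator.isCompact_closure_image_closedBall (f := (K : KX 𝕜 X →ₗ[𝕜] KX 𝕜 X)) hK 1
  rw [Metric.tendsto_atTop']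
  intro ε hε
  obtain ⟨t, -, htf, ht⟩ := hS.finite_cover_balls (show (0 : ℝ) < ε / 8 by positivity)
  have h1 : ∀ᶠ n in atTop, ∀ c ∈ t,
      ‖(KX.io (A.Q n) : KX 𝕜 X →L[𝕜] KX 𝕜 X) c - c‖ < ε / 4 := by
    rw [Filter.eventually_all_finite htf]
    intro c _
    exact (hpt c).eventually_lt_const (by positivity)
  obtain ⟨N, hN⟩ := eventually_atTop.1 h1
  refine ⟨N, fun n hn => ?_⟩
  rw [dist_eq_norm]
  refine lt_of_le_of_lt (b := ε * (3 / 4)) ?_ (by linarith)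
  refine K5_opNorm_le _ (by positivity) fun z hz => ?_
  have hKz : K z ∈ closure (K '' Metric.closedBall 0 1) :=
    subset_closure ⟨z, by simp [hz], rfl⟩
  obtain ⟨c, hc, hzc⟩ := Set.mem_iUnion₂.1 (ht hKz)
  rw [Metric.mem_ball, dist_eq_norm] at hzc
  have e : ((KX.io (A.Q n) : KX 𝕜 X →L[𝕜] KX 𝕜 X).comp K - K) z =
      (KX.io (A.Q n) : KX 𝕜 X →L[𝕜] KX 𝕜 X) (K z - c) +
      ((KX.io (A.Q n) : KX 𝕜 X →L[𝕜] KX 𝕜 X) c - c) + (c - K z) := by
    rw [map_sub, _root_.sub_apply, ContinuousLinearMap.comp_apply]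
    abel
  rw [e]
  have h2 : ‖(KX.io (A.Q n) : KX 𝕜 X →L[𝕜] KX 𝕜 X) (K z - c)‖ ≤ 2 * ‖K z - c‖ := hio n _
  have h3 := hN n hn.le c hc
  have h4 : ‖c - K z‖ = ‖K z - c‖ := norm_sub_rev _ _
  refine norm_add₃_le.trans ?_
  rw [h4]
  linarith

/-- the 𝕜-linear functional with real part `ev q (f 1)` -/
private theorem K5_exists_phi {𝕜 X : Type} [RCLike 𝕜] [NormedAddCommGroup X] [NormedSpace ℝ X]
    (e : X →L[ℝ] ℝ) : ∃ φ : KX 𝕜 X →L[𝕜] 𝕜, ∀ (f : KX 𝕜 X) (z : 𝕜),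
      RCLike.re (φ f * z) = e (f.fn z) := by
  have hfn : ∀ (f : KX 𝕜 X) (z : 𝕜),
      e (f.fn z) = RCLike.re z * e (f.fn 1) + RCLike.im z * e (f.fn RCLike.I) := by
    intro f z
    have h1 : z = RCLike.re z • (1 : 𝕜) + RCLike.im z • (RCLike.I : 𝕜) := by
      rw [RCLike.real_smul_eq_coe_mul, RCLike.real_smul_eq_coe_mul, mul_one, RCLike.re_add_im]
    conv_lhs => rw [h1]
    rw [map_add, map_smul, map_smul, map_add, map_smul, map_smul, smul_eq_mul, smul_eq_mul]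
  have hre2 : ∀ (a b : ℝ) (z : 𝕜), RCLike.re (((a : 𝕜) - RCLike.I * (b : 𝕜)) * z) =
      RCLike.re z * a + RCLike.im z * b := by
    intro a b z
    rw [sub_mul, map_sub, RCLike.re_ofReal_mul, mul_assoc, RCLike.I_mul_re,
      RCLike.im_ofReal_mul]
    ring
  have hinj : ∀ w w' : 𝕜, (∀ z : 𝕜, RCLike.re (w * z) = RCLike.re (w' * z)) → w = w' := by
    intro w w' h
    apply RCLike.ext
    · simpa using h 1
    · have := h RCLike.I
      rwa [mul_comm, RCLike.I_mul_re, mul_comm, RCLike.I_mul_re, neg_inj] at this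
  let φ0 : KX 𝕜 X → 𝕜 := fun f => (e (f.fn 1) : 𝕜) - RCLike.I * (e (f.fn RCLike.I) : 𝕜)
  have hφ0 : ∀ (f : KX 𝕜 X) (z : 𝕜), RCLike.re (φ0 f * z) = e (f.fn z) := by
    intro f z
    rw [hfn, ← hre2]
  refine ⟨LinearMap.mkContinuous
    { toFun := φ0
      map_add' := fun f g => ?_
      map_smul' := fun c f => ?_ } (2 * ‖e‖) ?_, ?_⟩
  · apply hinj
    intro z
    rw [hφ0, add_mul, map_add, hφ0, hφ0, KX.fn_add, _root_.add_apply, map_add]
  · apply hinj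
    intro z
    have h1 : (RingHom.id 𝕜) c • φ0 f * z = φ0 f * (c * z) := by
      rw [RingHom.id_apply, smul_eq_mul]; ring
    rw [h1, hφ0, hφ0, KX.smul_fn]
  · intro f
    change ‖(e (f.fn 1) : 𝕜) - RCLike.I * (e (f.fn RCLike.I) : 𝕜)‖ ≤ _
    have h1 : ‖e (f.fn 1)‖ ≤ ‖e‖ * ‖f‖ := by
      refine (e.le_opNorm _).trans (mul_le_mul_of_nonneg_left ?_ (norm_nonneg _))
      have := f.fn.le_opNorm (1 : 𝕜)
      rwa [norm_one, mul_one, KX.norm_fn] at this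
    have h2 : ‖e (f.fn RCLike.I)‖ ≤ ‖e‖ * ‖f‖ := by
      refine (e.le_opNorm _).trans (mul_le_mul_of_nonneg_left ?_ (norm_nonneg _))
      have := f.fn.le_opNorm (RCLike.I : 𝕜)
      rw [KX.norm_fn] at this
      refine this.trans ?_
      calc ‖f‖ * ‖(RCLike.I : 𝕜)‖ ≤ ‖f‖ * 1 :=
            mul_le_mul_of_nonneg_left K5_norm_I_le (norm_nonneg _)
        _ = ‖f‖ := mul_one _
    refine (norm_sub_le _ _).trans ?_
    rw [norm_mul, RCLike.norm_ofReal, RCLike.norm_ofReal]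
    rw [Real.norm_eq_abs] at h1 h2
    have h3 : ‖(RCLike.I : 𝕜)‖ * |e (f.fn RCLike.I)| ≤ 1 * (‖e‖ * ‖f‖) :=
      mul_le_mul K5_norm_I_le h2 (abs_nonneg _) zero_le_one
    linarith
  · intro f z
    exact hφ0 f z

/-- every nonzero closed ideal contains the compact operators -/
theorem compact_memK {𝕜 T X : Type} [RCLike 𝕜] [NormedAddCommGroup X] [NormedSpace ℝ X]
    [CompleteSpace X] (A : AHData T X) (I : TwoSidedIdeal (KX 𝕜 X →L[𝕜] KX 𝕜 X))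
    (hI : IsClosed {V : KX 𝕜 X →L[𝕜] KX 𝕜 X | V ∈ I}) (hne : ∃ V ∈ I, V ≠ 0)
    {K : KX 𝕜 X →L[𝕜] KX 𝕜 X} (hK : IsCompactOperator K) : K ∈ I := by
  classical
  obtain ⟨V, hV, hV0⟩ := hne
  -- a vector and a functional
  obtain ⟨f0, hf0⟩ : ∃ f0, V f0 ≠ 0 := by
    by_contra h
    push Not at h
    exact hV0 (ContinuousLinearMap.ext h)
  obtain ⟨z0, hz0⟩ : ∃ z0, (V f0).fn z0 ≠ 0 := by
    by_contra h
    push Not at h
    exact hf0 (KX.ext' h)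
  obtain ⟨q0, hq0⟩ : ∃ q0, A.ev q0 ((V f0).fn z0) ≠ 0 := by
    by_contra h
    push Not at h
    exact hz0 (A.eq_zero_of_ev h)
  obtain ⟨φ, hφ⟩ := K5_exists_phi (𝕜 := 𝕜) (A.ev q0)
  have hφ0 : φ (V f0) ≠ 0 := by
    intro h
    apply hq0
    rw [← hφ, h, zero_mul, map_zero]
  -- rank one operators
  have hone : ∀ (ψ : KX 𝕜 X →L[𝕜] 𝕜) (g : KX 𝕜 X), ψ.smulRight g ∈ I := by
    intro ψ g
    have h1 : (φ.smulRight ((φ (V f0))⁻¹ • g)) * (V * (ψ.smulRight f0)) ∈ I :=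
      I.mul_mem_left _ _ (I.mul_mem_right _ _ hV)
    have h2 : (φ.smulRight ((φ (V f0))⁻¹ • g)) * (V * (ψ.smulRight f0)) = ψ.smulRight g := by
      apply ContinuousLinearMap.ext
      intro f
      change φ (V (ψ f • f0)) • ((φ (V f0))⁻¹ • g) = ψ f • g
      rw [map_smul, map_smul, smul_eq_mul, smul_smul, mul_assoc, mul_inv_cancel₀ hφ0, mul_one]
    rwa [h2] at h1
  have hcomp : ∀ n, (KX.io (A.Q n) : KX 𝕜 X →L[𝕜] KX 𝕜 X).comp K ∈ I := by
    intro n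
    obtain ⟨F, v, -, -, -, -, hQ⟩ := A.exists_dual n
    choose ψ hψ using fun q : T × ℕ => K5_exists_phi (𝕜 := 𝕜) (A.ev q)
    have e : (KX.io (A.Q n) : KX 𝕜 X →L[𝕜] KX 𝕜 X).comp K =
        ∑ q ∈ F, ((ψ q).comp K).smulRight (KX.jv (v q)) := by
      apply ContinuousLinearMap.ext
      intro f
      rw [_root_.sum_apply]
      have hfs : ∀ (s : Finset (T × ℕ)) (h : T × ℕ → KX 𝕜 X) (z : 𝕜),
          (∑ q ∈ s, h q).fn z = ∑ q ∈ s, (h q).fn z := by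
        intro s h z
        induction s using Finset.induction_on with
        | empty => rfl
        | insert a s ha ih =>
          rw [Finset.sum_insert ha, Finset.sum_insert ha, KX.fn_add, _root_.add_apply, ih]
      apply KX.ext'
      intro z
      rw [hfs, ContinuousLinearMap.comp_apply, KX.io_fn, hQ]
      refine Finset.sum_congr rfl fun q _ => ?_
      rw [ContinuousLinearMap.smulRight_apply, KX.smul_fn, KX.jv_fn,
        ContinuousLinearMap.comp_apply, hψ]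
    rw [e]
    exact Finset.sum_induction _ (fun U => U ∈ I) (fun a b ha hb => I.add_mem ha hb)
      I.zero_mem (fun q _ => hone _ _)
  exact hI.mem_of_tendsto (compact_approxK A hK) (Eventually.of_forall hcomp)

end Pool.Agent.MP0d518c
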