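import Mathlib

/-! Definitions for the statement of the hand-in `SeparableLattice`. -/

namespace Pool.Agent.MP0d518c

/-- `X` has a finite-dimensional decomposition: there are linear maps `P 0, P 1, ...` (the partial
sum projections) of finite rank with `P m (P n x) = P (min m n) x`, `‖P n x‖ ≤ 2 ‖x‖`, and `P n x`
tends to `x` for every `x`. -/
def FDD (𝕜 X : Type) [RCLike 𝕜] [NormedAddCommGroup X] [NormedSpace 𝕜 X] : Prop :=
  ∃ P : ℕ → (X →ₗ[𝕜] X), (∀ n, FiniteDimensional 𝕜 (LinearMap.range (P n))) ∧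
    (∀ m n x, P m (P n x) = P (min m n) x) ∧ (∀ n x, ‖P n x‖ ≤ 2 * ‖x‖) ∧
    ∀ x, Filter.Tendsto (fun n => P n x) Filter.atTop (nhds x)

variable {A : Type} [NormedRing A]

/-- `μ` is a sequence of coefficients of `V` with respect to `S`, modulo the set `K`: the series
`Σ |μ_l| 2^(-l²)` converges and `V - Σ μ_l S^l` is in `K`. -/
def Coef {𝕜 : Type} [NormedField 𝕜] [NormedAlgebra 𝕜 A] (K : Set A) (S V : A) (μ : ℕ → 𝕜) :
    Prop :=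
  (Summable fun l => ‖μ l‖ * (1 / 2 : ℝ) ^ (l ^ 2)) ∧ V - ∑' l, μ l • S ^ l ∈ K

/-- `‖S^l‖ ≤ 2^(-l²)`, every element `V` has exactly one sequence of coefficients `μ`, and then
`Σ |μ_l| 2^(-l²) ≤ 4 ‖V‖`. -/
def SeriesMod (𝕜 : Type) [NormedField 𝕜] [NormedAlgebra 𝕜 A] (K : Set A) (S : A) : Prop :=
  (∀ l : ℕ, ‖S ^ l‖ ≤ (1 / 2 : ℝ) ^ (l ^ 2)) ∧
  (∀ V : A, ∃! μ : ℕ → 𝕜, Coef K S V μ) ∧
  ∀ (V : A) (μ : ℕ → 𝕜), Coef K S V μ → ∑' l, ‖μ l‖ * (1 / 2 : ℝ) ^ (l ^ 2) ≤ 4 * ‖V‖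

/-- The set `K` and, for every `k`, the set of the elements whose coefficients number `0, ..., k-1`
vanish are two-sided ideals `J` and `I k`, `{0} < J < I k`, `I (k + 1) < I k`, `I 0` is everything,
and the closed two-sided ideals of `A` are exactly `{0}`, `J` and the `I k`. -/
def ChainOfClosedIdeals (𝕜 : Type) [NormedField 𝕜] [NormedAlgebra 𝕜 A] (K : Set A) (S : A) :
    Prop :=
  ∃ (J : TwoSidedIdeal A) (I : ℕ → TwoSidedIdeal A),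
    (∀ V, V ∈ J ↔ V ∈ K) ∧
    (∀ k V, V ∈ I k ↔ ∃ μ : ℕ → 𝕜, Coef K S V μ ∧ ∀ l < k, μ l = 0) ∧
    ⊥ < J ∧ (∀ k, J < I k) ∧ (∀ k, I (k + 1) < I k) ∧ I 0 = ⊤ ∧
    ∀ H : TwoSidedIdeal A, IsClosed {V | V ∈ H} ↔ H = ⊥ ∨ H = J ∨ ∃ k, H = I k

end Pool.Agent.MP0d518c
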