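import Pool.Agent.Lib.MP_0d518c_an.SB1

/-! Task SB2: the Banach space. `X` is the closure in `ℓ_∞(T × ℕ)` of the range of `Φ`, i.e. of
the vectors `(pr (E q) x)_q`, `x ∈ T × ℕ →₀ ℝ`. -/

namespace Pool.Agent.MP0d518c

open Finset Filter Topology

namespace SpB

/-- `ℓ_∞(T × ℕ)` -/
abbrev Li (T : Type) := lp (fun _ : T × ℕ => ℝ) ⊤

/-- evaluation functional on `ℓ_∞` -/
noncomputable def evi {T : Type} (q : T × ℕ) : Li T →L[ℝ] ℝ :=
  LinearMap.mkContinuous
    { toFun := fun y => y q
      map_add' := fun x y => by simp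
      map_smul' := fun c x => by simp } 1
    (fun y => by
      have h := lp.norm_apply_le_norm (by simp) y q
      rw [one_mul]
      exact h)

theorem evi_apply {T : Type} (q : T × ℕ) (y : Li T) : evi q y = y q := rfl

variable {T : Type} (D : TreeData T)

theorem pr_sub_left (f g x : T × ℕ →₀ ℝ) :
    TreeData.pr (f - g) x = TreeData.pr f x - TreeData.pr g x := by
  have h : f - g = f + (-1 : ℝ) • g := by
    rw [neg_one_smul]; exact sub_eq_add_neg f g
  rw [h, TreeData.pr_add_left, TreeData.pr_smul_left]; ring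

/-- the space, as a submodule of `ℓ_∞` -/
noncomputable def YY (Φ : (T × ℕ →₀ ℝ) →ₗ[ℝ] Li T) : Submodule ℝ (Li T) :=
  (LinearMap.range Φ).topologicalClosure

theorem mem_YY (Φ : (T × ℕ →₀ ℝ) →ₗ[ℝ] Li T) (x : T × ℕ →₀ ℝ) : Φ x ∈ YY Φ :=
  Submodule.le_topologicalClosure _ (LinearMap.mem_range_self Φ x)

theorem YY_induction {Φ : (T × ℕ →₀ ℝ) →ₗ[ℝ] Li T} {P : Li T → Prop}
    (hc : IsClosed {y | P y}) (h : ∀ x, P (Φ x)) {y : Li T} (hy : y ∈ YY Φ) : P y := by
  have h1 : (YY Φ : Set (Li T)) ⊆ {y | P y} := by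
    have : (YY Φ : Set (Li T)) = closure (LinearMap.range Φ : Set (Li T)) :=
      Submodule.topologicalClosure_coe _
    rw [this]
    apply closure_minimal _ hc
    rintro _ ⟨x, rfl⟩
    exact h x
  exact h1 hy

theorem YY_approx {Φ : (T × ℕ →₀ ℝ) →ₗ[ℝ] Li T} {y : Li T} (hy : y ∈ YY Φ) {ε : ℝ}
    (hε : 0 < ε) : ∃ x, ‖y - Φ x‖ < ε := by
  have h1 : y ∈ closure (LinearMap.range Φ : Set (Li T)) := by
    have := Submodule.topologicalClosure_coe (LinearMap.range Φ)
    rw [← this]; exact hy
  obtain ⟨z, ⟨x, rfl⟩, hz⟩ := Metric.mem_closure_iff.1 h1 ε hε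
  exact ⟨x, by rwa [dist_eq_norm] at hz⟩

end SpB

open SpB in
theorem exists_AHData {T : Type} (D : TreeData T) :
    ∃ (X : Type) (_ : NormedAddCommGroup X) (_ : NormedSpace ℝ X) (_ : CompleteSpace X),
      Nonempty (AHData T X) := by
  classical
  obtain ⟨Φ, hΦ⟩ := D.exists_Phi
  obtain ⟨Si, hSi⟩ := TreeData.exists_Sinf T
  choose Qi hQn hQΦ hQr hQ0 hQev using fun n => D.exists_Qinf hΦ n
  -- the shift maps the range of `Φ` to itself
  have hSΦ : ∀ x, Si (Φ x) = Φ (D.SU x) := by
    intro x
    apply lp.ext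
    funext q
    obtain ⟨τ, k⟩ := q
    rw [hSi, hΦ, hΦ, ← TreeData.pr_Sst, TreeData.Sst_E, TreeData.pr_smul_left]
  have hSY : ∀ y ∈ YY Φ, Si y ∈ YY Φ := by
    intro y hy
    refine YY_induction (P := fun y => Si y ∈ YY Φ) ?_ ?_ hy
    · exact (Submodule.isClosed_topologicalClosure _).preimage Si.continuous
    · intro x; rw [hSΦ]; exact mem_YY Φ _
  have hQY : ∀ n y, Qi n y ∈ YY Φ := by
    intro n y
    obtain ⟨x, -, hx⟩ := hQr n y
    rw [hx]; exact mem_YY Φ _
  let X := YY Φ
  have hcomp : CompleteSpace X :=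
    (Submodule.isClosed_topologicalClosure (LinearMap.range Φ)).completeSpace_coe
  have hdead : ∀ (q : T × ℕ) (y : Li T), y ∈ YY Φ → D.rank q.1 < q.2 → y q = 0 := by
    intro q y hy hq
    refine YY_induction (P := fun y => y q = 0) ?_ ?_ hy
    · have : {y : Li T | y q = 0} = (evi q) ⁻¹' {0} := by
        ext y; simp [evi_apply]
      rw [this]
      exact isClosed_singleton.preimage (evi q).continuous
    · intro x
      rw [hΦ, TreeData.E_dead D hq, TreeData.pr_zero_left]
  let evY : T × ℕ → X →L[ℝ] ℝ := fun q => (evi q).comp (YY Φ).subtypeL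
  let QY : ℕ → X →L[ℝ] X := fun n =>
    ((Qi n).comp (YY Φ).subtypeL).codRestrict (YY Φ) (fun x => hQY n _)
  let SY : X →L[ℝ] X := (Si.comp (YY Φ).subtypeL).codRestrict (YY Φ) (fun x => hSY _ x.2)
  have hevY : ∀ q (x : X), evY q x = (x : Li T) q := fun q x => rfl
  have hQYc : ∀ n (x : X), ((QY n x : X) : Li T) = Qi n (x : Li T) := fun n x => rfl
  have hSYc : ∀ (x : X), ((SY x : X) : Li T) = Si (x : Li T) := fun x => rfl
  have hQQ : ∀ n k (y : Li T), Qi n (Qi k y) = Qi (min n k) y := by
    intro n k y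
    obtain ⟨x, hx, hy⟩ := hQr k y
    have h1 : Qi (min n k) (y - Qi k y) = 0 := by
      apply hQ0
      intro q hq1 hq2
      have := hQev k y q (lt_of_lt_of_le hq1 (min_le_right _ _)) hq2
      simp [this]
    rw [map_sub, sub_eq_zero] at h1
    rw [h1, hy, hQΦ, hQΦ]
    conv_lhs => rw [← hx, TreeData.tr_tr]
  have hexp : ∀ (τ : T) (n : ℕ) (x' : T × ℕ →₀ ℝ), D.tr n x' = x' → n ≤ D.rank τ →
      TreeData.pr (D.E0 τ) x' = ((D.prv τ).elim 0 fun ξ => TreeData.pr (D.E0 ξ) x') +
        ((D.wt τ).elim 0 fun i => (mm i : ℝ)⁻¹ * ∑ q ∈ (D.bb τ).support, D.bb τ q *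
          (TreeData.pr (D.E q) x' - TreeData.pr (D.E q) (D.tr (D.lev τ) x'))) := by
    intro τ n x' hx' hn
    have h0 : x' (τ, 0) = 0 := by
      rw [← hx', TreeData.tr_apply]
      simp only
      rw [if_neg (by omega)]
    rw [D.E0_eq τ, TreeData.pr_add_left, TreeData.pr_add_left, TreeData.pr_single_left, h0]
    have e1 : TreeData.pr ((D.prv τ).elim 0 fun ξ => D.E0 ξ) x' =
        ((D.prv τ).elim 0 fun ξ => TreeData.pr (D.E0 ξ) x') := by
      cases D.prv τ with
      | none => simp [TreeData.pr_zero_left]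
      | some ξ => simp
    have e2 : TreeData.pr ((D.wt τ).elim 0 fun i => (mm i : ℝ)⁻¹ •
        ((∑ q ∈ (D.bb τ).support, D.bb τ q • D.E q) -
          D.tr (D.lev τ) (∑ q ∈ (D.bb τ).support, D.bb τ q • D.E q))) x' =
        ((D.wt τ).elim 0 fun i => (mm i : ℝ)⁻¹ * ∑ q ∈ (D.bb τ).support, D.bb τ q *
          (TreeData.pr (D.E q) x' - TreeData.pr (D.E q) (D.tr (D.lev τ) x'))) := by
      cases D.wt τ with
      | none => simp [TreeData.pr_zero_left]
      | some i =>
        simp only [Option.elim_some]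
        rw [TreeData.pr_smul_left, pr_sub_left, TreeData.pr_tr, TreeData.pr_sum_left,
          TreeData.pr_sum_left, ← Finset.sum_sub_distrib]
        congr 1
        apply Finset.sum_congr rfl
        intro q _
        rw [TreeData.pr_smul_left, TreeData.pr_smul_left]; ring
    rw [e1, e2]; ring
  refine ⟨X, inferInstance, inferInstance, hcomp, ⟨?_⟩⟩
  exact
    { D with
      ev := evY
      Q := QY
      S := SY
      ev_le := by
        intro q x
        rw [hevY]
        have := lp.norm_apply_le_norm (by simp) (x : Li T) q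
        simpa using this
      norm_le := by
        intro x c hc h
        change ‖(x : Li T)‖ ≤ c
        exact lp.norm_le_of_forall_le hc (fun q => by simpa [hevY] using h q)
      ev_dead := by
        intro q x hq
        exact hdead q x x.2 hq
      Q_norm := by
        intro n x
        exact hQn n x
      Q_Q := by
        intro n k x
        apply Subtype.ext
        rw [hQYc, hQYc, hQYc]
        exact hQQ n k x
      Q_tendsto := by
        intro x
        rw [Metric.tendsto_atTop]
        intro ε hε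
        obtain ⟨x', hx'⟩ := YY_approx x.2 (show 0 < ε / 4 by positivity)
        obtain ⟨n0, hn0⟩ := D.exists_tr x'
        refine ⟨n0, fun n hn => ?_⟩
        rw [dist_eq_norm]
        change ‖Qi n (x : Li T) - (x : Li T)‖ < ε
        have e : Qi n (x : Li T) - (x : Li T) = Qi n ((x : Li T) - Φ x') - ((x : Li T) - Φ x') := by
          rw [map_sub, hQΦ, hn0 n hn]; abel
        rw [e]
        calc ‖Qi n ((x : Li T) - Φ x') - ((x : Li T) - Φ x')‖
            ≤ ‖Qi n ((x : Li T) - Φ x')‖ + ‖((x : Li T) - Φ x')‖ := norm_sub_le _ _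
          _ ≤ 2 * ‖((x : Li T) - Φ x')‖ + ‖((x : Li T) - Φ x')‖ := by gcongr; exact hQn n _
          _ < ε := by linarith
      ev_Q := by
        intro n q x hq
        rw [hevY, hevY, hQYc]
        by_cases h : q.2 ≤ D.rank q.1
        · exact hQev n x q hq h
        · push Not at h
          rw [hdead q _ (hQY n x) h, hdead q _ x.2 h]
      Q_eq_zero := by
        intro n x h
        apply Subtype.ext
        rw [hQYc]
        exact hQ0 n x (fun q hq _ => h q hq)
      ext := by
        intro n u c hc hu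
        obtain ⟨x', hx', hx2⟩ := D.E_ext n u
        refine ⟨⟨Φ x', mem_YY Φ x'⟩, ?_, ?_, ?_⟩
        · apply Subtype.ext
          rw [hQYc]
          change Qi n (Φ x') = Φ x'
          rw [hQΦ, hx']
        · intro q hq1 hq2
          rw [hevY]
          change (Φ x') q = u q
          rw [hΦ, hx2 q hq1 hq2]
        · change ‖Φ x'‖ ≤ 2 * c
          apply lp.norm_le_of_forall_le (by positivity)
          intro q
          rw [hΦ, Real.norm_eq_abs]
          apply D.abs_pr_E_le hx' hc
          intro r hr1 hr2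
          rw [hx2 r hr1 hr2]; exact hu r
      node := by
        intro τ i n x hw hn
        obtain ⟨x', hx', hy⟩ := hQr n (x : Li T)
        have h1 : ∀ q, evY q (QY n x) = TreeData.pr (D.E q) x' := by
          intro q; rw [hevY, hQYc, hy, hΦ]
        have h2 : ∀ q, evY q (QY n x - QY (D.lev τ) (QY n x)) =
            TreeData.pr (D.E q) x' - TreeData.pr (D.E q) (D.tr (D.lev τ) x') := by
          intro q
          rw [map_sub, h1, hevY, hQYc, hQYc, hy, hQΦ, hΦ]
        have h3 := hexp τ n x' hx' hn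
        rw [hw] at h3
        simp only [Option.elim_some] at h3
        rw [h1, TreeData.E_zero, h3]
        congr 1
        · cases D.prv τ with
          | none => simp
          | some ξ => simp only [Option.elim_some]; rw [h1, TreeData.E_zero]
        · congr 1
          apply Finset.sum_congr rfl
          intro q _
          rw [h2]
      base := by
        intro τ n x hw hn
        obtain ⟨x', hx', hy⟩ := hQr n (x : Li T)
        rw [hevY, hQYc, hy, hΦ, TreeData.E_zero, hexp τ n x' hx' hn, hw,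
          D.base_prv τ hw]
        simp
      ev_S := by
        intro τ k x
        rw [hevY, hevY, hSYc, hSi]
      Q_S := by
        intro n x
        apply Subtype.ext
        rw [hQYc, hSYc, hSYc, hQYc]
        refine YY_induction (P := fun y => Qi n (Si y) = Si (Qi n y)) ?_ ?_ x.2
        · exact isClosed_eq ((Qi n).continuous.comp Si.continuous)
            (Si.continuous.comp (Qi n).continuous)
        · intro z
          rw [hSΦ, hQΦ, hQΦ, hSΦ, TreeData.tr_SU] }

end Pool.Agent.MP0d518c
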