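import Pool.Agent.Lib.MP_0d518c_an.Defs

/-! Task P2: numerical facts on the weight `ω`. -/

namespace Pool.Agent.MP0d518c

open Finset Filter Topology

theorem om_zero : om 0 = 1 := by simp [om]

theorem om_pos (k : ℕ) : 0 < om k := by
  unfold om
  positivity

theorem om_le_one (k : ℕ) : om k ≤ 1 := by
  unfold om
  exact pow_le_one₀ (by norm_num) (by norm_num)

theorem om_antitone : Antitone om := by
  intro k j h
  unfold om
  exact pow_le_pow_of_le_one (by norm_num) (by norm_num) (Nat.pow_le_pow_left h 2)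

theorem om_add_le (k j : ℕ) : om (k + j) ≤ om k * om j := by
  unfold om
  rw [← pow_add]
  refine pow_le_pow_of_le_one (by norm_num) (by norm_num) ?_
  have h : (k + j) ^ 2 = k ^ 2 + j ^ 2 + 2 * (k * j) := by ring
  rw [h]
  exact Nat.le_add_right _ _

theorem om_div_le (k j : ℕ) : om (k + j) / om k ≤ om j := by
  rw [div_le_iff₀ (om_pos k), mul_comm]
  exact om_add_le k j

/-- the ratio needed for the ideal structure -/
theorem om_ratio {k j m : ℕ} (h : k < j) :
    om (j + m) ≤ om j * om (k + m) * (2 ^ (k ^ 2) * (1 / 2 : ℝ) ^ (2 * m)) := by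
  have h1 : om (j + m) * (1 / 2 : ℝ) ^ (k ^ 2) ≤ om j * om (k + m) * (1 / 2 : ℝ) ^ (2 * m) := by
    unfold om
    rw [← pow_add, ← pow_add, ← pow_add]
    refine pow_le_pow_of_le_one (by norm_num) (by norm_num) ?_
    have h2 : m * (k + 1) ≤ m * j := Nat.mul_le_mul_left m h
    nlinarith
  have h2 : (1 / 2 : ℝ) ^ (k ^ 2) * 2 ^ (k ^ 2) = 1 := by
    rw [← mul_pow]
    norm_num
  calc om (j + m) = (om (j + m) * (1 / 2 : ℝ) ^ (k ^ 2)) * 2 ^ (k ^ 2) := by
        rw [mul_assoc, h2, mul_one]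
    _ ≤ (om j * om (k + m) * (1 / 2 : ℝ) ^ (2 * m)) * 2 ^ (k ^ 2) := by gcongr
    _ = _ := by ring

end Pool.Agent.MP0d518c
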