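import Pool.Agent.Lib.MP_0d518c_an.TDefs
import Pool.Agent.Lib.MP_0d518c_an.Par

/-! Task T2: building nodes. -/

namespace Pool.Agent.MP0d518c

open Finset Filter Topology

namespace TreeCon

private lemma TB_rk (F : Fld) : rkR (dec.symm F) = F.1 := by
  unfold rkR; rw [Equiv.apply_symm_apply]

private lemma TB_wt (F : Fld) : wtR (dec.symm F) = F.2.1 := by
  unfold wtR; rw [Equiv.apply_symm_apply]

private lemma TB_ag (F : Fld) : agR (dec.symm F) = F.2.2.1 := by
  unfold agR; rw [Equiv.apply_symm_apply]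

private lemma TB_sg (F : Fld) : sgR (dec.symm F) = F.2.2.2.1 := by
  unfold sgR; rw [Equiv.apply_symm_apply]

private lemma TB_pr (F : Fld) : prR (dec.symm F) = F.2.2.2.2.1 := by
  unfold prR; rw [Equiv.apply_symm_apply]

private lemma TB_ls (F : Fld) : lsR (dec.symm F) = F.2.2.2.2.2 := by
  unfold lsR; rw [Equiv.apply_symm_apply]

private def TB_val (ξ : TT) : ℕ := ξ.1

private lemma TB_valid (ξ : TT) : Valid (TB_val ξ) := ξ.2

private lemma TB_co (r : ℕ) (q : TT × ℕ × ℤ) :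
    coT r (TB_val q.1, q.2) = Finsupp.single (q.1, q.2.1) ((q.2.2 : ℝ) / (r.factorial : ℝ)) := by
  unfold coT
  rw [dif_pos (TB_valid q.1)]
  rfl

private lemma TB_sum (r : ℕ) (l : List (TT × ℕ × ℤ)) :
    ((l.map (fun q => (TB_val q.1, q.2))).map (coT r)).sum = (l.map (fun q => Finsupp.single
      (q.1, q.2.1) ((q.2.2 : ℝ) / (r.factorial : ℝ)))).sum := by
  induction l with
  | nil => rfl
  | cons q l ih =>
    rw [List.map_cons, List.map_cons, List.sum_cons, ih, List.map_cons, List.sum_cons, TB_co]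

private lemma TB_bbT (n : ℕ) (hn : Valid n) (r : ℕ) (l : List (TT × ℕ × ℤ)) (h1 : rkR n = r)
    (h2 : lsR n = l.map (fun q => (TB_val q.1, q.2))) :
    bbT ⟨n, hn⟩ = (l.map (fun q => Finsupp.single
      (q.1, q.2.1) ((q.2.2 : ℝ) / (r.factorial : ℝ)))).sum := by
  have h3 : bbT ⟨n, hn⟩ = ((lsR n).map (coT (rkR n))).sum := rfl
  rw [h3, h1, h2, TB_sum]

private lemma TB_prT (n : ℕ) (hn : Valid n) (p : Option TT) (h : prR n = p.map TB_val) :
    prT ⟨n, hn⟩ = p := by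
  have h1 : prT ⟨n, hn⟩ = (p.map TB_val).bind
      (fun ξ => open Classical in if h : Valid ξ then some (⟨ξ, h⟩ : TT) else none) := by
    rw [← h]; rfl
  rw [h1]
  cases p with
  | none => rfl
  | some ξ =>
    rw [Option.map_some, Option.bind_some, dif_pos (TB_valid ξ)]
    rfl

theorem exists_node (r i : ℕ) (p : Option TT) (l : List (TT × ℕ × ℤ)) (hi : i ≤ r)
    (hp : ∀ ξ, p = some ξ → wtT ξ = some i ∧ rkT ξ < r ∧ agT ξ < nn i)
    (hl : ∀ q ∈ l, rkT q.1 < r ∧ q.2.1 ≤ r) (hlen : l.length ≤ r)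
    (hsum : (l.map (fun q => |q.2.2|)).sum ≤ (r.factorial : ℤ))
    (hodd : Odd i → ∃ η h, l = [(η, 0, (r.factorial : ℤ))] ∧ wtT η = some h ∧
      (p = none → h % 4 = 2 ∧ nn i ^ 2 < mm h) ∧ ∀ ξ, p = some ξ → h = 4 * cdT ξ) :
    ∃ τ : TT, rkT τ = r ∧ wtT τ = some i ∧ prT τ = p ∧
      (p = none → agT τ = 1) ∧
      bbT τ = (l.map (fun q => Finsupp.single (q.1, q.2.1)
        ((q.2.2 : ℝ) / (r.factorial : ℝ)))).sum := by
  classical
  set F : Fld := (r, some i, (p.elim 1 fun ξ => agT ξ + 1), ∅, p.map TB_val,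
    l.map fun q => (TB_val q.1, q.2)) with hF
  have e1 : rkR (dec.symm F) = r := TB_rk F
  have e2 : wtR (dec.symm F) = some i := TB_wt F
  have e3 : agR (dec.symm F) = (p.elim 1 fun ξ => agT ξ + 1) := TB_ag F
  have e4 : sgR (dec.symm F) = ∅ := TB_sg F
  have e5 : prR (dec.symm F) = p.map TB_val := TB_pr F
  have e6 : lsR (dec.symm F) = l.map (fun q => (TB_val q.1, q.2)) := TB_ls F
  have hprv : ∀ ξ, prR (dec.symm F) = some ξ → ∃ ξ' : TT, p = some ξ' ∧ TB_val ξ' = ξ := by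
    intro ξ hξ
    rw [e5, Option.map_eq_some_iff] at hξ
    exact hξ
  have hnpos : 1 ≤ nn i := by
    have := nn_pos i
    omega
  have hv : Valid (dec.symm F) := by
    refine Valid.nd _ i e2 (by rw [e1]; exact hi) e4 ?_ ?_ ?_ ?_ ?_ ?_ ?_ ?_ ?_
    · rw [e3]
      cases p with
      | none => exact le_refl 1
      | some ξ => exact Nat.le_add_left 1 _
    · rw [e3]
      rcases hpp : p with _ | ξ
      · exact hnpos
      · exact (hp ξ hpp).2.2
    · intro ξ hξ
      obtain ⟨ξ', -, h2⟩ := hprv ξ hξ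
      rw [← h2]; exact ξ'.2
    · intro ξ hξ
      obtain ⟨ξ', h1, h2⟩ := hprv ξ hξ
      obtain ⟨g1, g2, -⟩ := hp ξ' h1
      rw [← h2, e1, e3, h1]
      exact ⟨g1, g2, rfl⟩
    · intro q hq
      rw [e6, List.mem_map] at hq
      obtain ⟨q', -, rfl⟩ := hq
      exact q'.1.2
    · intro q hq
      rw [e6, List.mem_map] at hq
      obtain ⟨q', hq', rfl⟩ := hq
      rw [e1]
      exact hl q' hq'
    · rw [e6, List.length_map, e1]; exact hlen
    · rw [e6, List.map_map, e1]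
      exact hsum
    · intro ho
      obtain ⟨η, h, h1, h2, h3, h4⟩ := hodd ho
      refine ⟨TB_val η, h, ?_, h2, ?_, ?_⟩
      · rw [e6, h1, e1]; rfl
      · intro hn
        rw [e5, Option.map_eq_none_iff] at hn
        exact h3 hn
      · intro ξ hξ
        obtain ⟨ξ', g1, g2⟩ := hprv ξ hξ
        rw [h4 ξ' g1, ← g2]; rfl
  refine ⟨⟨dec.symm F, hv⟩, e1, e2, TB_prT _ hv p e5, ?_, ?_⟩
  · intro hn
    show agR (dec.symm F) = 1
    rw [e3, hn]; rfl
  · exact TB_bbT _ hv r l e1 e6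

theorem exists_base_node (n : ℕ) (ε : ℕ → ℝ) (hε : ∀ k, ε k = 1 ∨ ε k = -1) :
    ∃ τ : TT, wtT τ = none ∧ rkT τ = n ∧ ∀ k ≤ n, sgT τ k = ε k := by
  classical
  set F : Fld := (n, none, 0, (Finset.range (n + 1)).filter (fun k => ε k = 1), none, [])
    with hF
  have e1 : rkR (dec.symm F) = n := TB_rk F
  have e2 : wtR (dec.symm F) = none := TB_wt F
  have e3 : agR (dec.symm F) = 0 := TB_ag F
  have e4 : sgR (dec.symm F) = (Finset.range (n + 1)).filter (fun k => ε k = 1) := TB_sg F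
  have e5 : prR (dec.symm F) = none := TB_pr F
  have e6 : lsR (dec.symm F) = [] := TB_ls F
  have hv : Valid (dec.symm F) := by
    refine Valid.base _ e2 e3 ?_ e5 e6
    rw [e4, e1]
    exact Finset.filter_subset _ _
  refine ⟨⟨dec.symm F, hv⟩, e2, e1, fun k hk => ?_⟩
  show (if k ∈ sgR (dec.symm F) then (1 : ℝ) else -1) = ε k
  rw [e4]
  rcases hε k with h | h
  · rw [if_pos, h]
    rw [Finset.mem_filter, Finset.mem_range]
    exact ⟨by omega, h⟩
  · rw [if_neg, h]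
    rw [Finset.mem_filter]
    rintro ⟨-, h2⟩
    rw [h] at h2
    norm_num at h2

end TreeCon

end Pool.Agent.MP0d518c
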