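import Pool.Agent.Lib.MP_0d518c_an.TDefs
import Pool.Agent.Lib.MP_0d518c_an.Par

/-! Task T3: structural properties of the nodes. -/

namespace Pool.Agent.MP0d518c

open Finset Filter Topology

namespace TreeCon

private theorem TC_prT_some {τ ξ : TT} (h : prT τ = some ξ) : prR τ.1 = some ξ.1 := by
  classical
  unfold prT at h
  obtain ⟨a, ha, hb⟩ := Option.bind_eq_some_iff.mp h
  split_ifs at hb with hv
  · have h2 := Option.some.inj hb
    rw [ha, ← h2]

private theorem TC_valid_prR {τ : TT} {a : ℕ} (h : prR τ.1 = some a) : Valid a := by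
  obtain ⟨n, hn⟩ := τ
  cases hn with
  | base _ hw ha hs hp hl => rw [hp] at h; exact absurd h (by simp)
  | nd _ i hw hi hs ha1 ha2 hp hp' hl hl' hlen hsum hodd => exact hp a h

private theorem TC_prT_none {τ : TT} (h : prT τ = none) : prR τ.1 = none := by
  classical
  rcases hp : prR τ.1 with _ | a
  · rfl
  · exfalso
    have hv := TC_valid_prR hp
    unfold prT at h
    rw [hp] at h
    simp [hv] at h

theorem base_prT (τ : TT) (h : wtT τ = none) : prT τ = none := by
  obtain ⟨n, hn⟩ := τ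
  have h' : wtR n = none := h
  have hp : prR n = none := by
    cases hn with
    | base _ hw ha hs hp hl => exact hp
    | nd _ i hw hi hs ha1 ha2 hp hp' hl hl' hlen hsum hodd =>
      rw [hw] at h'; exact absurd h' (by simp)
  unfold prT
  simp [hp]

theorem base_bbT (τ : TT) (h : wtT τ = none) : bbT τ = 0 := by
  obtain ⟨n, hn⟩ := τ
  have h' : wtR n = none := h
  have hp : lsR n = [] := by
    cases hn with
    | base _ hw ha hs hp hl => exact hl
    | nd _ i hw hi hs ha1 ha2 hp hp' hl hl' hlen hsum hodd =>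
      rw [hw] at h'; exact absurd h' (by simp)
  unfold bbT
  simp [hp]

theorem wtT_le (τ : TT) (i : ℕ) (h : wtT τ = some i) : i ≤ rkT τ := by
  obtain ⟨n, hn⟩ := τ
  have h' : wtR n = some i := h
  show i ≤ rkR n
  cases hn with
  | base _ hw ha hs hp hl => rw [hw] at h'; exact absurd h' (by simp)
  | nd _ i' hw hi hs ha1 ha2 hp hp' hl hl' hlen hsum hodd =>
    rw [hw] at h'
    have := Option.some.inj h'
    omega

theorem agT_pos (τ : TT) (i : ℕ) (h : wtT τ = some i) : 1 ≤ agT τ := by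
  obtain ⟨n, hn⟩ := τ
  have h' : wtR n = some i := h
  show 1 ≤ agR n
  cases hn with
  | base _ hw ha hs hp hl => rw [hw] at h'; exact absurd h' (by simp)
  | nd _ i' hw hi hs ha1 ha2 hp hp' hl hl' hlen hsum hodd => exact ha1

theorem agT_le (τ : TT) (i : ℕ) (h : wtT τ = some i) : agT τ ≤ nn i := by
  obtain ⟨n, hn⟩ := τ
  have h' : wtR n = some i := h
  show agR n ≤ nn i
  cases hn with
  | base _ hw ha hs hp hl => rw [hw] at h'; exact absurd h' (by simp)
  | nd _ i' hw hi hs ha1 ha2 hp hp' hl hl' hlen hsum hodd =>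
    rw [hw] at h'
    have := Option.some.inj h'
    rw [← this]
    exact ha2

private theorem TC_prT_all {τ ξ : TT} (h : prT τ = some ξ) :
    wtT ξ = wtT τ ∧ rkT ξ < rkT τ ∧ agT τ = agT ξ + 1 := by
  have h2 := TC_prT_some h
  obtain ⟨n, hn⟩ := τ
  have h2' : prR n = some ξ.1 := h2
  show wtR ξ.1 = wtR n ∧ rkR ξ.1 < rkR n ∧ agR n = agR ξ.1 + 1
  cases hn with
  | base _ hw ha hs hp hl => rw [hp] at h2'; exact absurd h2' (by simp)
  | nd _ i' hw hi hs ha1 ha2 hp hp' hl hl' hlen hsum hodd =>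
    obtain ⟨h3, h4, h5⟩ := hp' _ h2'
    exact ⟨h3.trans hw.symm, h4, h5⟩

theorem prT_wt (τ ξ : TT) (h : prT τ = some ξ) : wtT ξ = wtT τ := (TC_prT_all h).1

theorem prT_rank (τ ξ : TT) (h : prT τ = some ξ) : rkT ξ < rkT τ := (TC_prT_all h).2.1

theorem prT_age (τ ξ : TT) (h : prT τ = some ξ) : agT τ = agT ξ + 1 := (TC_prT_all h).2.2

private theorem TC_l1_add {α : Type} (f g : α →₀ ℝ) :
    ∑ q ∈ (f + g).support, |(f + g) q| ≤
      ∑ q ∈ f.support, |f q| + ∑ q ∈ g.support, |g q| := by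
  classical
  have hf : ∑ q ∈ f.support, |f q| = ∑ q ∈ f.support ∪ g.support, |f q| := by
    apply Finset.sum_subset Finset.subset_union_left
    intro q _ hq
    rw [Finsupp.notMem_support_iff.mp hq, abs_zero]
  have hg : ∑ q ∈ g.support, |g q| = ∑ q ∈ f.support ∪ g.support, |g q| := by
    apply Finset.sum_subset Finset.subset_union_right
    intro q _ hq
    rw [Finsupp.notMem_support_iff.mp hq, abs_zero]
  rw [hf, hg, ← Finset.sum_add_distrib]
  calc ∑ q ∈ (f + g).support, |(f + g) q| ≤ ∑ q ∈ f.support ∪ g.support, |(f + g) q| :=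
        Finset.sum_le_sum_of_subset_of_nonneg Finsupp.support_add
          (fun _ _ _ => abs_nonneg _)
    _ ≤ _ := Finset.sum_le_sum fun q _ => by
        rw [Finsupp.add_apply]
        exact abs_add_le _ _

private theorem TC_l1_list {α : Type} (L : List (α →₀ ℝ)) :
    ∑ q ∈ L.sum.support, |L.sum q| ≤
      (L.map fun f => ∑ q ∈ f.support, |f q|).sum := by
  induction L with
  | nil => simp
  | cons f L ih =>
    rw [List.sum_cons, List.map_cons, List.sum_cons]
    exact (TC_l1_add f L.sum).trans (by linarith)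

private theorem TC_supp_list {α : Type} (L : List (α →₀ ℝ)) (q : α)
    (h : q ∈ L.sum.support) : ∃ f ∈ L, q ∈ f.support := by
  induction L with
  | nil => simp at h
  | cons f L ih =>
    rw [List.sum_cons, Finsupp.mem_support_iff, Finsupp.add_apply] at h
    by_cases hf : f q = 0
    · rw [hf, zero_add] at h
      obtain ⟨g, hg, hg'⟩ := ih (Finsupp.mem_support_iff.mpr h)
      exact ⟨g, List.mem_cons_of_mem _ hg, hg'⟩
    · exact ⟨f, List.mem_cons_self, Finsupp.mem_support_iff.mpr hf⟩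

private theorem TC_coT_l1 (r : ℕ) (q : ℕ × ℕ × ℤ) :
    ∑ p ∈ (coT r q).support, |coT r q p| ≤ ((|q.2.2| : ℤ) : ℝ) / (r.factorial : ℝ) := by
  classical
  have hf : (0 : ℝ) < (r.factorial : ℝ) := by exact_mod_cast r.factorial_pos
  unfold coT
  split_ifs with h
  · have h1 := Finsupp.sum_single_index (a := ((⟨q.1, h⟩ : TT), q.2.1))
      (b := (q.2.2 : ℝ) / (r.factorial : ℝ)) (h := fun _ c => |c|) (by simp)
    refine le_of_eq_of_le h1 ?_
    rw [abs_div, abs_of_pos hf]
    push_cast
    exact le_rfl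
  · simp only [Finsupp.support_zero, Finset.sum_empty]
    positivity

theorem bbT_l1 (τ : TT) : ∑ q ∈ (bbT τ).support, |bbT τ q| ≤ 1 := by
  obtain ⟨n, hn⟩ := τ
  have hf : (0 : ℝ) < ((rkR n).factorial : ℝ) := by exact_mod_cast (rkR n).factorial_pos
  have hsum : ((lsR n).map (fun q => |q.2.2|)).sum ≤ ((rkR n).factorial : ℤ) := by
    cases hn with
    | base _ hw ha hs hp hl => rw [hl]; simp
    | nd _ i' hw hi hs ha1 ha2 hp hp' hl hl' hlen hsum hodd => exact hsum
  have h1 := TC_l1_list ((lsR n).map (coT (rkR n)))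
  have h2 : (((lsR n).map (coT (rkR n))).map fun f => ∑ q ∈ f.support, |f q|).sum ≤
      (((lsR n).map (fun q => |q.2.2|)).sum : ℤ) / ((rkR n).factorial : ℝ) := by
    generalize lsR n = l
    induction l with
    | nil => simp
    | cons q l ih =>
      simp only [List.map_cons, List.sum_cons] at ih ⊢
      have h3 := TC_coT_l1 (rkR n) q
      push_cast at h3 ih ⊢
      rw [add_div]
      exact add_le_add h3 ih
  have h4 : (((lsR n).map (fun q => |q.2.2|)).sum : ℤ) / ((rkR n).factorial : ℝ) ≤ (1 : ℝ) := by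
    rw [div_le_one hf]
    exact_mod_cast hsum
  exact h1.trans (h2.trans h4)

theorem bbT_rank (τ : TT) (q : TT × ℕ) (h : q ∈ (bbT τ).support) : rkT q.1 < rkT τ := by
  classical
  obtain ⟨n, hn⟩ := τ
  obtain ⟨f, hf, hq⟩ := TC_supp_list _ q h
  obtain ⟨e, he, rfl⟩ := List.mem_map.mp hf
  have he' : e ∈ lsR n := he
  have h1 : rkR e.1 < rkR n := by
    cases hn with
    | base _ hw ha hs hp hl => rw [hl] at he'; exact absurd he' (by simp)
    | nd _ i' hw hi hs ha1 ha2 hp hp' hl hl' hlen hsum hodd => exact (hl' e he').1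
  have h2 : rkR q.1.1 = rkR e.1 := by
    unfold coT at hq
    split_ifs at hq with hv
    · have h3 := Finsupp.support_single_subset hq
      rw [Finset.mem_singleton] at h3
      rw [h3]
    · simp at hq
  show rkR q.1.1 < rkR n
  rw [h2]
  exact h1

theorem odd_etaT (τ : TT) (i : ℕ) (hw : wtT τ = some i) (ho : Odd i) :
    ∃ η h, bbT τ = Finsupp.single (η, 0) 1 ∧
      wtT η = some h ∧ (prT τ = none → h % 4 = 2 ∧ nn i ^ 2 < mm h) ∧
      (∀ ξ, prT τ = some ξ → h = 4 * cdT ξ) := by
  classical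
  have hpn := TC_prT_none (τ := τ)
  have hps : ∀ ξ, prT τ = some ξ → prR τ.1 = some ξ.1 := fun ξ => TC_prT_some
  have hbb : bbT τ = ((lsR τ.1).map (coT (rkR τ.1))).sum := rfl
  have hw' : wtR τ.1 = some i := hw
  generalize prT τ = P at hpn hps ⊢
  generalize bbT τ = B at hbb ⊢
  obtain ⟨n, hn⟩ := τ
  simp only at hpn hps hbb hw'
  cases hn with
  | base _ hw2 ha hs hp hl => rw [hw2] at hw'; exact absurd hw' (by simp)
  | nd _ i' hw2 hi hs ha1 ha2 hp hp' hl hl' hlen hsum hodd =>
    rw [hw2] at hw'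
    have hii := Option.some.inj hw'
    subst hii
    obtain ⟨η, h, h1, h2, h3, h4⟩ := hodd ho
    have hv : Valid η := hl (η, 0, ((rkR n).factorial : ℤ)) (by rw [h1]; simp)
    refine ⟨⟨η, hv⟩, h, ?_, h2, fun hP => h3 (hpn hP), fun ξ hξ => h4 _ (hps ξ hξ)⟩
    have hf : ((rkR n).factorial : ℝ) ≠ 0 := by
      exact_mod_cast (rkR n).factorial_ne_zero
    rw [hbb, h1]
    simp only [List.map_cons, List.map_nil, List.sum_cons, List.sum_nil, add_zero]
    unfold coT
    rw [dif_pos hv]
    congr 1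
    push_cast
    exact div_self hf

theorem cdT_inj : Function.Injective cdT := by
  intro τ σ h
  have h' : Nat.pair (rkR τ.1 + 1) τ.1 = Nat.pair (rkR σ.1 + 1) σ.1 := h
  exact Subtype.ext (Nat.pair_eq_pair.mp h').2

theorem cdT_gt (τ : TT) : rkT τ < cdT τ := by
  show rkR τ.1 < Nat.pair (rkR τ.1 + 1) τ.1
  have := Nat.left_le_pair (rkR τ.1 + 1) τ.1
  omega

end TreeCon

end Pool.Agent.MP0d518c
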