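import Pool.Agent.Lib.MP_0d518c_an.TA
import Pool.Agent.Lib.MP_0d518c_an.TB
import Pool.Agent.Lib.MP_0d518c_an.TC
import Pool.Agent.Lib.MP_0d518c_an.TD

/-! Task T5: existence of the tree. -/

namespace Pool.Agent.MP0d518c

open Finset Filter Topology

open TreeCon in
private theorem Tree_odd_bb (r : ℕ) (η : TT) :
    ((([(η, 0, (r.factorial : ℤ))] : List (TT × ℕ × ℤ)).map (fun q => Finsupp.single (q.1, q.2.1)
      ((q.2.2 : ℝ) / (r.factorial : ℝ)))).sum) = (Finsupp.single (η, 0) (1 : ℝ) : TT × ℕ →₀ ℝ) := by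
  have h : ((r.factorial : ℤ) : ℝ) / (r.factorial : ℝ) = 1 := by
    rw [Int.cast_natCast]
    exact div_self (by exact_mod_cast r.factorial_ne_zero)
  simp only [List.map_cons, List.map_nil, List.sum_cons, List.sum_nil, add_zero, h]

open TreeCon in
private noncomputable def treeData : TreeData TT where
  rank := rkT
  fin := finite_rank
  wt := wtT
  age := agT
  prv := prT
  bb := bbT
  code := cdT
  sgn := sgT
  sgn_le τ k := by
    unfold sgT
    split_ifs <;> simp
  base_prv := base_prT
  base_bb := base_bbT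
  wt_le := wtT_le
  age_pos := agT_pos
  age_le := agT_le
  prv_wt := prT_wt
  prv_rank := prT_rank
  prv_age := prT_age
  bb_l1 := bbT_l1
  bb_rank := bbT_rank
  odd_eta := odd_etaT
  code_inj := cdT_inj
  code_gt := cdT_gt
  sat_even i hi p hp b hb hb1 R := by
    obtain ⟨R0, hR0⟩ := exists_list b hb hb1
    set r : ℕ := max R (max R0 (max i (p.elim 0 fun ξ => rkT ξ + 1))) with hr
    have h1 : R ≤ r := le_max_left _ _
    have h2 : R0 ≤ r := (le_max_left _ _).trans (le_max_right _ _)
    have h3 : i ≤ r := (le_max_left _ _).trans ((le_max_right _ _).trans (le_max_right _ _))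
    have h4 : (p.elim 0 fun ξ => rkT ξ + 1) ≤ r :=
      (le_max_right _ _).trans ((le_max_right _ _).trans (le_max_right _ _))
    obtain ⟨l, hl1, hl2, hl3, hl4⟩ := hR0 r h2
    obtain ⟨τ, e1, e2, e3, e4, e5⟩ := exists_node r i p l h3
      (fun ξ hξ => by
        obtain ⟨g1, g2⟩ := hp ξ hξ
        refine ⟨g1, ?_, g2⟩
        rw [hξ] at h4
        exact h4)
      hl1 hl2 hl3 (fun ho => absurd ho (Nat.not_odd_iff_even.2 hi))
    exact ⟨τ, by rw [e1]; exact h1, e2, e3, by rw [e5, hl4], e4⟩
  sat_odd_fst i hi η h hη h4 hn R := by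
    set r : ℕ := max R (max i (rkT η + 1)) with hr
    have h1 : R ≤ r := le_max_left _ _
    have h2 : i ≤ r := (le_max_left _ _).trans (le_max_right _ _)
    have h3 : rkT η + 1 ≤ r := (le_max_right _ _).trans (le_max_right _ _)
    obtain ⟨τ, e1, e2, e3, e4, e5⟩ := exists_node r i none [(η, 0, (r.factorial : ℤ))] h2
      (fun ξ hξ => by cases hξ)
      (fun q hq => by
        rw [List.mem_singleton] at hq
        subst hq
        exact ⟨h3, Nat.zero_le _⟩)
      (by rw [List.length_singleton]; omega)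
      (by simp)
      (fun _ => ⟨η, h, rfl, hη, fun _ => ⟨h4, hn⟩, fun ξ hξ => by cases hξ⟩)
    exact ⟨τ, by rw [e1]; exact h1, e2, e3, by rw [e5, Tree_odd_bb], e4 rfl⟩
  sat_odd_snd i hi ξ hξ hage η hη R := by
    set r : ℕ := max R (max i (max (rkT η + 1) (rkT ξ + 1))) with hr
    have h1 : R ≤ r := le_max_left _ _
    have h2 : i ≤ r := (le_max_left _ _).trans (le_max_right _ _)
    have h3 : rkT η + 1 ≤ r :=
      (le_max_left _ _).trans ((le_max_right _ _).trans (le_max_right _ _))
    have h4 : rkT ξ + 1 ≤ r :=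
      (le_max_right _ _).trans ((le_max_right _ _).trans (le_max_right _ _))
    obtain ⟨τ, e1, e2, e3, e4, e5⟩ := exists_node r i (some ξ) [(η, 0, (r.factorial : ℤ))] h2
      (fun ξ' hξ' => by
        cases hξ'
        exact ⟨hξ, h4, hage⟩)
      (fun q hq => by
        rw [List.mem_singleton] at hq
        subst hq
        exact ⟨h3, Nat.zero_le _⟩)
      (by rw [List.length_singleton]; omega)
      (by simp)
      (fun _ => ⟨η, 4 * cdT ξ, rfl, hη, ⟨fun h => absurd h (Option.some_ne_none ξ),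
        fun ξ' hξ' => by rw [Option.some.inj hξ']⟩⟩)
    exact ⟨τ, by rw [e1]; exact h1, e2, e3, by rw [e5, Tree_odd_bb]⟩
  sat_base := exists_base_node

theorem exists_tree : ∃ T : Type, Nonempty (TreeData T) := ⟨TreeCon.TT, ⟨treeData⟩⟩

end Pool.Agent.MP0d518c
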