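import Pool.Agent.Lib.MP_0d518c_an.K4
import Pool.Agent.Lib.MP_0d518c_an.K5
import Pool.Agent.Lib.MP_0d518c_an.AK5
import Pool.Agent.Lib.MP_0d518c_an.SLDefs
import Pool.Agent.Lib.MP_0d518c_an.SpB
import Pool.Agent.Lib.MP_0d518c_an.Tree

/-! The lattice of closed ideals of `L(X)`, with the description of all operators. -/

namespace Pool.Agent.MP0d518c

open Finset Filter Topology

private theorem AK6_norm_I_le {𝕜 : Type} [RCLike 𝕜] : ‖(RCLike.I : 𝕜)‖ ≤ 1 := by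
  rcases RCLike.I_eq_zero_or_im_I_eq_one (K := 𝕜) with h | h
  · rw [h, norm_zero]; exact zero_le_one
  · have h5 : (RCLike.I : 𝕜) ≠ 0 := by
      intro h6; rw [h6] at h; simp at h
    exact (RCLike.norm_I_of_ne_zero h5).le

private theorem AK6_io_jv {𝕜 X : Type} [RCLike 𝕜] [NormedAddCommGroup X] [NormedSpace ℝ X]
    (B : X →L[ℝ] X) (x : X) : (KX.io B : KX 𝕜 X →L[𝕜] KX 𝕜 X) (KX.jv x) = KX.jv (B x) := by
  apply KX.ext'
  intro z
  rw [KX.io_fn, KX.jv_fn, KX.jv_fn, map_smul]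

private theorem AK6_io {𝕜 X : Type} [RCLike 𝕜] [NormedAddCommGroup X] [NormedSpace ℝ X]
    (B : X →L[ℝ] X) (f : KX 𝕜 X) : (KX.io B : KX 𝕜 X →L[𝕜] KX 𝕜 X) f =
      KX.jv (B (f.fn 1)) + (RCLike.I : 𝕜) • KX.jv (B (-(f.fn RCLike.I))) := by
  conv_lhs => rw [KX.eq_jv f]
  rw [map_add, map_smul, AK6_io_jv, AK6_io_jv]

private theorem AK6_jv_cont {𝕜 X : Type} [RCLike 𝕜] [NormedAddCommGroup X] [NormedSpace ℝ X] :
    Continuous (fun x : X => (KX.jv x : KX 𝕜 X)) := by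
  have h : ∀ x y : X, ‖(KX.jv x : KX 𝕜 X) - KX.jv y‖ ≤ ‖x - y‖ := by
    intro x y
    have hjs : (KX.jv (x - y) : KX 𝕜 X) = KX.jv x - KX.jv y := by
      apply KX.ext'
      intro z
      rw [KX.fn_sub, _root_.sub_apply, KX.jv_fn, KX.jv_fn, KX.jv_fn, smul_sub]
    rw [← hjs]
    exact KX.norm_jv_le _
  refine (LipschitzWith.of_dist_le_mul (K := 1) fun x y => ?_).continuous
  rw [dist_eq_norm, dist_eq_norm, NNReal.coe_one, one_mul]
  exact h x y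

/-- the finite-dimensional decomposition of `KX 𝕜 X` -/
theorem fddK {𝕜 T X : Type} [RCLike 𝕜] [NormedAddCommGroup X] [NormedSpace ℝ X]
    (A : AHData T X) :
    FDD 𝕜 (KX 𝕜 X) := by
  classical
  refine ⟨fun n => ((KX.io (A.Q n) : KX 𝕜 X →L[𝕜] KX 𝕜 X) : KX 𝕜 X →ₗ[𝕜] KX 𝕜 X), ?_, ?_, ?_, ?_⟩
  · intro n
    obtain ⟨F, v, -, -, -, -, hQ⟩ := A.exists_dual n
    let W : Submodule 𝕜 (KX 𝕜 X) := Submodule.span 𝕜 ↑(F.image fun q => (KX.jv (v q) : KX 𝕜 X))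
    have hjv : ∀ x : X, (KX.jv (A.Q n x) : KX 𝕜 X) ∈ W := by
      intro x
      have hsum : ∀ s : Finset (T × ℕ), (KX.jv (∑ q ∈ s, A.ev q x • v q) : KX 𝕜 X) =
          ∑ q ∈ s, ((A.ev q x : ℝ) : 𝕜) • KX.jv (v q) := by
        intro s
        induction s using Finset.induction_on with
        | empty =>
          rw [Finset.sum_empty, Finset.sum_empty]
          apply KX.ext'
          intro z
          rw [KX.jv_fn, smul_zero]
          rfl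
        | insert a s ha ih =>
          rw [Finset.sum_insert ha, Finset.sum_insert ha, KX.jv_add, KX.jv_smul, ih]
      rw [hQ, hsum]
      refine Submodule.sum_mem _ fun q hq => Submodule.smul_mem _ _ (Submodule.subset_span ?_)
      rw [Finset.coe_image]
      exact ⟨q, hq, rfl⟩
    have hle : LinearMap.range ((KX.io (A.Q n) : KX 𝕜 X →L[𝕜] KX 𝕜 X) :
        KX 𝕜 X →ₗ[𝕜] KX 𝕜 X) ≤ W := by
      rintro _ ⟨f, rfl⟩
      show (KX.io (A.Q n) : KX 𝕜 X →L[𝕜] KX 𝕜 X) f ∈ W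
      rw [AK6_io]
      exact W.add_mem (hjv _) (W.smul_mem _ (hjv _))
    have : FiniteDimensional 𝕜 W := FiniteDimensional.span_finset 𝕜 _
    exact Submodule.finiteDimensional_of_le hle
  · intro m n f
    have h1 : (KX.io (A.Q m) : KX 𝕜 X →L[𝕜] KX 𝕜 X) * KX.io (A.Q n) = KX.io (A.Q (min m n)) := by
      rw [← KX.io_mul]
      congr 1
      exact ContinuousLinearMap.ext fun x => A.Q_Q m n x
    exact DFunLike.congr_fun h1 f
  · intro n f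
    refine ((KX.io (A.Q n) : KX 𝕜 X →L[𝕜] KX 𝕜 X).le_opNorm f).trans ?_
    refine mul_le_mul_of_nonneg_right ?_ (norm_nonneg _)
    exact (KX.norm_io_le _).trans
      (ContinuousLinearMap.opNorm_le_bound _ (by norm_num) (A.Q_norm n))
  · intro f
    have h1 : Tendsto (fun n => KX.jv (A.Q n (f.fn 1)) +
        (RCLike.I : 𝕜) • (KX.jv (A.Q n (-(f.fn RCLike.I))) : KX 𝕜 X)) atTop
        (𝓝 (KX.jv (f.fn 1) + (RCLike.I : 𝕜) • KX.jv (-(f.fn RCLike.I)))) :=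
      ((AK6_jv_cont.tendsto _).comp (A.Q_tendsto _)).add
        (((AK6_jv_cont.tendsto _).comp (A.Q_tendsto _)).const_smul _)
    rw [← KX.eq_jv f] at h1
    exact h1.congr fun n => (AK6_io (A.Q n) f).symm

private theorem AK6_rank_one {𝕜 Y : Type} [RCLike 𝕜] [NormedAddCommGroup Y] [NormedSpace 𝕜 Y]
    (φ : Y →L[𝕜] 𝕜) (g : Y) : IsCompactOperator (φ.smulRight g) := by
  have h1 : IsCompactOperator (φ : Y → 𝕜) := by
    rw [isCompactOperator_iff_exists_mem_nhds_image_subset_compact]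
    refine ⟨Metric.closedBall 0 1, Metric.closedBall_mem_nhds _ one_pos,
      Metric.closedBall 0 ‖φ‖, isCompact_closedBall _ _, ?_⟩
    rintro _ ⟨x, hx, rfl⟩
    rw [mem_closedBall_zero_iff] at hx ⊢
    exact (φ.le_opNorm x).trans (mul_le_of_le_one_right (norm_nonneg _) hx)
  exact h1.clm_comp (ContinuousLinearMap.toSpanSingleton 𝕜 g)

theorem lattice_theoremK (𝕜 : Type) [RCLike 𝕜] :
    ∃ (X : Type) (_ : NormedAddCommGroup X) (_ : NormedSpace 𝕜 X) (S : X →L[𝕜] X),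
      CompleteSpace X ∧ TopologicalSpace.SeparableSpace X ∧
      Cardinal.mk {I : TwoSidedIdeal (X →L[𝕜] X) // IsClosed {V : X →L[𝕜] X | V ∈ I}} =
        Cardinal.aleph0 ∧
      FDD 𝕜 X ∧ SeriesMod 𝕜 {V : X →L[𝕜] X | IsCompactOperator V} S ∧
      ChainOfClosedIdeals 𝕜 {V : X →L[𝕜] X | IsCompactOperator V} S := by
  obtain ⟨T, ⟨D⟩⟩ := exists_tree
  obtain ⟨X, i1, i2, i3, ⟨A⟩⟩ := exists_AHData D
  have := A.separable
  obtain ⟨K, hK⟩ := exists_compactIdealK (𝕜 := 𝕜) (Y := KX 𝕜 X)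
  have h := radAlgK A hK
  have hmin : ∀ I : TwoSidedIdeal (KX 𝕜 X →L[𝕜] KX 𝕜 X),
      IsClosed {x : KX 𝕜 X →L[𝕜] KX 𝕜 X | x ∈ I} → (∃ x ∈ I, x ≠ 0) → ∀ x ∈ K, x ∈ I :=
    fun I hI hne x hx => compact_memK A I hI hne ((hK x).1 hx)
  have hKne : ∃ x ∈ K, x ≠ 0 := by
    have h1 : ∃ f : KX 𝕜 X, f ≠ 0 := by
      by_contra hcon
      push Not at hcon
      apply h.pow_notMem 0
      have h2 : (KX.io A.S : KX 𝕜 X →L[𝕜] KX 𝕜 X) ^ 0 = 0 :=
        ContinuousLinearMap.ext fun f => hcon _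
      rw [h2]
      exact K.zero_mem
    obtain ⟨f, hf⟩ := h1
    obtain ⟨φ, -, hφ⟩ := exists_dual_vector 𝕜 f (norm_ne_zero_iff.2 hf)
    refine ⟨φ.smulRight f, (hK _).2 (AK6_rank_one φ f), fun h0 => ?_⟩
    have h3 := congrArg (fun U : KX 𝕜 X →L[𝕜] KX 𝕜 X => U f) h0
    have h4 : φ f • f = 0 := h3
    rcases smul_eq_zero.1 h4 with h5 | h5
    · rw [hφ] at h5
      exact hf (norm_eq_zero.1 (by exact_mod_cast h5))
    · exact hf h5
  obtain ⟨I, hI, hb, hKI, hII, hI0, hall⟩ := h.chain hKne hmin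
  refine ⟨KX 𝕜 X, inferInstance, inferInstance, KX.io A.S, inferInstance, KX.separableK,
    h.main hmin, fddK A, ⟨h.pow_le, ?_, ?_⟩, K, I, hK, ?_, hb, hKI, hII, hI0, hall⟩
  · intro V
    obtain ⟨μ, ⟨h1, h2⟩, h3⟩ := h.rep_unique V
    exact ⟨μ, ⟨h1, (hK _).1 h2⟩, fun ν hν => h3 ν ⟨hν.1, (hK _).2 hν.2⟩⟩
  · rintro V μ ⟨hμ, hW⟩
    have h1 := h.low μ _ hμ ((hK _).2 hW)
    rw [add_sub_cancel] at h1
    exact h1
  · intro k V
    rw [hI k V]
    constructor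
    · rintro ⟨μ, h1, h2, h3⟩
      exact ⟨μ, ⟨h1, (hK _).1 h3⟩, h2⟩
    · rintro ⟨μ, ⟨h1, h3⟩, h2⟩
      exact ⟨μ, h1, h2, (hK _).2 h3⟩

end Pool.Agent.MP0d518c
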