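import Pool.Agent.Lib.MP_0d518c_an.Par

/-! Task AL1: algebras with a closed ideal `K` such that `R / K = ℓ_1(ω)`: coefficients. -/

namespace Pool.Agent.MP0d518c

open Finset Filter Topology

variable {R : Type} [NormedRing R] [NormedAlgebra ℝ R] [CompleteSpace R]


/-- hypotheses on `R`, the two-sided ideal `K` and `S` -/
structure RadAlg (K : TwoSidedIdeal R) (S : R) : Prop where
  closed : IsClosed {x : R | x ∈ K}
  pow_le : ∀ j, ‖S ^ j‖ ≤ om j
  rep : ∀ V : R, ∃ μ : ℕ → ℝ, (Summable fun l => |μ l| * om l) ∧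
    V - ∑' l, μ l • S ^ l ∈ K
  low : ∀ (μ : ℕ → ℝ) (k : R), (Summable fun l => |μ l| * om l) → k ∈ K →
    ∑' l, |μ l| * om l ≤ 2 * ‖(∑' l, μ l • S ^ l) + k‖

theorem RadAlg.summable {K : TwoSidedIdeal R} {S : R} (h : RadAlg K S) {μ : ℕ → ℝ}
    (hμ : Summable fun l => |μ l| * om l) : Summable fun l => μ l • S ^ l := by
  refine Summable.of_norm_bounded hμ fun l => ?_
  rw [norm_smul, Real.norm_eq_abs]
  exact mul_le_mul_of_nonneg_left (h.pow_le l) (abs_nonneg _)

/-- the coefficients are unique -/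
theorem RadAlg.coef_zero {K : TwoSidedIdeal R} {S : R} (h : RadAlg K S) {μ : ℕ → ℝ}
    (hμ : Summable fun l => |μ l| * om l) (hmem : (∑' l, μ l • S ^ l) ∈ K) :
    ∀ l, μ l = 0 := by
  have h1 := h.low μ (-(∑' l, μ l • S ^ l)) hμ (K.neg_mem hmem)
  rw [add_neg_cancel, norm_zero, mul_zero] at h1
  intro l
  have h2 : |μ l| * om l ≤ ∑' l, |μ l| * om l :=
    hμ.le_tsum l fun j _ => mul_nonneg (abs_nonneg _) (om_pos j).le
  have h3 : |μ l| * om l ≤ 0 := h2.trans h1
  have h4 : |μ l| ≤ 0 := by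
    by_contra hcon
    push Not at hcon
    exact absurd h3 (not_le.2 (mul_pos hcon (om_pos l)))
  exact abs_nonpos_iff.1 h4

/-- series in a closed ideal -/
theorem RadAlg.tsum_mem {K : TwoSidedIdeal R} {S : R} (h : RadAlg K S)
    (I : TwoSidedIdeal R) (hI : IsClosed {x : R | x ∈ I}) {μ : ℕ → ℝ}
    (hμ : Summable fun l => |μ l| * om l) (hmem : ∀ l, μ l ≠ 0 → S ^ l ∈ I) :
    (∑' l, μ l • S ^ l) ∈ I := by
  have hterm : ∀ l, μ l • S ^ l ∈ I := by
    intro l
    by_cases hl : μ l = 0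
    · rw [hl, zero_smul]
      exact I.zero_mem
    · rw [Algebra.smul_def]
      exact I.mul_mem_left _ _ (hmem l hl)
  have hfin : ∀ s : Finset ℕ, ∑ l ∈ s, μ l • S ^ l ∈ I := by
    classical
    intro s
    induction s using Finset.induction_on with
    | empty => rw [Finset.sum_empty]; exact I.zero_mem
    | insert a s ha ih =>
      rw [Finset.sum_insert ha]
      exact I.add_mem (hterm a) ih
  exact hI.mem_of_tendsto (h.summable hμ).hasSum (Filter.Eventually.of_forall hfin)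

end Pool.Agent.MP0d518c
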