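import Pool.Agent.Lib.MP_0d518c_an.Par

/-! Task B1: elementary facts on the coordinates, `Q` and `S`. -/

namespace Pool.Agent.MP0d518c

open Finset Filter Topology

variable {T X : Type} [NormedAddCommGroup X] [NormedSpace ℝ X] (A : AHData T X)

namespace AHData

theorem Q_zero (x : X) : A.Q 0 x = 0 :=
  A.Q_eq_zero 0 x (fun _ hq => absurd hq (Nat.not_lt_zero _))

theorem eq_zero_of_ev {x : X} (h : ∀ q, A.ev q x = 0) : x = 0 := by
  have h1 := A.norm_le x 0 le_rfl (fun q => by simp [h q])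
  exact norm_le_zero_iff.mp h1

theorem norm_sub_Q_le (n : ℕ) (x : X) : ‖x - A.Q n x‖ ≤ 3 * ‖x‖ := by
  have h1 := norm_sub_le x (A.Q n x)
  have h2 := A.Q_norm n x
  linarith

theorem ev_Spow (τ : T) (k j : ℕ) (x : X) :
    A.ev (τ, k) ((A.S ^ j) x) = (om (k + j) / om k) * A.ev (τ, k + j) x := by
  induction j generalizing k with
  | zero => simp [(om_pos k).ne']
  | succ j ih =>
    have h1 : (A.S ^ (j + 1)) x = A.S ((A.S ^ j) x) := by
      rw [pow_succ', mul_apply_eq_comp]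
    rw [h1, A.ev_S, ih (k + 1)]
    have e : k + 1 + j = k + (j + 1) := by omega
    rw [e, ← mul_assoc]
    congr 1
    have h2 := (om_pos (k + 1)).ne'
    have h3 := (om_pos k).ne'
    field_simp

theorem norm_Spow (j : ℕ) (x : X) : ‖(A.S ^ j) x‖ ≤ om j * ‖x‖ := by
  refine A.norm_le _ _ (mul_nonneg (om_pos j).le (norm_nonneg _)) ?_
  rintro ⟨τ, k⟩
  rw [A.ev_Spow, abs_mul]
  have h1 : 0 ≤ om (k + j) / om k := div_nonneg (om_pos _).le (om_pos _).le
  rw [abs_of_nonneg h1]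
  exact mul_le_mul (om_div_le k j) (A.ev_le _ _) (abs_nonneg _) (om_pos j).le

theorem Q_Spow (j n : ℕ) (x : X) : A.Q n ((A.S ^ j) x) = (A.S ^ j) (A.Q n x) := by
  induction j generalizing x with
  | zero => simp
  | succ j ih =>
    have h1 : ∀ y, (A.S ^ (j + 1)) y = A.S ((A.S ^ j) y) := by
      intro y; rw [pow_succ', mul_apply_eq_comp]
    rw [h1, h1, A.Q_S, ih]

/-- a vector with ranks `< n` is killed by `S^j`, `j ≥ n` -/
theorem Spow_dead {n j : ℕ} {x : X} (hx : A.Q n x = x) (hj : n ≤ j) : (A.S ^ j) x = 0 := by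
  have h1 : A.Q n ((A.S ^ j) x) = (A.S ^ j) x := by rw [A.Q_Spow, hx]
  rw [← h1]
  apply A.Q_eq_zero
  rintro ⟨τ, k⟩ hq
  rw [A.ev_Spow, A.ev_dead (τ, k + j) x (by simp only at hq ⊢; omega), mul_zero]

/-- block vectors -/
theorem Blk.ev_lt {s t : ℕ} {x : X} (h : A.Blk s t x) {q : T × ℕ} (hq : A.rank q.1 < s) :
    A.ev q x = 0 := by
  rw [← A.ev_Q s q x hq, h.1, map_zero]

theorem Blk.Q_le {s t : ℕ} {x : X} (h : A.Blk s t x) {u : ℕ} (hu : u ≤ s) :
    A.Q u x = 0 := by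
  have h1 := A.Q_Q u s x
  rw [min_eq_left hu, h.1, map_zero] at h1
  exact h1.symm

theorem Blk.Q_ge {s t : ℕ} {x : X} (h : A.Blk s t x) {u : ℕ} (hu : t ≤ u) :
    A.Q u x = x := by
  have h1 := A.Q_Q u t x
  rw [min_eq_right hu, h.2] at h1
  exact h1

theorem Blk.Spow {s t : ℕ} {x : X} (h : A.Blk s t x) (j : ℕ) : A.Blk s t ((A.S ^ j) x) :=
  ⟨by rw [A.Q_Spow, h.1, map_zero], by rw [A.Q_Spow, h.2]⟩

theorem Blk.mono {s t s' t' : ℕ} {x : X} (h : A.Blk s t x) (hs : s' ≤ s) (ht : t ≤ t') :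
    A.Blk s' t' x :=
  ⟨Blk.Q_le A h hs, Blk.Q_ge A h ht⟩

theorem Blk.add {s t : ℕ} {x y : X} (h : A.Blk s t x) (h' : A.Blk s t y) :
    A.Blk s t (x + y) :=
  ⟨by rw [map_add, h.1, h'.1, add_zero], by rw [map_add, h.2, h'.2]⟩

theorem Blk.sub {s t : ℕ} {x y : X} (h : A.Blk s t x) (h' : A.Blk s t y) :
    A.Blk s t (x - y) :=
  ⟨by rw [map_sub, h.1, h'.1, sub_zero], by rw [map_sub, h.2, h'.2]⟩

theorem Blk.smul {s t : ℕ} {x : X} (h : A.Blk s t x) (c : ℝ) : A.Blk s t (c • x) :=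
  ⟨by rw [map_smul, h.1, smul_zero], by rw [map_smul, h.2]⟩

theorem Blk.sum {ι : Type} {s t : ℕ} {I : Finset ι} {x : ι → X}
    (h : ∀ i ∈ I, A.Blk s t (x i)) : A.Blk s t (∑ i ∈ I, x i) :=
  ⟨by rw [map_sum, Finset.sum_eq_zero (fun i hi => (h i hi).1)],
    by rw [map_sum, Finset.sum_congr rfl (fun i hi => (h i hi).2)]⟩

/-- cutting out the block `[s, t)` of an arbitrary vector -/
theorem blk_cut {s t : ℕ} (hst : s ≤ t) (x : X) : A.Blk s t (A.Q t x - A.Q s x) := by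
  constructor
  · rw [map_sub, A.Q_Q, A.Q_Q, min_eq_left hst, min_self, sub_self]
  · rw [map_sub, A.Q_Q, A.Q_Q, min_eq_right hst, min_self]

end AHData

end Pool.Agent.MP0d518c
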