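import Pool.Agent.Lib.MP_0d518c_an.B2

/-! Task B3: the functionals `dst q = d*_q`. -/

namespace Pool.Agent.MP0d518c

open Finset Filter Topology

variable {T X : Type} [NormedAddCommGroup X] [NormedSpace ℝ X] (A : AHData T X)

namespace AHData

private lemma lev_le (τ : T) : A.lev τ ≤ A.rank τ := by
  unfold TreeData.lev
  cases hp : A.prv τ with
  | none => simp
  | some ξ =>
    have := A.prv_rank τ ξ hp
    simp only [Option.elim]
    omega

theorem dst_Q_high {q : T × ℕ} {n : ℕ} (h : n ≤ A.rank q.1) (x : X) :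
    A.dst q (A.Q n x) = 0 := by
  have h1 : A.dst0 q.1 ((A.S ^ q.2) (A.Q n x)) = 0 := by
    rw [← A.Q_Spow]
    set y := (A.S ^ q.2) x
    unfold dst0
    rcases hw : A.wt q.1 with _ | i
    · rw [A.base q.1 n y hw h, A.base_prv q.1 hw]
      simp
    · have h2 := A.node q.1 i n y hw h
      have h3 : ((some i : Option ℕ).elim 0 fun i =>
          (mm i : ℝ)⁻¹ * A.pair (A.bb q.1) (A.Q n y - A.Q (A.lev q.1) (A.Q n y))) =
          (mm i : ℝ)⁻¹ * ∑ q' ∈ (A.bb q.1).support, A.bb q.1 q' *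
            A.ev q' (A.Q n y - A.Q (A.lev q.1) (A.Q n y)) := rfl
      rw [h3, h2]
      ring
  unfold dst
  rw [h1, mul_zero]

theorem dst_Q_low {q : T × ℕ} {n : ℕ} (h : A.rank q.1 < n) (x : X) :
    A.dst q (A.Q n x) = A.dst q x := by
  have h1 : A.dst0 q.1 ((A.S ^ q.2) (A.Q n x)) = A.dst0 q.1 ((A.S ^ q.2) x) := by
    rw [← A.Q_Spow]
    set y := (A.S ^ q.2) x
    unfold dst0
    have e1 : A.ev (q.1, 0) (A.Q n y) = A.ev (q.1, 0) y := A.ev_Q n (q.1, 0) y h
    have e2 : ((A.prv q.1).elim 0 fun ξ => A.ev (ξ, 0) (A.Q n y)) =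
        ((A.prv q.1).elim 0 fun ξ => A.ev (ξ, 0) y) := by
      cases hp : A.prv q.1 with
      | none => rfl
      | some ξ =>
        have := A.prv_rank q.1 ξ hp
        exact A.ev_Q n (ξ, 0) y (this.trans h)
    have e3 : A.pair (A.bb q.1) (A.Q n y - A.Q (A.lev q.1) (A.Q n y)) =
        A.pair (A.bb q.1) (y - A.Q (A.lev q.1) y) := by
      unfold pair
      apply Finset.sum_congr rfl
      intro q' hq'
      have h3 := A.bb_rank q.1 q' hq'
      have h4 := A.lev_le q.1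
      rw [A.Q_Q, min_eq_left (h4.trans h.le), map_sub, map_sub, A.ev_Q n q' y (h3.trans h)]
    rw [e1, e2, e3]
  unfold dst
  rw [h1]

private lemma dst0_add (τ : T) (x y : X) : A.dst0 τ (x + y) = A.dst0 τ x + A.dst0 τ y := by
  unfold dst0
  have e : x + y - A.Q (A.lev τ) (x + y) =
      (x - A.Q (A.lev τ) x) + (y - A.Q (A.lev τ) y) := by
    rw [map_add]; abel
  rw [e, A.pair_add]
  cases A.prv τ <;> cases A.wt τ <;> simp only [Option.elim, map_add] <;> ring

private lemma dst0_smul (τ : T) (c : ℝ) (x : X) : A.dst0 τ (c • x) = c * A.dst0 τ x := by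
  unfold dst0
  have e : c • x - A.Q (A.lev τ) (c • x) = c • (x - A.Q (A.lev τ) x) := by
    rw [map_smul, smul_sub]
  rw [e, A.pair_smul]
  cases A.prv τ <;> cases A.wt τ <;> simp only [Option.elim, map_smul, smul_eq_mul] <;> ring

theorem dst_add (q : T × ℕ) (x y : X) : A.dst q (x + y) = A.dst q x + A.dst q y := by
  unfold dst
  rw [map_add, A.dst0_add, mul_add]

theorem dst_smul (q : T × ℕ) (c : ℝ) (x : X) : A.dst q (c • x) = c * A.dst q x := by
  unfold dst
  rw [map_smul, A.dst0_smul]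
  ring

theorem dst_zero (q : T × ℕ) : A.dst q 0 = 0 := by
  have h := A.dst_smul q 0 0
  rwa [zero_smul, zero_mul] at h

theorem dst_sub (q : T × ℕ) (x y : X) : A.dst q (x - y) = A.dst q x - A.dst q y := by
  have h : x - y = x + (-1 : ℝ) • y := by rw [neg_one_smul, sub_eq_add_neg]
  rw [h, A.dst_add, A.dst_smul]
  ring

theorem dst_sum {ι : Type} (q : T × ℕ) (I : Finset ι) (x : ι → X) :
    A.dst q (∑ k ∈ I, x k) = ∑ k ∈ I, A.dst q (x k) := by
  classical
  induction I using Finset.induction_on with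
  | empty => simp [A.dst_zero]
  | insert a s ha ih => rw [Finset.sum_insert ha, Finset.sum_insert ha, A.dst_add, ih]

theorem abs_dst_le (q : T × ℕ) (x : X) : |A.dst q x| ≤ 3 * ‖x‖ := by
  have hx := norm_nonneg x
  rcases hw : A.wt q.1 with _ | i
  · have h1 := A.ev_base hw q.2 x
    have h2 := A.ev_le (q.1, q.2) x
    rw [h1] at h2
    change |A.dst (q.1, q.2) x| ≤ 3 * ‖x‖
    linarith
  · obtain ⟨b', hb1, -, -, hb⟩ := A.node_der hw q.2
    have h1 := hb x
    have h2 := A.ev_le (q.1, q.2) x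
    have h3 : |((A.prv q.1).elim 0 fun ξ => A.ev (ξ, q.2) x)| ≤ ‖x‖ := by
      cases A.prv q.1 with
      | none => simp
      | some ξ => exact A.ev_le (ξ, q.2) x
    have h4 := A.abs_pair_le_norm hb1 (x - A.Q (A.lev q.1) x)
    have h5 := A.norm_sub_Q_le (A.lev q.1) x
    have h6 := mm_inv_le_quarter i
    have h7 := mm_inv_pos i
    have h8 : |(mm i : ℝ)⁻¹ * A.pair b' (x - A.Q (A.lev q.1) x)| ≤ 1 / 4 * (3 * ‖x‖) := by
      rw [abs_mul, abs_of_pos h7]
      exact mul_le_mul h6 (h4.trans h5) (abs_nonneg _) (by norm_num)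
    have h9 : A.dst q x = A.ev (q.1, q.2) x - ((A.prv q.1).elim 0 fun ξ => A.ev (ξ, q.2) x) -
        (mm i : ℝ)⁻¹ * A.pair b' (x - A.Q (A.lev q.1) x) := by
      rw [h1]; ring
    rw [h9, abs_le]
    rw [abs_le] at h2 h3 h8
    constructor <;> linarith [h2.1, h2.2, h3.1, h3.2, h8.1, h8.2]

theorem Blk.dst_lt {s t : ℕ} {x : X} (h : A.Blk s t x) {q : T × ℕ} (hq : A.rank q.1 < s) :
    A.dst q x = 0 := by
  rw [← A.dst_Q_low hq, h.1, A.dst_zero]

theorem Blk.dst_ge {s t : ℕ} {x : X} (h : A.Blk s t x) {q : T × ℕ} (hq : t ≤ A.rank q.1) :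
    A.dst q x = 0 := by
  rw [← h.2]
  exact A.dst_Q_high hq x

end AHData

end Pool.Agent.MP0d518c
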