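import Pool.Agent.Lib.MP_0d518c_an.Par

/-! Task W1: elementary facts on the auxiliary norming set. -/

namespace Pool.Agent.MP0d518c

open Finset Filter Topology

theorem W_nonneg {P : ℕ → Prop} {f : ℕ → ℝ} (h : W P f) (k : ℕ) : 0 ≤ f k := by
  induction h generalizing k with
  | single k' =>
    by_cases hk : k = k'
    · subst hk; simp
    · simp [Pi.single_apply, hk]
  | node i hi L hlen hL hd ih =>
    refine mul_nonneg (mm_inv_pos i).le (List.sum_nonneg ?_)
    intro x hx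
    obtain ⟨f, hf, rfl⟩ := List.mem_map.1 hx
    exact ih f hf k

/-- for nonnegative, pairwise disjointly supported functions at most one value is nonzero -/
theorem sum_map_eq {L : List (ℕ → ℝ)} (hd : L.Pairwise (fun f g => ∀ k, f k = 0 ∨ g k = 0))
    (k : ℕ) : (L.map (fun f => f k)).sum = 0 ∨ ∃ f ∈ L, (L.map (fun f => f k)).sum = f k := by
  induction L with
  | nil => left; simp
  | cons f L ih =>
    rw [List.pairwise_cons] at hd
    rw [List.map_cons, List.sum_cons]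
    by_cases hf : f k = 0
    · rw [hf, zero_add]
      rcases ih hd.2 with h | ⟨g, hg, h⟩
      · exact Or.inl h
      · exact Or.inr ⟨g, List.mem_cons_of_mem _ hg, h⟩
    · right
      refine ⟨f, List.mem_cons_self, ?_⟩
      have h0 : (L.map (fun f => f k)).sum = 0 := by
        rcases ih hd.2 with h | ⟨g, hg, h⟩
        · exact h
        · rw [h]
          exact (hd.1 g hg k).resolve_left hf
      rw [h0, add_zero]

theorem W_le_one {P : ℕ → Prop} {f : ℕ → ℝ} (h : W P f) (k : ℕ) : f k ≤ 1 := by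
  induction h generalizing k with
  | single k' =>
    by_cases hk : k = k'
    · subst hk; simp
    · simp [Pi.single_apply, hk]
  | node i hi L hlen hL hd ih =>
    have h1 : (L.map (fun f => f k)).sum ≤ 1 := by
      rcases sum_map_eq hd k with h | ⟨g, hg, h⟩
      · rw [h]; exact zero_le_one
      · rw [h]; exact ih g hg k
    have h2 := mm_inv_le_quarter i
    have h3 := mm_inv_pos i
    show (mm i : ℝ)⁻¹ * (L.map (fun f => f k)).sum ≤ 1
    nlinarith

theorem WN_nonneg {P : ℕ → Prop} {i : ℕ} {g : ℕ → ℝ} (h : WN P i g) (k : ℕ) : 0 ≤ g k := by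
  obtain ⟨L, hlen, hL, hd, rfl⟩ := h
  refine mul_nonneg (mm_inv_pos i).le (List.sum_nonneg ?_)
  intro x hx
  obtain ⟨f, hf, rfl⟩ := List.mem_map.1 hx
  exact W_nonneg (hL f hf) k

theorem WBase_sum_le {P : ℕ → Prop} {L : List (ℕ → ℝ)} (hL : ∀ f ∈ L, W P f)
    (hd : L.Pairwise (fun f g => ∀ k, f k = 0 ∨ g k = 0)) (k : ℕ) :
    (L.map (fun f => f k)).sum ≤ 1 := by
  rcases sum_map_eq hd k with h | ⟨g, hg, h⟩
  · rw [h]; exact zero_le_one
  · rw [h]; exact W_le_one (hL g hg) k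

theorem WN_le {P : ℕ → Prop} {i : ℕ} {g : ℕ → ℝ} (h : WN P i g) (k : ℕ) :
    g k ≤ (mm i : ℝ)⁻¹ := by
  obtain ⟨L, hlen, hL, hd, rfl⟩ := h
  show (mm i : ℝ)⁻¹ * (L.map (fun f => f k)).sum ≤ (mm i : ℝ)⁻¹
  exact mul_le_of_le_one_right (mm_inv_pos i).le (WBase_sum_le hL hd k)

theorem WN.toW {P : ℕ → Prop} {i : ℕ} {g : ℕ → ℝ} (h : WN P i g) (hi : P i) : W P g := by
  obtain ⟨L, hlen, hL, hd, rfl⟩ := h
  exact W.node i hi L hlen hL hd

theorem WN_avg_le {P : ℕ → Prop} {i : ℕ} {g : ℕ → ℝ} (hg : WN P i g) (I : Finset ℕ) :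
    ∑ k ∈ I, g k ≤ (mm i : ℝ)⁻¹ * I.card := by
  calc ∑ k ∈ I, g k ≤ ∑ _k ∈ I, (mm i : ℝ)⁻¹ := Finset.sum_le_sum fun k _ => WN_le hg k
    _ = (mm i : ℝ)⁻¹ * I.card := by rw [Finset.sum_const, nsmul_eq_mul, mul_comm]

end Pool.Agent.MP0d518c
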