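import Pool.Agent.Lib.MP_0d518c_an.Chain

/-! Task BV1: the base vectors `y_n`. -/

namespace Pool.Agent.MP0d518c

open Finset Filter Topology

variable {T X : Type} [NormedAddCommGroup X] [NormedSpace ℝ X] (A : AHData T X)

namespace AHData

/-- the base vectors: `ev (τ,k) y = sgn τ k` for base nodes `τ` of rank `n` and `k ≤ n`, all other
coordinates of rank `≤ n` are zero -/
structure IsBase (A : AHData T X) (n : ℕ) (y : X) : Prop where
  blk : A.Blk n (n + 1) y
  nrm : ‖y‖ ≤ 2
  wtb : ∀ (q : T × ℕ) i, A.wt q.1 = some i → |A.ev q y| ≤ 8 * (mm i : ℝ)⁻¹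
  indep : ∀ μ : ℕ → ℝ, ∑ l ∈ Finset.range (n + 1), |μ l| * om l ≤
    ‖∑ l ∈ Finset.range (n + 1), μ l • (A.S ^ l) y‖

theorem exists_base (n : ℕ) : ∃ y : X, A.IsBase n y := by
  classical
  obtain ⟨y, hy1, hy2, hy3⟩ := A.ext (n + 1)
    (fun q => if A.rank q.1 = n ∧ A.wt q.1 = none then A.sgn q.1 q.2 else 0) 1 zero_le_one (by
      intro q
      split
      · exact A.sgn_le _ _
      · simp)
  rw [mul_one] at hy3
  have hzero : ∀ q : T × ℕ, A.rank q.1 < n + 1 → ¬ (A.rank q.1 = n ∧ A.wt q.1 = none) →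
      A.ev q y = 0 := by
    intro q hq hne
    by_cases hl : q.2 ≤ A.rank q.1
    · rw [hy2 q hq hl, if_neg hne]
    · exact A.ev_dead q y (by omega)
  refine ⟨y, ⟨?_, hy1⟩, hy3, ?_, ?_⟩
  · apply A.Q_eq_zero
    intro q hq
    exact hzero q (by omega) (fun h => by omega)
  · intro q i hw
    have hm := mm_inv_pos i
    rcases Nat.lt_or_ge (A.rank q.1) (n + 1) with h | h
    · rw [hzero q h (fun h => by rw [hw] at h; exact absurd h.2 (by simp)), abs_zero]
      positivity
    · have h1 := ev_Q_ge A hw h (x := y) le_rfl (by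
        intro q' hw' hq'
        rw [hzero q' hq' (fun h => by rw [hw'] at h; exact absurd h.2 (by simp)), abs_zero])
      rw [hy1, zero_add] at h1
      refine h1.trans ?_
      exact mul_le_mul_of_nonneg_right (by linarith) hm.le
  · intro μ
    obtain ⟨τ, hτ1, hτ2, hτ3⟩ := A.sat_base n (fun l => if 0 ≤ μ l then 1 else -1) (by
      intro k
      split
      · left; rfl
      · right; rfl)
    have h1 : A.ev (τ, 0) (∑ l ∈ Finset.range (n + 1), μ l • (A.S ^ l) y) =
        ∑ l ∈ Finset.range (n + 1), |μ l| * om l := by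
      rw [map_sum]
      refine Finset.sum_congr rfl fun l hl => ?_
      have hl' : l ≤ n := Nat.lt_succ_iff.1 (Finset.mem_range.1 hl)
      rw [map_smul, smul_eq_mul, ev_Spow, zero_add, om_zero, div_one]
      have h2 : A.ev (τ, l) y = A.sgn τ l := by
        have := hy2 (τ, l) (by
          change A.rank τ < n + 1
          omega) (by
          change l ≤ A.rank τ
          omega)
        rw [this, if_pos ⟨hτ2, hτ1⟩]
      rw [h2, hτ3 l hl']
      by_cases hμ : 0 ≤ μ l
      · rw [if_pos hμ, abs_of_nonneg hμ]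
        ring
      · rw [if_neg hμ, abs_of_neg (not_le.1 hμ)]
        ring
    rw [← h1]
    exact (le_abs_self _).trans (A.ev_le _ _)

end AHData

end Pool.Agent.MP0d518c
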