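import Pool.Agent.Lib.MP_0d518c_an.Basic

/-! Task BV2: the operators `Σ μ_l S^l`. -/

namespace Pool.Agent.MP0d518c

open Finset Filter Topology

variable {T X : Type} [NormedAddCommGroup X] [NormedSpace ℝ X] (A : AHData T X)

namespace AHData

theorem opNorm_Spow (j : ℕ) : ‖A.S ^ j‖ ≤ om j :=
  ContinuousLinearMap.opNorm_le_bound _ (om_pos j).le (A.norm_Spow j)

private theorem bv2_norm_smul (μ : ℕ → ℝ) (l : ℕ) : ‖μ l • A.S ^ l‖ ≤ |μ l| * om l := by
  rw [norm_smul, Real.norm_eq_abs]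
  exact mul_le_mul_of_nonneg_left (A.opNorm_Spow l) (abs_nonneg _)

/-- a summable series of powers of `S` converges in operator norm -/
theorem summable_Spow [CompleteSpace X] {μ : ℕ → ℝ} (hμ : Summable fun l => |μ l| * om l) :
    Summable fun l => μ l • A.S ^ l :=
  Summable.of_norm_bounded hμ (bv2_norm_smul A μ)

theorem tsum_apply_base [CompleteSpace X] {μ : ℕ → ℝ} (hμ : Summable fun l => |μ l| * om l)
    {n : ℕ} {x : X} (hx : A.Q (n + 1) x = x) :
    (∑' l, μ l • A.S ^ l) x = ∑ l ∈ Finset.range (n + 1), μ l • (A.S ^ l) x := by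
  have h1 : (∑' l, μ l • A.S ^ l) x = ∑' l, (μ l • A.S ^ l) x :=
    (ContinuousLinearMap.apply ℝ X x).map_tsum (A.summable_Spow hμ)
  rw [h1, tsum_eq_sum (s := Finset.range (n + 1))]
  · rfl
  · intro l hl
    rw [Finset.mem_range, not_lt] at hl
    show μ l • (A.S ^ l) x = 0
    rw [A.Spow_dead hx hl, smul_zero]

theorem norm_tsum_apply_le [CompleteSpace X] {μ : ℕ → ℝ} (hμ : Summable fun l => |μ l| * om l)
    (x : X) : ‖(∑' l, μ l • A.S ^ l) x‖ ≤ (∑' l, |μ l| * om l) * ‖x‖ := by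
  refine (ContinuousLinearMap.le_opNorm _ x).trans
    (mul_le_mul_of_nonneg_right ?_ (norm_nonneg x))
  exact tsum_of_norm_bounded hμ.hasSum (bv2_norm_smul A μ)

/-- members of `KA a x` -/
theorem KA_norm_le {a : ℝ} {x v : X} (hv : v ∈ A.KA a x) : ‖v‖ ≤ a * ‖x‖ := by
  obtain ⟨c, hc, rfl⟩ := hv
  calc ‖∑ l ∈ c.support, c l • (A.S ^ l) x‖ ≤ ∑ l ∈ c.support, ‖c l • (A.S ^ l) x‖ :=
        norm_sum_le _ _
    _ ≤ ∑ l ∈ c.support, (|c l| * om l) * ‖x‖ := by
        refine Finset.sum_le_sum fun l _ => ?_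
        rw [norm_smul, Real.norm_eq_abs, mul_assoc]
        exact mul_le_mul_of_nonneg_left (A.norm_Spow l x) (abs_nonneg _)
    _ = (∑ l ∈ c.support, |c l| * om l) * ‖x‖ := by rw [Finset.sum_mul]
    _ ≤ a * ‖x‖ := mul_le_mul_of_nonneg_right hc (norm_nonneg x)

/-- finitely supported coefficients acting on a vector of rank `≤ n` -/
theorem KA_sum_range {n : ℕ} {x : X} (hx : A.Q (n + 1) x = x) (c : ℕ →₀ ℝ) :
    ∑ l ∈ c.support, c l • (A.S ^ l) x = ∑ l ∈ Finset.range (n + 1), c l • (A.S ^ l) x := by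
  classical
  have h1 : ∑ l ∈ c.support, c l • (A.S ^ l) x
      = ∑ l ∈ c.support ∪ Finset.range (n + 1), c l • (A.S ^ l) x := by
    refine Finset.sum_subset Finset.subset_union_left fun l _ hl => ?_
    rw [Finsupp.notMem_support_iff.1 hl, zero_smul]
  have h2 : ∑ l ∈ Finset.range (n + 1), c l • (A.S ^ l) x
      = ∑ l ∈ c.support ∪ Finset.range (n + 1), c l • (A.S ^ l) x := by
    refine Finset.sum_subset Finset.subset_union_right fun l _ hl => ?_
    rw [Finset.mem_range, not_lt] at hl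
    rw [A.Spow_dead hx hl, smul_zero]
  rw [h1, h2]

end AHData

end Pool.Agent.MP0d518c
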