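import Pool.Agent.Lib.MP_0d518c_an.Basic

/-! Task BV3: RIS made of vectors with all weight estimates. -/

namespace Pool.Agent.MP0d518c

open Finset Filter Topology

variable {T X : Type} [NormedAddCommGroup X] [NormedSpace ℝ X] (A : AHData T X)

namespace AHData

/-- RIS made of vectors with all weight estimates -/
theorem ris_of_all {C : ℝ} {x : ℕ → X} {s t : ℕ → ℕ} (hb : ∀ k, A.Blk (s k) (t k) (x k))
    (hst : ∀ k, s k ≤ t k) (hts : ∀ k, t k ≤ s (k + 1)) (hn : ∀ k, ‖x k‖ ≤ C)
    (hw : ∀ k (q : T × ℕ) i, A.wt q.1 = some i → |A.ev q (x k)| ≤ C * (mm i : ℝ)⁻¹) :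
    ∀ N, A.RIS C N x s t (fun k => s k + k) := by
  have hmono : Monotone s := monotone_nat_of_le_succ fun k => (hst k).trans (hts k)
  have hsucc : ∀ k l, k < l → t k ≤ s l := fun k l hkl =>
    (hts k).trans (hmono hkl)
  intro N
  refine ⟨fun k _ => hb k, fun k l hkl _ => hsucc k l hkl, fun k _ => hn k,
    fun k l hkl _ => ?_, fun k l hkl _ => ?_, fun k _ q i hq _ => hw k q i hq⟩
  · have := hmono hkl.le
    show s k + k < s l + l
    omega
  · have := hsucc k l hkl
    show t k ≤ s l + l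
    omega

end AHData

end Pool.Agent.MP0d518c
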