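import Pool.Agent.Lib.MP_0d518c_an.Basic

/-! Task C2: coordinates of large weight index are small on vectors of small rank. -/

namespace Pool.Agent.MP0d518c

open Finset Filter Topology

variable {T X : Type} [NormedAddCommGroup X] [NormedSpace ℝ X] (A : AHData T X)

namespace AHData

private theorem C2_aux {i t : ℕ} (ht : t ≤ i) {x : X} (hx : A.Q t x = x) :
    ∀ (r : ℕ) (τ : T) (k : ℕ), A.rank τ = r → A.wt τ = some i →
      |A.ev (τ, k) x| ≤ (mm i : ℝ)⁻¹ * ‖x‖ := by
  intro r
  induction r using Nat.strong_induction_on with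
  | _ r ih =>
  intro τ k hr hw
  have hm : (0 : ℝ) ≤ (mm i : ℝ)⁻¹ := by positivity
  have hτ := A.wt_le τ i hw
  obtain ⟨b', hb1, -, -, hb4⟩ := A.node_der hw k
  have hd : A.dst (τ, k) x = 0 := by
    rw [← hx]
    exact A.dst_Q_high (q := (τ, k)) (by simp only; omega) x
  rw [hb4, hd, zero_add]
  rcases hp : A.prv τ with _ | ξ
  · have hl : A.lev τ = 0 := by
      unfold TreeData.lev
      rw [hp]
      rfl
    simp only [Option.elim]
    rw [hl, A.Q_zero, sub_zero, zero_add, abs_mul, abs_of_nonneg hm]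
    exact mul_le_mul_of_nonneg_left (A.abs_pair_le_norm hb1 x) hm
  · have hl : A.lev τ = A.rank ξ + 1 := by
      unfold TreeData.lev
      rw [hp]
      rfl
    have hξw : A.wt ξ = some i := (A.prv_wt τ ξ hp).trans hw
    have hξr := A.prv_rank τ ξ hp
    have hξi := A.wt_le ξ i hξw
    have e1 : A.Q (A.lev τ) x = x := by
      rw [hl, ← hx, A.Q_Q]
      congr 1
      congr 1
      omega
    simp only [Option.elim]
    rw [e1, sub_self, A.pair_zero, mul_zero, add_zero]
    exact ih (A.rank ξ) (by omega) ξ k rfl hξw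

/-- a coordinate of weight index `i ≥ t` is small on vectors of rank `< t` -/
theorem ev_small_rank {q : T × ℕ} {i t : ℕ} (hw : A.wt q.1 = some i) (ht : t ≤ i) {x : X}
    (hx : A.Q t x = x) : |A.ev q x| ≤ (mm i : ℝ)⁻¹ * ‖x‖ :=
  C2_aux A ht hx _ q.1 q.2 rfl hw

end AHData

end Pool.Agent.MP0d518c
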