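import Pool.Agent.Lib.MP_0d518c_an.Chain

/-! Task CP1: splitting a block vector by the weights of its local coordinates. -/

namespace Pool.Agent.MP0d518c

open Finset Filter Topology

variable {T X : Type} [NormedAddCommGroup X] [NormedSpace ℝ X] (A : AHData T X)

namespace AHData

private theorem CP1_local {t : ℕ} {y : X} (hy : A.Q t y = y) {i : ℕ}
    (h : ∀ q' : T × ℕ, A.wt q'.1 = some i → A.rank q'.1 < t → A.ev q' y = 0)
    {q : T × ℕ} (hw : A.wt q.1 = some i) : |A.ev q y| ≤ 4 * ‖y‖ * (mm i : ℝ)⁻¹ := by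
  rcases lt_or_ge (A.rank q.1) t with h1 | h1
  · rw [h q hw h1, abs_zero]
    positivity
  · have h2 := A.ev_Q_ge hw h1 (x := y) (c := 0) le_rfl (fun q' hw' hr' => by
      rw [h q' hw' hr', abs_zero])
    rw [hy] at h2
    linarith

theorem split_weight {s t : ℕ} {x : X} (hx : A.Blk s t x) (j : ℕ) :
    ∃ x' : X, A.Blk s t x' ∧ ‖x'‖ ≤ 2 * ‖x‖ ∧
      (∀ (q : T × ℕ) i, A.wt q.1 = some i → |A.ev q x'| ≤ 8 * mm j * ‖x‖ * (mm i : ℝ)⁻¹) ∧
      (∀ (q : T × ℕ) i, A.wt q.1 = some i → i ≤ j →
        |A.ev q (x - x')| ≤ 12 * ‖x‖ * (mm i : ℝ)⁻¹) := by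
  classical
  have hmm : ∀ i, (0 : ℝ) < mm i := fun i => by
    unfold mm
    positivity
  have hmm1 : ∀ i, (1 : ℝ) ≤ mm i := fun i => by
    have : 1 ≤ mm i := Nat.one_le_pow _ _ (by norm_num)
    exact_mod_cast this
  rcases le_or_gt s t with hst | hst
  · obtain ⟨x', h1, h2, h3⟩ := A.ext t
      (fun q => if A.rank q.1 < t ∧ (∀ i, A.wt q.1 = some i → i ≤ j) then A.ev q x else 0)
      ‖x‖ (norm_nonneg x) (fun q => by
        split_ifs
        · exact A.ev_le q x
        · rw [abs_zero]; exact norm_nonneg x)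
    have hxx : A.Q t x = x := hx.2
    refine ⟨x', ⟨?_, h1⟩, h3, ?_, ?_⟩
    · refine A.Q_eq_zero s x' fun q hq => ?_
      rcases le_or_gt q.2 (A.rank q.1) with h4 | h4
      · rw [h2 q (lt_of_lt_of_le hq hst) h4]
        split_ifs
        · exact Blk.ev_lt A hx hq
        · rfl
      · exact A.ev_dead q x' h4
    · intro q i hw
      rcases le_or_gt i j with hij | hij
      · have h4 : (mm i : ℝ) ≤ mm j := by
          have : mm i ≤ mm j :=
            Nat.pow_le_pow_right (by norm_num) (Nat.pow_le_pow_right (by norm_num) hij)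
          exact_mod_cast this
        have h5 : 1 ≤ mm j * (mm i : ℝ)⁻¹ := by
          rw [← div_eq_mul_inv, le_div_iff₀ (hmm i)]
          linarith
        calc |A.ev q x'| ≤ ‖x'‖ := A.ev_le q x'
          _ ≤ 2 * ‖x‖ := h3
          _ ≤ 8 * ‖x‖ * 1 := by linarith [norm_nonneg x]
          _ ≤ 8 * ‖x‖ * (mm j * (mm i : ℝ)⁻¹) :=
              mul_le_mul_of_nonneg_left h5 (by positivity)
          _ = 8 * mm j * ‖x‖ * (mm i : ℝ)⁻¹ := by ring
      · have h4 := CP1_local A h1 (i := i) (fun q' hw' hr' => by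
          rcases le_or_gt q'.2 (A.rank q'.1) with h4 | h4
          · rw [h2 q' hr' h4, if_neg]
            rintro ⟨-, h5⟩
            exact absurd (h5 i hw') (not_le.mpr hij)
          · exact A.ev_dead q' x' h4) hw
        have h5 : 4 * ‖x'‖ ≤ 8 * mm j * ‖x‖ := by
          nlinarith [norm_nonneg x, hmm1 j]
        exact h4.trans (mul_le_mul_of_nonneg_right h5 (inv_nonneg.mpr (hmm i).le))
    · intro q i hw hij
      have h4 := CP1_local A (t := t) (y := x - x') (by rw [map_sub, hxx, h1]) (i := i)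
        (fun q' hw' hr' => by
          rw [map_sub]
          rcases le_or_gt q'.2 (A.rank q'.1) with h4 | h4
          · rw [h2 q' hr' h4, if_pos, sub_self]
            refine ⟨hr', fun i' hi' => ?_⟩
            rw [hw'] at hi'
            rw [← Option.some_inj.mp hi']
            exact hij
          · rw [A.ev_dead q' x' h4, A.ev_dead q' x h4, sub_self]) hw
      have h5 : 4 * ‖x - x'‖ ≤ 12 * ‖x‖ := by
        have := norm_sub_le x x'
        linarith
      exact h4.trans (mul_le_mul_of_nonneg_right h5 (inv_nonneg.mpr (hmm i).le))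
  · have hx0 : x = 0 := by
      rw [← hx.2, ← Nat.min_eq_left hst.le, ← A.Q_Q, hx.1, map_zero]
    refine ⟨0, ⟨map_zero _, map_zero _⟩, ?_, ?_, ?_⟩
    · rw [norm_zero]; positivity
    · intro q i _
      rw [map_zero, abs_zero]
      have := hmm j
      have := hmm i
      positivity
    · intro q i _ _
      rw [hx0, sub_zero, map_zero, abs_zero, norm_zero]
      simp

end AHData

end Pool.Agent.MP0d518c
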