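import Pool.Agent.Lib.MP_0d518c_an.CP1
import Pool.Agent.Lib.MP_0d518c_an.BV3

/-! Task CP2: an operator killing every RIS kills every bounded block sequence. -/

namespace Pool.Agent.MP0d518c

open Finset Filter Topology

variable {T X : Type} [NormedAddCommGroup X] [NormedSpace ℝ X] (A : AHData T X)

namespace AHData

theorem block_null (V : X →L[ℝ] X)
    (h : ∀ (C : ℝ) (x : ℕ → X) (s t j : ℕ → ℕ), (∀ N, A.RIS C N x s t j) →
      Tendsto (fun k => V (x k)) atTop (𝓝 0)) {C : ℝ} {x : ℕ → X} {s t : ℕ → ℕ}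
    (hb : ∀ k, A.Blk (s k) (t k) (x k)) (hst : ∀ k, s k ≤ t k) (hts : ∀ k, t k ≤ s (k + 1))
    (hn : ∀ k, ‖x k‖ ≤ C) : Tendsto (fun k => V (x k)) atTop (𝓝 0) := by
  have hC : 0 ≤ C := le_trans (norm_nonneg _) (hn 0)
  by_contra hcon
  rw [Metric.tendsto_atTop] at hcon
  push Not at hcon
  obtain ⟨ε, hε, hbig⟩ := hcon
  simp only [dist_zero_right] at hbig
  -- the splittings
  have hsp := fun (j k : ℕ) => A.split_weight (hb k) j
  choose x' hx'b hx'n hx'w hx'd using hsp
  -- for fixed `j` the vectors `x' j k` form an RIS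
  have hnull : ∀ j, Tendsto (fun k => V (x' j k)) atTop (𝓝 0) := by
    intro j
    have hm4 : (4 : ℝ) ≤ mm j := by exact_mod_cast four_le_mm j
    refine h (8 * mm j * C) (x' j) s t (fun k => s k + k) ?_
    refine A.ris_of_all (fun k => hx'b j k) hst hts ?_ ?_
    · intro k
      have h1 := hx'n j k
      have h2 := hn k
      nlinarith
    · intro k q i hq
      refine (hx'w j k q i hq).trans ?_
      have h3 : 0 ≤ (mm i : ℝ)⁻¹ := (mm_inv_pos i).le
      refine mul_le_mul_of_nonneg_right ?_ h3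
      have h2 := hn k
      exact mul_le_mul_of_nonneg_left h2 (by positivity)
  -- choice of the next index
  have hch : ∀ j M : ℕ, ∃ k, M ≤ k ∧ ε ≤ ‖V (x k)‖ ∧ ‖V (x' j k)‖ < ε / 2 := by
    intro j M
    have h1 := hnull j
    rw [Metric.tendsto_atTop] at h1
    obtain ⟨N, hN⟩ := h1 (ε / 2) (by positivity)
    obtain ⟨k, hk, hk2⟩ := hbig (max M N)
    refine ⟨k, le_trans (le_max_left _ _) hk, hk2, ?_⟩
    have := hN k (le_trans (le_max_right _ _) hk)
    simpa using this
  choose κ hκM hκbig hκsmall using hch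
  let st : ℕ → ℕ × ℕ := fun r => Nat.rec (0, κ 0 0)
    (fun _ p => (max (t p.2) p.1 + 1, κ (max (t p.2) p.1 + 1) (p.2 + 1))) r
  let jr : ℕ → ℕ := fun r => (st r).1
  let kr : ℕ → ℕ := fun r => (st r).2
  have hj_succ : ∀ r, jr (r + 1) = max (t (kr r)) (jr r) + 1 := fun r => rfl
  have hk_succ : ∀ r, kr (r + 1) = κ (jr (r + 1)) (kr r + 1) := fun r => rfl
  have hk_all : ∀ r, ε ≤ ‖V (x (kr r))‖ ∧ ‖V (x' (jr r) (kr r))‖ < ε / 2 := by
    intro r
    cases r with
    | zero => exact ⟨hκbig 0 0, hκsmall 0 0⟩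
    | succ r => rw [hk_succ]; exact ⟨hκbig _ _, hκsmall _ _⟩
  have hjmono : StrictMono jr := by
    refine strictMono_nat_of_lt_succ fun r => ?_
    rw [hj_succ]
    have := le_max_right (t (kr r)) (jr r)
    omega
  have hkmono : StrictMono kr := by
    refine strictMono_nat_of_lt_succ fun r => ?_
    rw [hk_succ]
    have := hκM (jr (r + 1)) (kr r + 1)
    omega
  have hsmono : Monotone s := monotone_nat_of_le_succ fun k => (hst k).trans (hts k)
  have hris : ∀ N, A.RIS (12 * C) N (fun r => x (kr r) - x' (jr r) (kr r))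
      (fun r => s (kr r)) (fun r => t (kr r)) jr := by
    intro N
    refine ⟨?_, ?_, ?_, ?_, ?_, ?_⟩
    · intro k _
      exact AHData.Blk.sub A (hb _) (hx'b _ _)
    · intro k l hkl _
      have h1 : kr k + 1 ≤ kr l := hkmono hkl
      exact (hts (kr k)).trans (hsmono h1)
    · intro k _
      have h1 := hx'n (jr k) (kr k)
      have h2 := hn (kr k)
      have h3 := norm_sub_le (x (kr k)) (x' (jr k) (kr k))
      have h4 := norm_nonneg (x (kr k))
      linarith
    · intro k l hkl _
      exact hjmono hkl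
    · intro k l hkl _
      have h1 : jr (k + 1) ≤ jr l := hjmono.monotone hkl
      have h2 := hj_succ k
      have h3 := le_max_left (t (kr k)) (jr k)
      show t (kr k) ≤ jr l
      omega
    · intro k _ q i hq hi
      refine (hx'd (jr k) (kr k) q i hq hi.le).trans ?_
      have h3 : 0 ≤ (mm i : ℝ)⁻¹ := (mm_inv_pos i).le
      refine mul_le_mul_of_nonneg_right ?_ h3
      have h2 := hn (kr k)
      linarith
  have hfin := h (12 * C) _ _ _ _ hris
  rw [Metric.tendsto_atTop] at hfin
  obtain ⟨N, hN⟩ := hfin (ε / 2) (by positivity)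
  have h1 := hN N le_rfl
  rw [dist_zero_right, map_sub] at h1
  obtain ⟨h2, h3⟩ := hk_all N
  have h4 := norm_sub_norm_le (V (x (kr N))) (V (x' (jr N) (kr N)))
  linarith

end AHData

end Pool.Agent.MP0d518c
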