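import Pool.Agent.Lib.MP_0d518c_an.CP2
import Pool.Agent.Lib.MP_0d518c_an.R4

/-! Task CP3: operators that kill all RIS are compact. -/

namespace Pool.Agent.MP0d518c

open Finset Filter Topology

variable {T X : Type} [NormedAddCommGroup X] [NormedSpace ℝ X] (A : AHData T X)

namespace AHData

private theorem cpt_tendsto (V : X →L[ℝ] X)
    (h : ∀ (C : ℝ) (x : ℕ → X) (s t j : ℕ → ℕ), (∀ N, A.RIS C N x s t j) →
      Tendsto (fun k => V (x k)) atTop (𝓝 0)) :
    Tendsto (fun n => V.comp (A.Q n)) atTop (𝓝 V) := by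
  by_contra hcon
  rw [Metric.tendsto_atTop] at hcon
  push Not at hcon
  obtain ⟨ε, hε, hcon⟩ := hcon
  have hex : ∀ N : ℕ, ∃ (n m : ℕ) (v : X), N ≤ n ∧ n ≤ m ∧ A.Blk n m v ∧ ‖v‖ ≤ 4 ∧
      ε / 2 < ‖V v‖ := by
    intro N
    obtain ⟨n, hn, hd⟩ := hcon N
    rw [dist_eq_norm, norm_sub_rev] at hd
    obtain ⟨x, hx1, hx2⟩ := ContinuousLinearMap.exists_lt_apply_of_lt_opNorm
      (V - V.comp (A.Q n)) (show ε / 2 < ‖V - V.comp (A.Q n)‖ by linarith)
    have hx3 : ε / 2 < ‖V (x - A.Q n x)‖ := by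
      rw [map_sub]
      exact hx2
    have h1 : Tendsto (fun m => ‖V (A.Q m x - A.Q n x)‖) atTop (𝓝 ‖V (x - A.Q n x)‖) :=
      ((V.continuous.tendsto _).comp ((A.Q_tendsto x).sub_const (A.Q n x))).norm
    obtain ⟨m, hm1, hm2⟩ := ((h1.eventually (lt_mem_nhds hx3)).and
      (eventually_ge_atTop n)).exists
    refine ⟨n, m, A.Q m x - A.Q n x, hn, hm2, A.blk_cut hm2 x, ?_, hm1⟩
    have h2 := A.Q_norm m x
    have h3 := A.Q_norm n x
    have h4 := norm_sub_le (A.Q m x) (A.Q n x)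
    linarith
  choose fn fm fv h1 h2 h3 h4 h5 using hex
  -- the recursion
  let B : ℕ → ℕ := fun k => Nat.rec 0 (fun _ b => fm b) k
  have hB : ∀ k, B (k + 1) = fm (B k) := fun k => rfl
  have hnull := A.block_null V h (x := fun k => fv (B k)) (s := fun k => fn (B k))
    (t := fun k => fm (B k)) (C := 4) (fun k => h3 _) (fun k => h2 _)
    (fun k => by
      have := h1 (B (k + 1))
      rw [hB] at this
      exact this) (fun k => h4 _)
  rw [Metric.tendsto_atTop] at hnull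
  obtain ⟨N, hN⟩ := hnull (ε / 2) (by linarith)
  have h6 := hN N le_rfl
  rw [dist_zero_right] at h6
  exact absurd h6 (not_lt.2 (h5 (B N)).le)

theorem compact_of_ris [CompleteSpace X] (V : X →L[ℝ] X)
    (h : ∀ (C : ℝ) (x : ℕ → X) (s t j : ℕ → ℕ), (∀ N, A.RIS C N x s t j) →
      Tendsto (fun k => V (x k)) atTop (𝓝 0)) : IsCompactOperator V :=
  (isClosed_setOfPred_isCompactOperator (𝕜₁ := ℝ) (𝕜₂ := ℝ) (σ₁₂ := RingHom.id ℝ) (M₁ := X)
    (M₂ := X)).mem_of_tendsto (A.cpt_tendsto V h)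
    (Eventually.of_forall fun n => A.compact_comp_Q V n)

end AHData

end Pool.Agent.MP0d518c
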