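import Pool.Agent.Lib.MP_0d518c_an.DH2

/-! Task DC2: lower bound on dependent sequences. -/

namespace Pool.Agent.MP0d518c

open Finset Filter Topology

variable {T X : Type} [NormedAddCommGroup X] [NormedSpace ℝ X] (A : AHData T X)

namespace AHData

/-- lower bound: `ev (ξ_(n-1), 0)` applied to `V Σ z_i` -/
theorem Dep.lower {V : X →L[ℝ] X} {C κ δ ε : ℝ} (hε : 0 ≤ ε) {w n : ℕ} (hn : 0 < n)
    {z : ℕ → X} {η ξ : ℕ → T} {s t jj : ℕ → ℕ} (h : A.Dep C κ w n z η ξ s t jj)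
    (hV : ∀ i < n, δ ≤ A.ev (η i, 0) (V (z i)) ∧ ‖A.Q (s i) (V (z i))‖ ≤ ε ∧
        ‖V (z i) - A.Q (t i) (V (z i))‖ ≤ ε) :
    n * ((mm w : ℝ)⁻¹ * δ - 8 * ε) ≤ A.ev (ξ (n - 1), 0) (V (∑ i ∈ Finset.range n, z i)) := by
  have hminv : (0 : ℝ) < (mm w : ℝ)⁻¹ := mm_inv_pos w
  have hmq : (mm w : ℝ)⁻¹ ≤ 1 / 4 := mm_inv_le_quarter w
  have key : ∀ i < n, (mm w : ℝ)⁻¹ * δ - 8 * ε ≤ A.ev (ξ (n - 1), 0) (V (z i)) := by
    intro i hi
    obtain ⟨h1, h2, h3⟩ := hV i hi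
    set y := V (z i) with hy
    have hb := A.blk_cut (h.s_le_t i hi) y
    have e1 := h.seq_eval A (show i ≤ n - 1 by omega) (show n - 1 < n by omega) hb 0
    have e2 : A.ev (ξ (n - 1), 0) y = A.ev (ξ (n - 1), 0) (A.Q (t i) y - A.Q (s i) y) +
        A.ev (ξ (n - 1), 0) (A.Q (s i) y) + A.ev (ξ (n - 1), 0) (y - A.Q (t i) y) := by
      rw [← map_add, ← map_add]
      congr 1; abel
    have e3 : A.ev (η i, 0) (A.Q (t i) y - A.Q (s i) y) = A.ev (η i, 0) y -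
        A.ev (η i, 0) (A.Q (s i) y) - A.ev (η i, 0) (y - A.Q (t i) y) := by
      rw [← map_sub, ← map_sub]
      congr 1; abel
    have b1 := abs_le.1 ((A.ev_le (ξ (n - 1), 0) (A.Q (s i) y)).trans h2)
    have b2 := abs_le.1 ((A.ev_le (ξ (n - 1), 0) (y - A.Q (t i) y)).trans h3)
    have b3 := abs_le.1 ((A.ev_le (η i, 0) (A.Q (s i) y)).trans h2)
    have b4 := abs_le.1 ((A.ev_le (η i, 0) (y - A.Q (t i) y)).trans h3)
    have e4 : (mm w : ℝ)⁻¹ * (δ - 2 * ε) ≤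
        (mm w : ℝ)⁻¹ * A.ev (η i, 0) (A.Q (t i) y - A.Q (s i) y) := by
      apply mul_le_mul_of_nonneg_left _ hminv.le
      rw [e3]; linarith [b3.2, b4.2]
    have e5 : (mm w : ℝ)⁻¹ * ε ≤ ε := by
      calc (mm w : ℝ)⁻¹ * ε ≤ 1 * ε := by gcongr; linarith
        _ = ε := one_mul _
    rw [e2, e1]
    nlinarith [b1.1, b2.1]
  rw [map_sum, map_sum]
  calc (n : ℝ) * ((mm w : ℝ)⁻¹ * δ - 8 * ε) = ∑ i ∈ Finset.range n, ((mm w : ℝ)⁻¹ * δ - 8 * ε) := by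
        rw [Finset.sum_const, Finset.card_range, nsmul_eq_mul]
    _ ≤ _ := Finset.sum_le_sum (fun i hi => key i (Finset.mem_range.1 hi))

end AHData

end Pool.Agent.MP0d518c
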