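import Pool.Agent.Lib.MP_0d518c_an.DH2

/-! Task DH3: coordinates of weight `m_w` on a dependent sequence. -/

namespace Pool.Agent.MP0d518c

open Finset Filter Topology

variable {T X : Type} [NormedAddCommGroup X] [NormedSpace ℝ X] (A : AHData T X)

namespace AHData

private lemma DH3_sum_one {J : Finset ℕ} {f : ℕ → ℝ} {c : ℝ} (hc : 0 ≤ c)
    (h1 : ∀ i ∈ J, |f i| ≤ c) (h2 : ∀ i ∈ J, ∀ j ∈ J, f i ≠ 0 → f j ≠ 0 → i = j) :
    |∑ i ∈ J, f i| ≤ c := by
  by_cases hz : ∀ i ∈ J, f i = 0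
  · rw [Finset.sum_eq_zero hz, abs_zero]; exact hc
  · push Not at hz
    obtain ⟨i, hi, hfi⟩ := hz
    rw [Finset.sum_eq_single i]
    · exact h1 i hi
    · intro j hj hji
      by_contra hfj
      exact hji (h2 j hj i hi hfj hfi)
    · intro h; exact absurd hi h

private lemma DH3_sum_exc {J : Finset ℕ} {f : ℕ → ℝ} {C c : ℝ} (hC : 0 ≤ C) (hc : 0 ≤ c)
    (p : ℕ → Prop) (h1 : ∀ i ∈ J, p i → |f i| ≤ C) (h2 : ∀ i ∈ J, ¬ p i → |f i| ≤ c)
    (h3 : ∀ i ∈ J, ∀ j ∈ J, p i → p j → i = j) :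
    |∑ i ∈ J, f i| ≤ C + J.card * c := by
  classical
  rw [← Finset.sum_filter_add_sum_filter_not J p]
  refine (abs_add_le _ _).trans (add_le_add ?_ ?_)
  · by_cases hz : ∃ i ∈ J, p i
    · obtain ⟨i, hi, hpi⟩ := hz
      have h4 : J.filter p = {i} := by
        ext j
        rw [Finset.mem_filter, Finset.mem_singleton]
        constructor
        · rintro ⟨hj, hpj⟩; exact h3 j hj i hi hpj hpi
        · rintro rfl; exact ⟨hi, hpi⟩
      rw [h4, Finset.sum_singleton]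
      exact h1 i hi hpi
    · push Not at hz
      rw [Finset.filter_false_of_mem hz, Finset.sum_empty, abs_zero]
      exact hC
  · refine (Finset.abs_sum_le_sum_abs _ _).trans ?_
    have h5 : ∑ i ∈ J.filter (fun i => ¬ p i), |f i| ≤ ∑ i ∈ J.filter (fun i => ¬ p i), c := by
      refine Finset.sum_le_sum fun i hi => ?_
      rw [Finset.mem_filter] at hi
      exact h2 i hi.1 hi.2
    refine h5.trans ?_
    rw [Finset.sum_const, nsmul_eq_mul]
    refine mul_le_mul_of_nonneg_right ?_ hc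
    exact_mod_cast Finset.card_filter_le _ _

private lemma DH3_claim {C κ : ℝ} (hC : 1 ≤ C) {w n : ℕ} (hκ : κ ≤ ((nn w : ℝ))⁻¹) {z : ℕ → X}
    {η ξ : ℕ → T} {s t jj : ℕ → ℕ} (h : A.Dep C κ w n z η ξ s t jj) :
    ∀ (R : ℕ) (τ : T), A.rank τ = R → A.wt τ = some w → ∀ (l : ℕ) (J : Finset ℕ),
      J ⊆ Finset.range n → |A.ev (τ, l) (∑ i ∈ J, z i)| ≤ (mm w : ℝ)⁻¹ + 2 * C * (mm w : ℝ)⁻¹ +
        (A.age τ : ℝ) * (C * ((nn w : ℝ)⁻¹) ^ 2 + C * (mm w : ℝ)⁻¹ * (nn w : ℝ)⁻¹) := by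
  have hris := Dep.ris A h
  have hm : (0 : ℝ) < (mm w : ℝ)⁻¹ := mm_inv_pos w
  have hNpos : (0 : ℝ) < (nn w : ℝ) := by exact_mod_cast nn_pos w
  have hN : (0 : ℝ) < (nn w : ℝ)⁻¹ := inv_pos.2 hNpos
  have hN1 : (nn w : ℝ) * (nn w : ℝ)⁻¹ = 1 := mul_inv_cancel₀ hNpos.ne'
  have hNle : (nn w : ℝ)⁻¹ ≤ 1 := inv_le_one_of_one_le₀ (by exact_mod_cast nn_pos w)
  have hC0 : 0 < C := lt_of_lt_of_le one_pos hC
  have hlarge : ∀ a : ℕ, nn w ^ 2 < mm a → C * (mm a : ℝ)⁻¹ ≤ C * ((nn w : ℝ)⁻¹) ^ 2 := by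
    intro a ha
    refine mul_le_mul_of_nonneg_left ?_ hC0.le
    have h1 : ((nn w : ℝ)) ^ 2 ≤ mm a := by exact_mod_cast ha.le
    rw [inv_pow]
    exact inv_anti₀ (by positivity) h1
  intro R
  induction R using Nat.strong_induction_on with
  | _ R ih =>
    intro τ hτ hw l J hJ
    have hagepos : (1 : ℝ) ≤ A.age τ := by exact_mod_cast A.age_pos τ w hw
    set E : ℝ := C * ((nn w : ℝ)⁻¹) ^ 2 + C * (mm w : ℝ)⁻¹ * (nn w : ℝ)⁻¹ with hE
    have hE0 : 0 ≤ E := by positivity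
    by_cases hseq : ∃ r < n, τ = ξ r
    · obtain ⟨r, hr, rfl⟩ := hseq
      have h1 := Dep.bound_in A hκ h hr l J hJ
      have h2 : 0 ≤ (A.age (ξ r) : ℝ) * E := by positivity
      have h3 : 0 ≤ 2 * C * (mm w : ℝ)⁻¹ := by positivity
      linarith
    · obtain ⟨η', h', hb, hη', hp0, hp1⟩ := A.odd_eta τ w hw h.odd
      have hlh' : nn w ^ 2 < mm h' := odd_wt_large A.toTreeData hw h.odd hb hη'
      -- the derived coordinate
      have hdst : |A.dst (τ, l) (∑ i ∈ J, z i)| ≤ C * ((nn w : ℝ)⁻¹) ^ 2 := by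
        rw [dst_sum]
        refine DH3_sum_one (by positivity) ?_ ?_
        · intro i hi
          have hi' := Finset.mem_range.1 (hJ hi)
          exact ((h.exact i hi').dst (τ, l)).trans (hlarge _ (Dep.jj_large A h i hi'))
        · intro i hi j hj hfi hfj
          have hi' := Finset.mem_range.1 (hJ hi)
          have hj' := Finset.mem_range.1 (hJ hj)
          have key : ∀ a < n, A.dst (τ, l) (z a) ≠ 0 → s a ≤ A.rank τ ∧ A.rank τ < t a := by
            intro a ha hfa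
            constructor
            · by_contra hcon
              push Not at hcon
              exact hfa (Blk.dst_lt A (h.exact a ha).blk hcon)
            · by_contra hcon
              push Not at hcon
              exact hfa (Blk.dst_ge A (h.exact a ha).blk hcon)
          have ki := key i hi' hfi
          have kj := key j hj' hfj
          rcases lt_trichotomy i j with hlt | heq | hgt
          · have := hris.succ i j hlt hj'; omega
          · exact heq
          · have := hris.succ j i hgt hi'; omega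
      -- the third term
      have hterm : A.ev (η', l) ((∑ i ∈ J, z i) - A.Q (A.lev τ) (∑ i ∈ J, z i))
          = ∑ i ∈ J, A.ev (η', l) (z i - A.Q (A.lev τ) (z i)) := by
        rw [map_sum, ← Finset.sum_sub_distrib, map_sum]
      have hne : ∀ i ∈ J, jj i ≠ h' →
          |A.ev (η', l) (z i - A.Q (A.lev τ) (z i))| ≤ C * ((nn w : ℝ)⁻¹) ^ 2 := by
        intro i hi hij
        have hi' := Finset.mem_range.1 (hJ hi)
        rcases lt_or_gt_of_ne hij with hlt | hgt
        · exact ((h.exact i hi').gt (η', l) h' (A.lev τ) hη' hlt).trans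
            (hlarge _ (Dep.jj_large A h i hi'))
        · exact ((h.exact i hi').lt (η', l) h' (A.lev τ) hη' hgt).trans (hlarge _ hlh')
      have hcard : (J.card : ℝ) ≤ nn w := by
        have h1 := Finset.card_le_card hJ
        rw [Finset.card_range] at h1
        exact_mod_cast h1.trans h.len
      have hcard2 : (J.card : ℝ) * (C * ((nn w : ℝ)⁻¹) ^ 2) ≤ C * (nn w : ℝ)⁻¹ := by
        calc (J.card : ℝ) * (C * ((nn w : ℝ)⁻¹) ^ 2)
            ≤ (nn w : ℝ) * (C * ((nn w : ℝ)⁻¹) ^ 2) :=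
              mul_le_mul_of_nonneg_right hcard (by positivity)
          _ = C * (nn w : ℝ)⁻¹ * ((nn w : ℝ) * (nn w : ℝ)⁻¹) := by ring
          _ = C * (nn w : ℝ)⁻¹ := by rw [hN1, mul_one]
      have hthird : |A.ev (η', l) ((∑ i ∈ J, z i) - A.Q (A.lev τ) (∑ i ∈ J, z i))| ≤ 2 * C := by
        rw [hterm]
        have h1 := DH3_sum_exc (J := J)
          (f := fun i => A.ev (η', l) (z i - A.Q (A.lev τ) (z i))) (C := C)
          (c := C * ((nn w : ℝ)⁻¹) ^ 2) hC0.le (by positivity) (fun i => jj i = h')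
          (fun i hi _ => (h.exact i (Finset.mem_range.1 (hJ hi))).all _ _)
          (fun i hi hp => hne i hi hp)
          (fun i hi j hj hpi hpj => by
            have hi' := Finset.mem_range.1 (hJ hi)
            have hj' := Finset.mem_range.1 (hJ hj)
            rcases lt_trichotomy i j with hlt | heq | hgt
            · have := hris.jmono i j hlt hj'; omega
            · exact heq
            · have := hris.jmono j i hgt hi'; omega)
        have h2 : C * (nn w : ℝ)⁻¹ ≤ C := by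
          calc C * (nn w : ℝ)⁻¹ ≤ C * 1 := mul_le_mul_of_nonneg_left hNle hC0.le
            _ = C := mul_one C
        linarith
      have hnode := node_single A hw hb l (∑ i ∈ J, z i)
      have hthird' : |(mm w : ℝ)⁻¹ * A.ev (η', l) ((∑ i ∈ J, z i) - A.Q (A.lev τ) (∑ i ∈ J, z i))|
          ≤ 2 * C * (mm w : ℝ)⁻¹ := by
        rw [abs_mul, abs_of_pos hm]
        calc (mm w : ℝ)⁻¹ * |A.ev (η', l) ((∑ i ∈ J, z i) - A.Q (A.lev τ) (∑ i ∈ J, z i))|
            ≤ (mm w : ℝ)⁻¹ * (2 * C) := mul_le_mul_of_nonneg_left hthird hm.le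
          _ = _ := by ring
      have hageE : E ≤ (A.age τ : ℝ) * E := le_mul_of_one_le_left hE0 hagepos
      have hCE : C * ((nn w : ℝ)⁻¹) ^ 2 ≤ E := by
        rw [hE]; have : 0 ≤ C * (mm w : ℝ)⁻¹ * (nn w : ℝ)⁻¹ := by positivity
        linarith
      rcases hprv : A.prv τ with _ | ξ'
      · rw [hprv] at hnode
        simp only [Option.elim_none, add_zero] at hnode
        rw [hnode]
        have h1 := abs_add_le (A.dst (τ, l) (∑ i ∈ J, z i))
          ((mm w : ℝ)⁻¹ * A.ev (η', l) ((∑ i ∈ J, z i) - A.Q (A.lev τ) (∑ i ∈ J, z i)))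
        linarith
      · rw [hprv] at hnode
        simp only [Option.elim_some] at hnode
        have hwξ : A.wt ξ' = some w := (A.prv_wt τ ξ' hprv).trans hw
        rw [hnode]
        have h1 := abs_add_le (A.dst (τ, l) (∑ i ∈ J, z i) + A.ev (ξ', l) (∑ i ∈ J, z i))
          ((mm w : ℝ)⁻¹ * A.ev (η', l) ((∑ i ∈ J, z i) - A.Q (A.lev τ) (∑ i ∈ J, z i)))
        have h2 := abs_add_le (A.dst (τ, l) (∑ i ∈ J, z i)) (A.ev (ξ', l) (∑ i ∈ J, z i))
        by_cases hin : ∃ r < n, ξ' = ξ r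
        · obtain ⟨r, hr, rfl⟩ := hin
          have h3 := Dep.bound_in A hκ h hr l J hJ
          linarith
        · have h3 := ih (A.rank ξ') (by rw [← hτ]; exact A.prv_rank τ ξ' hprv) ξ' rfl hwξ l J hJ
          have hh' : h' = 4 * A.code ξ' := hp1 ξ' hprv
          have hnej : ∀ i ∈ J, jj i ≠ h' := by
            intro i hi hij
            have hi' := Finset.mem_range.1 (hJ hi)
            rcases i with _ | i
            · have := (h.jj_zero (by omega)).1
              omega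
            · have h4 := h.jj_succ i hi'
              have h5 : A.code (ξ i) = A.code ξ' := by omega
              exact hin ⟨i, by omega, (A.code_inj h5).symm⟩
          have h6 : |A.ev (η', l) ((∑ i ∈ J, z i) - A.Q (A.lev τ) (∑ i ∈ J, z i))|
              ≤ C * (nn w : ℝ)⁻¹ := by
            rw [hterm]
            refine (Finset.abs_sum_le_sum_abs _ _).trans ?_
            refine (Finset.sum_le_sum fun i hi => hne i hi (hnej i hi)).trans ?_
            rw [Finset.sum_const, nsmul_eq_mul]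
            exact hcard2
          have h7 : |(mm w : ℝ)⁻¹ *
              A.ev (η', l) ((∑ i ∈ J, z i) - A.Q (A.lev τ) (∑ i ∈ J, z i))|
              ≤ C * (mm w : ℝ)⁻¹ * (nn w : ℝ)⁻¹ := by
            rw [abs_mul, abs_of_pos hm]
            calc (mm w : ℝ)⁻¹ *
                |A.ev (η', l) ((∑ i ∈ J, z i) - A.Q (A.lev τ) (∑ i ∈ J, z i))|
                ≤ (mm w : ℝ)⁻¹ * (C * (nn w : ℝ)⁻¹) := mul_le_mul_of_nonneg_left h6 hm.le
              _ = _ := by ring
          have h8 : (A.age τ : ℝ) = A.age ξ' + 1 := by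
            rw [A.prv_age τ ξ' hprv]; push_cast; ring
          rw [h8, add_mul, one_mul]
          rw [hE] at h3 ⊢
          linarith

/-- the main estimate: tree property of the coding -/
theorem Dep.bound {C κ : ℝ} (hC : 1 ≤ C) {w n : ℕ} (hκ : κ ≤ ((nn w : ℝ))⁻¹) {z : ℕ → X}
    {η ξ : ℕ → T} {s t jj : ℕ → ℕ} (h : A.Dep C κ w n z η ξ s t jj) (q : T × ℕ)
    (hw : A.wt q.1 = some w) (J : Finset ℕ) (hJ : J ⊆ Finset.range n) :
    |A.ev q (∑ i ∈ J, z i)| ≤ C := by
  have h1 := DH3_claim A hC hκ h (A.rank q.1) q.1 rfl hw q.2 J hJ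
  have hC0 : 0 < C := lt_of_lt_of_le one_pos hC
  have hm : (0 : ℝ) < (mm w : ℝ)⁻¹ := mm_inv_pos w
  have hNpos : (0 : ℝ) < (nn w : ℝ) := by exact_mod_cast nn_pos w
  have hN1 : (nn w : ℝ) * (nn w : ℝ)⁻¹ = 1 := mul_inv_cancel₀ hNpos.ne'
  have hw1 : 1 ≤ w := h.odd.pos
  have hm16 : (mm w : ℝ)⁻¹ ≤ 1 / 16 := by
    rw [one_div]
    exact inv_anti₀ (by norm_num) (by exact_mod_cast sixteen_le_mm hw1)
  have hN16 : (nn w : ℝ)⁻¹ ≤ 1 / 16 := by
    rw [one_div]
    refine inv_anti₀ (by norm_num) ?_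
    have h2 := mm_sq_le_nn w
    have h3 := sixteen_le_mm hw1
    have h4 : 16 ≤ nn w := by nlinarith
    exact_mod_cast h4
  have hage : (A.age q.1 : ℝ) ≤ nn w := by exact_mod_cast A.age_le q.1 w hw
  have hN0 : (0 : ℝ) < (nn w : ℝ)⁻¹ := inv_pos.2 hNpos
  have h5 : (A.age q.1 : ℝ) * (C * ((nn w : ℝ)⁻¹) ^ 2 + C * (mm w : ℝ)⁻¹ * (nn w : ℝ)⁻¹)
      ≤ C * (nn w : ℝ)⁻¹ + C * (mm w : ℝ)⁻¹ := by
    calc (A.age q.1 : ℝ) * (C * ((nn w : ℝ)⁻¹) ^ 2 + C * (mm w : ℝ)⁻¹ * (nn w : ℝ)⁻¹)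
        ≤ (nn w : ℝ) * (C * ((nn w : ℝ)⁻¹) ^ 2 + C * (mm w : ℝ)⁻¹ * (nn w : ℝ)⁻¹) :=
          mul_le_mul_of_nonneg_right hage (by positivity)
      _ = ((nn w : ℝ) * (nn w : ℝ)⁻¹) * (C * (nn w : ℝ)⁻¹ + C * (mm w : ℝ)⁻¹) := by ring
      _ = _ := by rw [hN1, one_mul]
  have h6 : C * (nn w : ℝ)⁻¹ ≤ C * (1 / 16) := mul_le_mul_of_nonneg_left hN16 hC0.le
  have h7 : C * (mm w : ℝ)⁻¹ ≤ C * (1 / 16) := mul_le_mul_of_nonneg_left hm16 hC0.le
  have h8 : |A.ev q (∑ i ∈ J, z i)| = |A.ev (q.1, q.2) (∑ i ∈ J, z i)| := rfl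
  rw [h8]
  linarith

end AHData

end Pool.Agent.MP0d518c
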