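import Pool.Agent.Lib.MP_0d518c_an.Basic

/-! Task DH1: weights and order along a dependent sequence. -/

namespace Pool.Agent.MP0d518c

open Finset Filter Topology

variable {T X : Type} [NormedAddCommGroup X] [NormedSpace ℝ X] (A : AHData T X)

namespace AHData

private theorem DH1_single_inj {η η' : T} (h : (Finsupp.single (η, 0) 1 : T × ℕ →₀ ℝ) =
    Finsupp.single (η', 0) 1) : η = η' := by
  have h1 := Finsupp.single_left_injective (one_ne_zero (α := ℝ)) h
  exact (Prod.ext_iff.1 h1).1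

private theorem DH1_rank_lt (D : TreeData T) {τ η : T}
    (hb : D.bb τ = Finsupp.single (η, 0) 1) : D.rank η < D.rank τ := by
  have h := D.bb_rank τ (η, 0) (by
    rw [hb, Finsupp.mem_support_iff, Finsupp.single_eq_same]
    exact one_ne_zero)
  exact h

/-- the `η` attached to any top node of odd weight index `w` has weight `> n_w^2`.  Strong
induction on `rank τ`. -/
theorem odd_wt_large (D : TreeData T) {τ η : T} {w h : ℕ} (hw : D.wt τ = some w) (ho : Odd w)
    (hb : D.bb τ = Finsupp.single (η, 0) 1) (hη : D.wt η = some h) : nn w ^ 2 < mm h := by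
  have key : ∀ r : ℕ, ∀ τ η : T, ∀ h : ℕ, D.rank τ = r → D.wt τ = some w →
      D.bb τ = Finsupp.single (η, 0) 1 → D.wt η = some h → nn w ^ 2 < mm h := by
    intro r
    induction r using Nat.strong_induction_on with
    | _ r ih =>
      intro τ η h hr hw hb hη
      obtain ⟨η', h', hb', hη', hnone, hsome⟩ := D.odd_eta τ w hw ho
      have e1 : η' = η := DH1_single_inj (hb'.symm.trans hb)
      rw [e1, hη] at hη'
      have e2 : h = h' := Option.some_injective _ hη'
      cases hp : D.prv τ with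
      | none =>
        rw [e2]
        exact (hnone hp).2
      | some ξ =>
        have hh := hsome ξ hp
        have hwξ : D.wt ξ = some w := by rw [D.prv_wt τ ξ hp, hw]
        have hrξ := D.prv_rank τ ξ hp
        obtain ⟨η₁, h₁, hb₁, hη₁, _, _⟩ := D.odd_eta ξ w hwξ ho
        have h2 := ih (D.rank ξ) (by omega) ξ η₁ h₁ rfl hwξ hb₁ hη₁
        have h3 := D.wt_le η₁ h₁ hη₁
        have h4 := DH1_rank_lt D hb₁
        have h5 := D.code_gt ξ
        have h6 : h₁ ≤ h := by omega
        exact lt_of_lt_of_le h2 (mm_strictMono.monotone h6)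
  exact key _ τ η h rfl hw hb hη

/-- weights along a dependent sequence -/
theorem Dep.jj_large {C κ : ℝ} {w n : ℕ} {z : ℕ → X} {η ξ : ℕ → T} {s t jj : ℕ → ℕ}
    (h : A.Dep C κ w n z η ξ s t jj) : ∀ i < n, nn w ^ 2 < mm (jj i) := by
  intro i hi
  exact odd_wt_large A.toTreeData (h.wt_xi i hi) h.odd (h.bb_xi i hi) (h.wt_eta i hi)

private theorem DH1_step {C κ : ℝ} {w n : ℕ} {z : ℕ → X} {η ξ : ℕ → T} {s t jj : ℕ → ℕ}
    (h : A.Dep C κ w n z η ξ s t jj) (i : ℕ) (hi : i + 1 < n) :
    t i ≤ s (i + 1) ∧ s i ≤ s (i + 1) ∧ jj i < jj (i + 1) ∧ t i ≤ jj (i + 1) := by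
  have h0 : i < n := by omega
  have h1 := h.s_succ i hi
  have h2 := h.t_le i h0
  have h3 := h.s_le_t i h0
  have h4 := h.jj_succ i hi
  have h5 := A.wt_le _ _ (h.wt_eta i h0)
  have h6 := DH1_rank_lt A.toTreeData (h.bb_xi i h0)
  have h7 := A.code_gt (ξ i)
  omega

private theorem DH1_chain {C κ : ℝ} {w n : ℕ} {z : ℕ → X} {η ξ : ℕ → T} {s t jj : ℕ → ℕ}
    (h : A.Dep C κ w n z η ξ s t jj) (k : ℕ) : ∀ l, k < l → l < n →
    t k ≤ s l ∧ jj k < jj l ∧ t k ≤ jj l := by
  intro l
  induction l with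
  | zero => intro h1; omega
  | succ l ih =>
    intro h1 h2
    obtain ⟨a1, a2, a3, a4⟩ := DH1_step A h l h2
    rcases Nat.lt_succ_iff_lt_or_eq.1 h1 with h3 | h3
    · obtain ⟨b1, b2, b3⟩ := ih h3 (by omega)
      omega
    · subst h3
      exact ⟨a1, a3, a4⟩

/-- a dependent sequence is an RIS -/
theorem Dep.ris {C κ : ℝ} {w n : ℕ} {z : ℕ → X} {η ξ : ℕ → T} {s t jj : ℕ → ℕ}
    (h : A.Dep C κ w n z η ξ s t jj) : A.RIS C n z s t jj := by
  refine ⟨fun k hk => (h.exact k hk).blk, ?_, ?_, ?_, ?_, ?_⟩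
  · intro k l hkl hl
    exact (DH1_chain A h k l hkl hl).1
  · intro k hk
    have hall : ∀ q, |A.ev q (z k)| ≤ C := by
      intro q
      have := (h.exact k hk).all q 0
      rwa [Q_zero, sub_zero] at this
    exact A.norm_le _ _ (le_trans (abs_nonneg _) (hall (ξ k, 0))) hall
  · intro k l hkl hl
    exact (DH1_chain A h k l hkl hl).2.1
  · intro k l hkl hl
    exact (DH1_chain A h k l hkl hl).2.2
  · intro k hk q i hq hi
    have := (h.exact k hk).lt q i 0 hq hi
    rwa [Q_zero, sub_zero] at this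

end AHData

end Pool.Agent.MP0d518c
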