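import Pool.Agent.Lib.MP_0d518c_an.Rep

/-! Task F1: the ideal of compact operators. -/

namespace Pool.Agent.MP0d518c

open Finset Filter Topology

variable {T X : Type} [NormedAddCommGroup X] [NormedSpace ℝ X] (A : AHData T X)

namespace AHData

/-- the ideal of compact operators -/
theorem exists_compactIdeal {X : Type} [NormedAddCommGroup X] [NormedSpace ℝ X]
    [CompleteSpace X] : ∃ K : TwoSidedIdeal (X →L[ℝ] X),
    ∀ V : X →L[ℝ] X, V ∈ K ↔ IsCompactOperator V := by
  refine ⟨TwoSidedIdeal.mk' {V : X →L[ℝ] X | IsCompactOperator V} isCompactOperator_zero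
    (fun {V W} hV hW => hV.add hW) (fun {V} hV => hV.neg)
    (fun {V W} hW => hW.clm_comp V) (fun {V W} hV => hV.comp_clm W), fun V => ?_⟩
  exact TwoSidedIdeal.mem_mk' _ _ _ _ _ _ _

/-- every nonzero closed ideal contains the compact operators -/
theorem compact_mem {T X : Type} [NormedAddCommGroup X] [NormedSpace ℝ X] [CompleteSpace X]
    (A : AHData T X) (I : TwoSidedIdeal (X →L[ℝ] X))
    (hI : IsClosed {V : X →L[ℝ] X | V ∈ I}) (hne : ∃ V ∈ I, V ≠ 0) {K : X →L[ℝ] X}
    (hK : IsCompactOperator K) : K ∈ I := by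
  obtain ⟨V, hV, hV0⟩ := hne
  obtain ⟨x0, hx0⟩ : ∃ x0, V x0 ≠ 0 := by
    by_contra hcon
    push Not at hcon
    exact hV0 (ContinuousLinearMap.ext hcon)
  obtain ⟨q0, hq0⟩ : ∃ q, A.ev q (V x0) ≠ 0 := by
    by_contra hcon
    push Not at hcon
    exact hx0 (A.eq_zero_of_ev hcon)
  have hrank : ∀ (φ : X →L[ℝ] ℝ) (y : X), φ.smulRight y ∈ I := by
    intro φ y
    have h1 : φ.smulRight y
        = ((A.ev q0).smulRight ((A.ev q0 (V x0))⁻¹ • y)) * (V * (φ.smulRight x0)) := by
      refine ContinuousLinearMap.ext fun z => ?_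
      show φ z • y = A.ev q0 (V (φ z • x0)) • ((A.ev q0 (V x0))⁻¹ • y)
      rw [map_smul, map_smul, smul_eq_mul, smul_smul, mul_assoc, mul_inv_cancel₀ hq0, mul_one]
    rw [h1]
    exact I.mul_mem_left _ _ (I.mul_mem_right _ _ hV)
  have hQK : ∀ n, (A.Q n).comp K ∈ I := by
    classical
    intro n
    obtain ⟨F, v, -, -, -, -, hF⟩ := A.exists_dual n
    have h1 : (A.Q n).comp K = ∑ q ∈ F, ((A.ev q).comp K).smulRight (v q) := by
      refine ContinuousLinearMap.ext fun z => ?_
      rw [ContinuousLinearMap.sum_apply]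
      exact hF (K z)
    rw [h1]
    have hfin : ∀ s : Finset (T × ℕ), ∑ q ∈ s, ((A.ev q).comp K).smulRight (v q) ∈ I := by
      intro s
      induction s using Finset.induction_on with
      | empty => rw [Finset.sum_empty]; exact I.zero_mem
      | insert a s ha ih =>
        rw [Finset.sum_insert ha]
        exact I.add_mem (hrank _ _) ih
    exact hfin F
  exact hI.mem_of_tendsto (A.compact_approx hK) (Filter.Eventually.of_forall hQK)

end AHData

end Pool.Agent.MP0d518c
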