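import Pool.Agent.Lib.MP_0d518c_an.Rep
import Pool.Agent.Lib.MP_0d518c_an.Bvec
import Pool.Agent.Lib.MP_0d518c_an.A3

/-! Task F2: lower estimate for the Calkin norm. -/

namespace Pool.Agent.MP0d518c

open Finset Filter Topology

variable {T X : Type} [NormedAddCommGroup X] [NormedSpace ℝ X] (A : AHData T X)

namespace AHData

/-- lower estimate for the Calkin norm -/
theorem calkin_lower [CompleteSpace X] {μ : ℕ → ℝ}
    (hμ : Summable fun l => |μ l| * om l) {K : X →L[ℝ] X} (hK : IsCompactOperator K) :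
    ∑' l, |μ l| * om l ≤ 2 * ‖(∑' l, μ l • A.S ^ l) + K‖ := by
  choose y hy using fun n => A.exists_base n
  have hris : ∀ N, A.RIS 8 N y (fun n => n) (fun n => n + 1) (fun k => k + k) :=
    A.ris_of_all (s := fun n => n) (t := fun n => n + 1) (fun k => (hy k).blk)
      (fun k => Nat.le_succ k) (fun k => le_rfl)
      (fun k => (hy k).nrm.trans (by norm_num)) (fun k q i hq => (hy k).wtb q i hq)
  have hKy : Tendsto (fun k => K (y k)) atTop (𝓝 0) :=
    A.compact_weak_null hK (C := 2) (fun k => (hy k).nrm)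
      (fun φ => A.ris_weak_null (by norm_num) hris φ)
  have hstep : ∀ n, ∑ l ∈ Finset.range (n + 1), |μ l| * om l - ‖K (y n)‖
      ≤ 2 * ‖(∑' l, μ l • A.S ^ l) + K‖ := by
    intro n
    have h1 := (hy n).indep μ
    rw [← A.tsum_apply_base hμ (hy n).blk.2] at h1
    have h2 : ‖((∑' l, μ l • A.S ^ l) + K) (y n)‖
        ≤ ‖(∑' l, μ l • A.S ^ l) + K‖ * ‖y n‖ := ContinuousLinearMap.le_opNorm _ _
    have h3 : ‖(∑' l, μ l • A.S ^ l) + K‖ * ‖y n‖ ≤ ‖(∑' l, μ l • A.S ^ l) + K‖ * 2 :=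
      mul_le_mul_of_nonneg_left (hy n).nrm (norm_nonneg _)
    have h4 : ‖(∑' l, μ l • A.S ^ l) (y n)‖ - ‖K (y n)‖
        ≤ ‖((∑' l, μ l • A.S ^ l) + K) (y n)‖ := by
      rw [ContinuousLinearMap.add_apply]
      have h5 := norm_sub_norm_le ((∑' l, μ l • A.S ^ l) (y n)) (-(K (y n)))
      rw [norm_neg, sub_neg_eq_add] at h5
      exact h5
    linarith
  have hlim : Tendsto (fun n => ∑ l ∈ Finset.range (n + 1), |μ l| * om l - ‖K (y n)‖) atTop
      (𝓝 ((∑' l, |μ l| * om l) - 0)) := by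
    refine Tendsto.sub ?_ ?_
    · exact (hμ.hasSum.tendsto_sum_nat).comp (tendsto_add_atTop_nat 1)
    · have := hKy.norm
      rwa [norm_zero] at this
  rw [sub_zero] at hlim
  exact le_of_tendsto' hlim hstep

end AHData

end Pool.Agent.MP0d518c
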