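import Pool.Agent.Lib.MP_0d518c_an.PropM
import Pool.Agent.Lib.MP_0d518c_an.Bvec

/-! Task RP3: an operator killing the base vectors kills every RIS. -/

namespace Pool.Agent.MP0d518c

open Finset Filter Topology

variable {T X : Type} [NormedAddCommGroup X] [NormedSpace ℝ X] (A : AHData T X)

namespace AHData

/-- the main estimate for one pair `x`, `y_n` -/
private theorem rp3_estimate (V : X →L[ℝ] X) {C δ' a : ℝ} (hC : 0 ≤ C) (hδ' : 0 < δ')
    {s t n : ℕ} {x y : X} (hx : A.Blk s t x) (hxn : ‖x‖ ≤ C) (hy : A.IsBase n y)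
    (htn : t ≤ n) (h1 : ‖V x - A.Q n (V x)‖ < δ') (h2 : ‖V y‖ < δ')
    (h3 : ∃ v ∈ A.KA a (x + y), ‖V (x + y) - v‖ < δ') : ‖V x‖ ≤ (9 + 7 * C) * δ' := by
  obtain ⟨v, ⟨c, _, hv⟩, h3⟩ := h3
  set cx : X := ∑ l ∈ c.support, c l • (A.S ^ l) x with hcx
  set cy : X := ∑ l ∈ c.support, c l • (A.S ^ l) y with hcy
  have hv' : v = cx + cy := by
    rw [hv, hcx, hcy, ← Finset.sum_add_distrib]
    refine Finset.sum_congr rfl fun l _ => ?_
    rw [map_add, smul_add]
  set u : X := V x - cx - cy with hu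
  have hun : ‖u‖ ≤ 2 * δ' := by
    have e1 : u = (V (x + y) - v) - V y := by
      rw [hu, hv', map_add]; abel
    rw [e1]
    have := norm_sub_le (V (x + y) - v) (V y)
    linarith
  have hQcx : A.Q n cx = cx := by
    rw [hcx, map_sum]
    refine Finset.sum_congr rfl fun l _ => ?_
    rw [map_smul, A.Q_Spow, AHData.Blk.Q_ge A hx htn]
  have hQcy : A.Q n cy = 0 := by
    rw [hcy, map_sum]
    refine Finset.sum_eq_zero fun l _ => ?_
    rw [map_smul, A.Q_Spow, AHData.Blk.Q_le A hy.blk le_rfl, map_zero, smul_zero]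
  have hcyn : ‖cy‖ ≤ 7 * δ' := by
    have e1 : cy = (V x - A.Q n (V x)) - (u - A.Q n u) := by
      rw [hu, map_sub, map_sub, hQcx, hQcy]; abel
    rw [e1]
    have e2 := norm_sub_le (V x - A.Q n (V x)) (u - A.Q n u)
    have e3 := A.norm_sub_Q_le n u
    linarith
  have hxQ : A.Q (n + 1) x = x := AHData.Blk.Q_ge A hx (by omega)
  have hyQ : A.Q (n + 1) y = y := hy.blk.2
  have hcy' : cy = ∑ l ∈ Finset.range (n + 1), c l • (A.S ^ l) y := A.KA_sum_range hyQ c
  have hcx' : cx = ∑ l ∈ Finset.range (n + 1), c l • (A.S ^ l) x := A.KA_sum_range hxQ c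
  have hind := hy.indep (fun l => c l)
  rw [← hcy'] at hind
  have hcxn : ‖cx‖ ≤ 7 * δ' * C := by
    rw [hcx']
    calc ‖∑ l ∈ Finset.range (n + 1), c l • (A.S ^ l) x‖
        ≤ ∑ l ∈ Finset.range (n + 1), ‖c l • (A.S ^ l) x‖ := norm_sum_le _ _
      _ ≤ ∑ l ∈ Finset.range (n + 1), (|c l| * om l) * C := by
          refine Finset.sum_le_sum fun l _ => ?_
          rw [norm_smul, Real.norm_eq_abs, mul_assoc]
          refine mul_le_mul_of_nonneg_left ?_ (abs_nonneg _)
          refine (A.norm_Spow l x).trans ?_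
          have hom : 0 ≤ om l := by unfold om; positivity
          exact mul_le_mul_of_nonneg_left hxn hom
      _ = (∑ l ∈ Finset.range (n + 1), |c l| * om l) * C := by rw [Finset.sum_mul]
      _ ≤ (7 * δ') * C := mul_le_mul_of_nonneg_right (hind.trans hcyn) hC
  have e1 : V x = u + cx + cy := by rw [hu]; abel
  rw [e1]
  have e2 := norm_add_le (u + cx) cy
  have e3 := norm_add_le u cx
  nlinarith

/-- if `W y_n → 0` then `W x_k → 0` for every RIS: `propM` for the RIS `(x_k + y_(n_k))` -/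
theorem ris_of_base (V : X →L[ℝ] X) (y : ℕ → X) (hy : ∀ n, A.IsBase n (y n))
    (hV : Tendsto (fun n => V (y n)) atTop (𝓝 0)) {C : ℝ} {x : ℕ → X} {s t j : ℕ → ℕ}
    (h : ∀ N, A.RIS C N x s t j) : Tendsto (fun k => V (x k)) atTop (𝓝 0) := by
  have hC : 0 ≤ C := le_trans (norm_nonneg _) ((h 1).nrm 0 (by norm_num))
  by_contra hcon
  rw [Metric.tendsto_atTop] at hcon
  push Not at hcon
  obtain ⟨δ, hδ, hbig⟩ := hcon
  simp only [dist_zero_right] at hbig
  -- pass to a subsequence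
  have hfreq : ∃ᶠ k in atTop, δ ≤ ‖V (x k)‖ := by
    rw [Filter.frequently_atTop]
    intro N
    obtain ⟨k, hk, hk2⟩ := hbig N
    exact ⟨k, hk, hk2⟩
  obtain ⟨f, hf, hfb⟩ := Filter.extraction_of_frequently_atTop hfreq
  have h' := AHData.RIS.subseq A h hf
  clear hbig hfreq h
  generalize hx1 : x ∘ f = x1 at h'
  generalize hs1 : s ∘ f = s1 at h'
  generalize ht1 : t ∘ f = t1 at h'
  generalize hj1 : j ∘ f = j1 at h'
  have hbig : ∀ k, δ ≤ ‖V (x1 k)‖ := by
    intro k
    rw [← hx1]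
    exact hfb k
  -- strict inequalities
  have hblk : ∀ k, A.Blk (s1 k) (t1 k) (x1 k) := fun k => (h' (k + 1)).blk k (by omega)
  have hst : ∀ k, s1 k < t1 k := by
    intro k
    by_contra hle
    have h1 : A.Q (t1 k) (x1 k) = 0 := AHData.Blk.Q_le A (hblk k) (by omega)
    have h2 : x1 k = 0 := by rw [← (hblk k).2, h1]
    have h3 := hbig k
    rw [h2, map_zero, norm_zero] at h3
    linarith
  have hts : ∀ k l, k < l → t1 k ≤ s1 l := fun k l hkl => (h' (l + 1)).succ k l hkl (by omega)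
  have hsmono : StrictMono s1 :=
    strictMono_nat_of_lt_succ fun k => (hst k).trans_le (hts k (k + 1) (by omega))
  have hjmono : StrictMono j1 :=
    strictMono_nat_of_lt_succ fun k => (h' (k + 2)).jmono k (k + 1) (by omega) (by omega)
  -- choice of `n`
  set δ' : ℝ := δ / (10 + 7 * C) with hδ'
  have hδ'pos : 0 < δ' := by positivity
  have hn : ∀ k, ∃ n, t1 k ≤ n ∧ ‖V (x1 k) - A.Q n (V (x1 k))‖ < δ' ∧ ‖V (y n)‖ < δ' := by
    intro k
    have e1 : ∀ᶠ n in atTop, ‖V (x1 k) - A.Q n (V (x1 k))‖ < δ' := by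
      have := A.Q_tendsto (V (x1 k))
      rw [Metric.tendsto_atTop] at this
      obtain ⟨N, hN⟩ := this δ' hδ'pos
      filter_upwards [eventually_ge_atTop N] with n hn
      have := hN n hn
      rwa [dist_comm, dist_eq_norm] at this
    have e2 : ∀ᶠ n in atTop, ‖V (y n)‖ < δ' := by
      rw [Metric.tendsto_atTop] at hV
      obtain ⟨N, hN⟩ := hV δ' hδ'pos
      filter_upwards [eventually_ge_atTop N] with n hn
      have := hN n hn
      rwa [dist_zero_right] at this
    have e3 := (eventually_ge_atTop (t1 k)).and (e1.and e2)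
    obtain ⟨n, hn⟩ := e3.exists
    exact ⟨n, hn⟩
  choose ν hνt hν1 hν2 using hn
  let kr : ℕ → ℕ := fun r => Nat.rec 0 (fun _ k => max k (ν k) + 1) r
  have hk_succ : ∀ r, kr (r + 1) = max (kr r) (ν (kr r)) + 1 := fun r => rfl
  have hkmono : StrictMono kr := by
    refine strictMono_nat_of_lt_succ fun r => ?_
    rw [hk_succ]
    have := le_max_left (kr r) (ν (kr r))
    omega
  have hkν : ∀ k l, k < l → ν (kr k) + 1 ≤ kr l := by
    intro k l hkl
    have h1 : kr (k + 1) ≤ kr l := hkmono.monotone hkl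
    have h2 := hk_succ k
    have h3 := le_max_right (kr k) (ν (kr k))
    omega
  have hris : ∀ N, A.RIS (C + 8) N (fun r => x1 (kr r) + y (ν (kr r)))
      (fun r => s1 (kr r)) (fun r => ν (kr r) + 1) (fun r => j1 (kr r)) := by
    intro N
    refine ⟨?_, ?_, ?_, ?_, ?_, ?_⟩
    · intro k _
      have e1 := hνt (kr k)
      have e2 := hst (kr k)
      exact AHData.Blk.add A (AHData.Blk.mono A (hblk _) le_rfl (by omega))
        (AHData.Blk.mono A (hy _).blk (by omega) le_rfl)
    · intro k l hkl _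
      exact (hkν k l hkl).trans (hsmono.id_le (kr l))
    · intro k _
      have e1 := (h' (kr k + 1)).nrm (kr k) (by omega)
      have e2 := (hy (ν (kr k))).nrm
      have e3 := norm_add_le (x1 (kr k)) (y (ν (kr k)))
      show ‖x1 (kr k) + y (ν (kr k))‖ ≤ C + 8
      linarith
    · intro k l hkl _
      exact hjmono (hkmono hkl)
    · intro k l hkl _
      exact (hkν k l hkl).trans (hjmono.id_le (kr l))
    · intro k _ q i hq hi
      have e1 := (h' (kr k + 1)).wtb (kr k) (by omega) q i hq hi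
      have e2 := (hy (ν (kr k))).wtb q i hq
      show |A.ev q (x1 (kr k) + y (ν (kr k)))| ≤ (C + 8) * (mm i : ℝ)⁻¹
      rw [map_add]
      have e3 := abs_add_le (A.ev q (x1 (kr k))) (A.ev q (y (ν (kr k))))
      linarith
  obtain ⟨a, _, ha⟩ := A.propM V (C := C + 8) (δ := δ') (by linarith) hδ'pos
  obtain ⟨r, hr⟩ := (ha _ _ _ _ hris).exists
  have hest := A.rp3_estimate V hC hδ'pos (hblk (kr r))
    ((h' (kr r + 1)).nrm (kr r) (by omega)) (hy (ν (kr r))) (hνt _) (hν1 _) (hν2 _) hr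
  have hb := hbig (kr r)
  have e1 : (10 + 7 * C) * δ' = δ := by
    rw [hδ']; field_simp
  nlinarith

end AHData

end Pool.Agent.MP0d518c
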