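import Pool.Agent.Lib.MP_0d518c_an.RP2
import Pool.Agent.Lib.MP_0d518c_an.RP3

/-! Task RP4: every operator is `Σ λ_l S^l` on rapidly increasing sequences. -/

namespace Pool.Agent.MP0d518c

open Finset Filter Topology

variable {T X : Type} [NormedAddCommGroup X] [NormedSpace ℝ X] (A : AHData T X)

namespace AHData

theorem repr_RIS [CompleteSpace X] (V : X →L[ℝ] X) :
    ∃ μ : ℕ → ℝ, (Summable fun l => |μ l| * om l) ∧
      ∀ (C : ℝ) (x : ℕ → X) (s t j : ℕ → ℕ), (∀ N, A.RIS C N x s t j) →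
        Tendsto (fun k => (V - ∑' l, μ l • A.S ^ l) (x k)) atTop (𝓝 0) := by
  choose y hy using fun n => A.exists_base n
  obtain ⟨μ, hμ, hlim⟩ := A.base_coeff V y hy
  exact ⟨μ, hμ, fun C x s t j h => A.ris_of_base (V - ∑' l, μ l • A.S ^ l) y hy hlim h⟩

end AHData

end Pool.Agent.MP0d518c
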