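import Pool.Agent.Lib.MP_0d518c_an.F1
import Pool.Agent.Lib.MP_0d518c_an.F2
import Pool.Agent.Lib.MP_0d518c_an.Repr
import Pool.Agent.Lib.MP_0d518c_an.Cpt
import Pool.Agent.Lib.MP_0d518c_an.Alg

/-! Task F3: the closed ideals of `L(X)`. -/

namespace Pool.Agent.MP0d518c

open Finset Filter Topology

variable {T X : Type} [NormedAddCommGroup X] [NormedSpace ℝ X] (A : AHData T X)

namespace AHData

/-- the main theorem for the abstract data -/
theorem closed_ideals {T X : Type} [NormedAddCommGroup X] [NormedSpace ℝ X] [CompleteSpace X]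
    (A : AHData T X) :
    Cardinal.mk {I : TwoSidedIdeal (X →L[ℝ] X) // IsClosed {V : X →L[ℝ] X | V ∈ I}} =
      Cardinal.aleph0 := by
  obtain ⟨K, hK⟩ := exists_compactIdeal (X := X)
  have hrad : RadAlg K A.S := by
    refine ⟨?_, A.opNorm_Spow, fun V => ?_, fun μ k hμ hk => ?_⟩
    · have h1 : {x : X →L[ℝ] X | x ∈ K} = {x : X →L[ℝ] X | IsCompactOperator x} :=
        Set.ext fun V => hK V
      rw [h1]
      exact isClosed_setOf_isCompactOperator
    · obtain ⟨μ, hμ, h⟩ := A.repr_RIS V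
      exact ⟨μ, hμ, (hK _).2 (A.compact_of_ris _ h)⟩
    · exact A.calkin_lower hμ ((hK k).1 hk)
  exact hrad.main fun I hI hne x hx => A.compact_mem I hI hne ((hK x).1 hx)

end AHData

end Pool.Agent.MP0d518c
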