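import Pool.Agent.Lib.MP_0d518c_an.KDefs

/-! Task K3: compactness of `io`, `rp`, `ip`; separability of `KX`. -/

namespace Pool.Agent.MP0d518c

open Finset Filter Topology

variable {𝕜 E : Type} [RCLike 𝕜] [NormedAddCommGroup E] [NormedSpace ℝ E]

namespace KX

/-- the value at a point of the unit ball is bounded by the norm -/
private theorem norm_apply_le_K3 (f : KX 𝕜 E) {z : 𝕜} (hz : ‖z‖ ≤ 1) : ‖f.fn z‖ ≤ ‖f‖ := by
  have h1 := f.fn.le_opNorm z
  rw [norm_fn] at h1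
  exact h1.trans (mul_le_of_le_one_right (norm_nonneg _) hz)

private theorem norm_I_le_K3 : ‖(RCLike.I : 𝕜)‖ ≤ 1 := by
  rcases RCLike.I_eq_zero_or_im_I_eq_one (K := 𝕜) with h | h
  · rw [h, norm_zero]; exact zero_le_one
  · have h5 : (RCLike.I : 𝕜) ≠ 0 := by
      intro h6; rw [h6] at h; simp at h
    exact (RCLike.norm_I_of_ne_zero h5).le

/-- the values at `1` and `I` bound the norm -/
private theorem norm_le_K3 (f : KX 𝕜 E) : ‖f‖ ≤ ‖f.fn 1‖ + ‖f.fn (RCLike.I : 𝕜)‖ := by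
  rw [← norm_fn]
  refine ContinuousLinearMap.opNorm_le_bound _ (by positivity) fun z => ?_
  have h1 : z = RCLike.re z • (1 : 𝕜) + RCLike.im z • (RCLike.I : 𝕜) := by
    rw [RCLike.real_smul_eq_coe_mul, RCLike.real_smul_eq_coe_mul, mul_one]
    exact (RCLike.re_add_im z).symm
  have h2 : f.fn z = RCLike.re z • f.fn 1 + RCLike.im z • f.fn (RCLike.I : 𝕜) := by
    conv_lhs => rw [h1]
    rw [map_add, map_smul, map_smul]
  rw [h2]
  have h3 := norm_add_le (RCLike.re z • f.fn 1) (RCLike.im z • f.fn (RCLike.I : 𝕜))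
  rw [norm_smul, norm_smul] at h3
  have h4 : ‖RCLike.re z‖ ≤ ‖z‖ := RCLike.norm_re_le_norm z
  have h5 : ‖RCLike.im z‖ ≤ ‖z‖ := RCLike.norm_im_le_norm z
  have h6 := mul_le_mul_of_nonneg_right h4 (norm_nonneg (f.fn 1))
  have h7 := mul_le_mul_of_nonneg_right h5 (norm_nonneg (f.fn (RCLike.I : 𝕜)))
  nlinarith

/-- the two values -/
private noncomputable def phi_K3 (f : KX 𝕜 E) : E × E := (f.fn 1, f.fn (RCLike.I : 𝕜))

private theorem phi_anti_K3 : AntilipschitzWith 2 (phi_K3 : KX 𝕜 E → E × E) := by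
  refine AntilipschitzWith.of_le_mul_dist fun f g => ?_
  have h1 := norm_le_K3 (f - g)
  rw [fn_sub] at h1
  have h2 : dist (f.fn 1) (g.fn 1) ≤ dist (phi_K3 f) (phi_K3 g) := le_max_left _ _
  have h3 : dist (f.fn (RCLike.I : 𝕜)) (g.fn (RCLike.I : 𝕜)) ≤ dist (phi_K3 f) (phi_K3 g) :=
    le_max_right _ _
  rw [dist_eq_norm] at h2 h3
  rw [dist_eq_norm f g]
  have h4 : ‖(f.fn - g.fn) 1‖ ≤ dist (phi_K3 f) (phi_K3 g) := h2
  have h5 : ‖(f.fn - g.fn) (RCLike.I : 𝕜)‖ ≤ dist (phi_K3 f) (phi_K3 g) := h3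
  have h6 : ((2 : NNReal) : ℝ) = 2 := rfl
  rw [h6]
  linarith

private theorem eval_lip_K3 {z : 𝕜} (hz : ‖z‖ ≤ 1) :
    LipschitzWith 1 (fun f : KX 𝕜 E => f.fn z) := by
  refine LipschitzWith.of_dist_le_mul fun f g => ?_
  rw [NNReal.coe_one, one_mul, dist_eq_norm, dist_eq_norm]
  exact norm_apply_le_K3 (f - g) hz

private theorem phi_uc_K3 : UniformContinuous (phi_K3 : KX 𝕜 E → E × E) :=
  (eval_lip_K3 (by rw [norm_one])).uniformContinuous.prodMk
    (eval_lip_K3 norm_I_le_K3).uniformContinuous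

private theorem jv_tendsto_K3 : Tendsto (fun x : E => (jv x : KX 𝕜 E)) (𝓝 0) (𝓝 0) := by
  rw [tendsto_zero_iff_norm_tendsto_zero]
  refine squeeze_zero (fun x => norm_nonneg _) (fun x => norm_jv_le x) ?_
  exact tendsto_norm_zero

/-- `f ↦ (f 1, f I)` is an embedding of `KX 𝕜 E` into `E × E` -/
theorem io_compact [CompleteSpace E] {K : E →L[ℝ] E} (hK : IsCompactOperator K) :
    IsCompactOperator (io K : KX 𝕜 E →L[𝕜] KX 𝕜 E) := by
  obtain ⟨C, hC, hn⟩ := hK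
  have hemb : IsClosedEmbedding (phi_K3 : KX 𝕜 E → E × E) :=
    phi_anti_K3.isClosedEmbedding phi_uc_K3
  refine ⟨phi_K3 ⁻¹' (C ×ˢ C), hemb.isCompact_preimage (hC.prod hC), ?_⟩
  have h1 : Tendsto (fun f : KX 𝕜 E => f.fn 1) (𝓝 0) (𝓝 0) := by
    have := (eval_lip_K3 (𝕜 := 𝕜) (E := E) (z := 1) (by rw [norm_one])).continuous.tendsto 0
    simpa using this
  have h2 : Tendsto (fun f : KX 𝕜 E => f.fn (RCLike.I : 𝕜)) (𝓝 0) (𝓝 0) := by
    have := (eval_lip_K3 (𝕜 := 𝕜) (E := E) (z := RCLike.I) norm_I_le_K3).continuous.tendsto 0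
    simpa using this
  filter_upwards [h1 hn, h2 hn] with f hf1 hf2
  exact ⟨hf1, hf2⟩

theorem rp_compact {K : KX 𝕜 E →L[𝕜] KX 𝕜 E} (hK : IsCompactOperator K) :
    IsCompactOperator (rp K) := by
  obtain ⟨C, hC, hn⟩ := hK
  refine ⟨(fun f : KX 𝕜 E => f.fn 1) '' C,
    hC.image (eval_lip_K3 (by rw [norm_one])).continuous, ?_⟩
  filter_upwards [jv_tendsto_K3 hn] with x hx
  exact ⟨K (jv x), hx, rfl⟩

theorem ip_compact {K : KX 𝕜 E →L[𝕜] KX 𝕜 E} (hK : IsCompactOperator K) :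
    IsCompactOperator (ip K) := by
  obtain ⟨C, hC, hn⟩ := hK
  refine ⟨(fun f : KX 𝕜 E => -f.fn (RCLike.I : 𝕜)) '' C,
    hC.image (eval_lip_K3 norm_I_le_K3).continuous.neg, ?_⟩
  filter_upwards [jv_tendsto_K3 hn] with x hx
  exact ⟨K (jv x), hx, rfl⟩

theorem separableK [TopologicalSpace.SeparableSpace E] :
    TopologicalSpace.SeparableSpace (KX 𝕜 E) := by
  have : SecondCountableTopology E := UniformSpace.secondCountable_of_separable E
  have hind : IsInducing (phi_K3 : KX 𝕜 E → E × E) :=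
    (phi_anti_K3.isUniformInducing phi_uc_K3).isInducing
  have : SecondCountableTopology (KX 𝕜 E) := hind.secondCountableTopology
  infer_instance

end KX

end Pool.Agent.MP0d518c
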