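import Pool.Agent.Lib.MP_0d518c_an.Repr
import Pool.Agent.Lib.MP_0d518c_an.Cpt

/-! Task K6: every operator is a power series in `S` plus a compact operator. -/

namespace Pool.Agent.MP0d518c

open Finset Filter Topology

theorem AHData.rep_compact {T X : Type} [NormedAddCommGroup X] [NormedSpace ℝ X] [CompleteSpace X]
    (A : AHData T X) (V : X →L[ℝ] X) : ∃ μ : ℕ → ℝ, (Summable fun l => |μ l| * om l) ∧
      IsCompactOperator (V - ∑' l, μ l • A.S ^ l) := by
  obtain ⟨μ, h1, h2⟩ := A.repr_RIS V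
  exact ⟨μ, h1, A.compact_of_ris _ h2⟩

end Pool.Agent.MP0d518c
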