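import Pool.Agent.Lib.MP_0d518c_an.K2
import Pool.Agent.Lib.MP_0d518c_an.K3
import Pool.Agent.Lib.MP_0d518c_an.K5
import Pool.Agent.Lib.MP_0d518c_an.AK1
import Pool.Agent.Lib.MP_0d518c_an.Rep1
import Pool.Agent.Lib.MP_0d518c_an.F2

/-! Task K4: `L(KX 𝕜 X)` satisfies the hypotheses of the algebra part. -/

namespace Pool.Agent.MP0d518c

open Finset Filter Topology

private theorem K4_norm_I_le {𝕜 : Type} [RCLike 𝕜] : ‖(RCLike.I : 𝕜)‖ ≤ 1 := by
  rcases RCLike.I_eq_zero_or_im_I_eq_one (K := 𝕜) with h | h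
  · rw [h, norm_zero]; exact zero_le_one
  · have h5 : (RCLike.I : 𝕜) ≠ 0 := by
      intro h6; rw [h6] at h; simp at h
    exact (RCLike.norm_I_of_ne_zero h5).le

private theorem K4_norm_le {𝕜 : Type} [RCLike 𝕜] (z : 𝕜) :
    ‖z‖ ≤ |RCLike.re z| + |RCLike.im z| := by
  calc ‖z‖ = ‖((RCLike.re z : ℝ) : 𝕜) + ((RCLike.im z : ℝ) : 𝕜) * RCLike.I‖ := by
        rw [RCLike.re_add_im]
    _ ≤ ‖((RCLike.re z : ℝ) : 𝕜)‖ + ‖((RCLike.im z : ℝ) : 𝕜) * RCLike.I‖ := norm_add_le _ _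
    _ ≤ |RCLike.re z| + |RCLike.im z| := by
        rw [norm_mul, RCLike.norm_ofReal, RCLike.norm_ofReal]
        have h1 := K4_norm_I_le (𝕜 := 𝕜)
        have h2 := abs_nonneg (RCLike.im z)
        nlinarith

theorem radAlgK {𝕜 T X : Type} [RCLike 𝕜] [NormedAddCommGroup X] [NormedSpace ℝ X]
    [CompleteSpace X] (A : AHData T X) {K : TwoSidedIdeal (KX 𝕜 X →L[𝕜] KX 𝕜 X)}
    (hK : ∀ V : KX 𝕜 X →L[𝕜] KX 𝕜 X, V ∈ K ↔ IsCompactOperator V) :
    RadAlgK 𝕜 4 K (KX.io A.S : KX 𝕜 X →L[𝕜] KX 𝕜 X) := by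
  have hpow : ∀ j, ‖(KX.io A.S : KX 𝕜 X →L[𝕜] KX 𝕜 X) ^ j‖ ≤ om j := by
    intro j
    rw [← KX.io_pow]
    exact (KX.norm_io_le _).trans (A.opNorm_Spow j)
  refine
    { closed := ?_
      pow_le := hpow
      rep := ?_
      low := ?_ }
  · have : {x : KX 𝕜 X →L[𝕜] KX 𝕜 X | x ∈ K} =
        {x : KX 𝕜 X →L[𝕜] KX 𝕜 X | IsCompactOperator x} := by
      ext x; exact hK x
    rw [this]
    exact isClosed_setOfPred_isCompactOperator
  · intro V
    obtain ⟨a, ha, hKa⟩ := A.rep_compact (KX.rp V)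
    obtain ⟨b, hb, hKb⟩ := A.rep_compact (KX.ip V)
    have hsum : Summable fun l => ‖(a l : 𝕜) + RCLike.I * (b l : 𝕜)‖ * om l := by
      apply Summable.of_nonneg_of_le _ _ (ha.add hb)
      · intro l
        exact mul_nonneg (norm_nonneg _) (om_pos l).le
      · intro l
        rw [← add_mul]
        apply mul_le_mul_of_nonneg_right _ (om_pos l).le
        calc ‖(a l : 𝕜) + RCLike.I * (b l : 𝕜)‖ ≤ ‖(a l : 𝕜)‖ + ‖RCLike.I * (b l : 𝕜)‖ :=
              norm_add_le _ _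
          _ ≤ |a l| + |b l| := by
              rw [norm_mul, RCLike.norm_ofReal, RCLike.norm_ofReal]
              have := K4_norm_I_le (𝕜 := 𝕜)
              have h0 := abs_nonneg (b l)
              nlinarith
    refine ⟨fun l => (a l : 𝕜) + RCLike.I * (b l : 𝕜), hsum, ?_⟩
    have hsa : Summable fun l => (a l : 𝕜) • (KX.io (A.S ^ l) : KX 𝕜 X →L[𝕜] KX 𝕜 X) := by
      have : Summable fun l => (a l : 𝕜) • (KX.io A.S : KX 𝕜 X →L[𝕜] KX 𝕜 X) ^ l := by
        apply summableK hpow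
        refine ha.congr fun l => ?_
        rw [RCLike.norm_ofReal]
      refine this.congr fun l => ?_
      rw [KX.io_pow]
    have hsb : Summable fun l => (b l : 𝕜) • (KX.io (A.S ^ l) : KX 𝕜 X →L[𝕜] KX 𝕜 X) := by
      have : Summable fun l => (b l : 𝕜) • (KX.io A.S : KX 𝕜 X →L[𝕜] KX 𝕜 X) ^ l := by
        apply summableK hpow
        refine hb.congr fun l => ?_
        rw [RCLike.norm_ofReal]
      refine this.congr fun l => ?_
      rw [KX.io_pow]
    have e1 : ∑' l, ((a l : 𝕜) + RCLike.I * (b l : 𝕜)) • (KX.io A.S : KX 𝕜 X →L[𝕜] KX 𝕜 X) ^ l =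
        KX.io (∑' l, a l • A.S ^ l) + (RCLike.I : 𝕜) • KX.io (∑' l, b l • A.S ^ l) := by
      rw [KX.io_tsum (A.summable_Spow ha), KX.io_tsum (A.summable_Spow hb),
        ← hsb.tsum_const_smul, ← hsa.tsum_add (hsb.const_smul _)]
      refine tsum_congr fun l => ?_
      rw [KX.io_pow, add_smul, mul_smul]
    have e2 : V - ∑' l, ((a l : 𝕜) + RCLike.I * (b l : 𝕜)) •
        (KX.io A.S : KX 𝕜 X →L[𝕜] KX 𝕜 X) ^ l =
        KX.io (KX.rp V - ∑' l, a l • A.S ^ l) +
          (RCLike.I : 𝕜) • KX.io (KX.ip V - ∑' l, b l • A.S ^ l) := by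
      rw [e1, KX.io_sub, KX.io_sub, smul_sub]
      conv_lhs => rw [KX.decomp V]
      abel
    rw [e2]
    apply K.add_mem
    · rw [hK]; exact KX.io_compact hKa
    · apply smul_memK
      rw [hK]; exact KX.io_compact hKb
  · intro μ k hμ hk
    set V : KX 𝕜 X →L[𝕜] KX 𝕜 X := (∑' l, μ l • (KX.io A.S : KX 𝕜 X →L[𝕜] KX 𝕜 X) ^ l) + k with hV
    have hkc := (hK k).1 hk
    have hs : Summable fun l => μ l • (KX.io (A.S ^ l) : KX 𝕜 X →L[𝕜] KX 𝕜 X) := by
      refine (summableK hpow hμ).congr fun l => ?_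
      rw [KX.io_pow]
    have hV' : V = (∑' l, μ l • (KX.io (A.S ^ l) : KX 𝕜 X →L[𝕜] KX 𝕜 X)) + k := by
      rw [hV]
      congr 1
      exact tsum_congr fun l => by rw [KX.io_pow]
    have hre : Summable fun l => |RCLike.re (μ l)| * om l := by
      apply Summable.of_nonneg_of_le _ _ hμ
      · intro l; exact mul_nonneg (abs_nonneg _) (om_pos l).le
      · intro l
        exact mul_le_mul_of_nonneg_right (RCLike.abs_re_le_norm _) (om_pos l).le
    have him : Summable fun l => |RCLike.im (μ l)| * om l := by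
      apply Summable.of_nonneg_of_le _ _ hμ
      · intro l; exact mul_nonneg (abs_nonneg _) (om_pos l).le
      · intro l
        exact mul_le_mul_of_nonneg_right (RCLike.abs_im_le_norm _) (om_pos l).le
    have h1 := A.calkin_lower hre (KX.rp_compact hkc)
    have h2 := A.calkin_lower him (KX.ip_compact hkc)
    have e1 : KX.rp V = (∑' l, RCLike.re (μ l) • A.S ^ l) + KX.rp k := by
      rw [hV', KX.rp_add, KX.rp_tsum hs]
    have e2 : KX.ip V = (∑' l, RCLike.im (μ l) • A.S ^ l) + KX.ip k := by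
      rw [hV', KX.ip_add, KX.ip_tsum hs]
    rw [← e1] at h1
    rw [← e2] at h2
    have h3 := KX.norm_rp_le V
    have h4 := KX.norm_ip_le V
    have h5 : ∑' l, ‖μ l‖ * om l ≤ ∑' l, (|RCLike.re (μ l)| * om l + |RCLike.im (μ l)| * om l) := by
      apply hμ.tsum_le_tsum _ (hre.add him)
      intro l
      rw [← add_mul]
      exact mul_le_mul_of_nonneg_right (K4_norm_le _) (om_pos l).le
    rw [hre.tsum_add him] at h5
    linarith

end Pool.Agent.MP0d518c
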