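import Pool.Agent.Lib.MP_0d518c_an.K4
import Pool.Agent.Lib.MP_0d518c_an.AK4
import Pool.Agent.Lib.MP_0d518c_an.SpB
import Pool.Agent.Lib.MP_0d518c_an.Tree

/-! Task K7: the main theorem over `𝕜 = ℝ` or `ℂ`. -/

namespace Pool.Agent.MP0d518c

open Finset Filter Topology

theorem main_theoremK (𝕜 : Type) [RCLike 𝕜] :
    ∃ (X : Type) (_ : NormedAddCommGroup X) (_ : NormedSpace 𝕜 X),
    CompleteSpace X ∧ TopologicalSpace.SeparableSpace X ∧
    Cardinal.mk {I : TwoSidedIdeal (X →L[𝕜] X) // IsClosed {V : X →L[𝕜] X | V ∈ I}} =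
      Cardinal.aleph0 := by
  obtain ⟨T, ⟨D⟩⟩ := exists_tree
  obtain ⟨X, i1, i2, i3, ⟨A⟩⟩ := exists_AHData D
  haveI := A.separable
  obtain ⟨K, hK⟩ := exists_compactIdealK (𝕜 := 𝕜) (Y := KX 𝕜 X)
  exact ⟨KX 𝕜 X, inferInstance, inferInstance, inferInstance, KX.separableK,
    (radAlgK A hK).main (fun I hI hne x hx => compact_memK A I hI hne ((hK x).1 hx))⟩

end Pool.Agent.MP0d518c
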