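import Pool.Agent.Lib.MP_0d518c_an.Rep

/-! Task S: separation of `y` from the set `KA a x` by a rational combination of coordinates. -/

namespace Pool.Agent.MP0d518c

open Finset Filter Topology

variable {T X : Type} [NormedAddCommGroup X] [NormedSpace ℝ X] (A : AHData T X)

namespace AHData

private theorem sep_om_pos (l : ℕ) : 0 < om l := by
  unfold om
  positivity

private theorem sep_mem_single {a : ℝ} (x : X) (l : ℕ) {r : ℝ} (hr : |r| * om l ≤ a) :
    r • (A.S ^ l) x ∈ A.KA a x := by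
  by_cases h0 : r = 0
  · subst h0
    refine ⟨0, ?_, by simp⟩
    simpa using hr
  · refine ⟨Finsupp.single l r, ?_, ?_⟩
    · rw [Finsupp.support_single l h0]
      simpa using hr
    · rw [Finsupp.support_single l h0]
      simp

private theorem sep_convex {a : ℝ} (x : X) : Convex ℝ (A.KA a x) := by
  classical
  rintro v ⟨c, hc, rfl⟩ w ⟨d, hd, rfl⟩ p q hp hq hpq
  refine ⟨p • c + q • d, ?_, ?_⟩
  · have hsub : (p • c + q • d).support ⊆ c.support ∪ d.support :=
      (Finsupp.support_add).trans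
        (union_subset_union Finsupp.support_smul Finsupp.support_smul)
    calc ∑ l ∈ (p • c + q • d).support, |(p • c + q • d) l| * om l
        ≤ ∑ l ∈ c.support ∪ d.support, |(p • c + q • d) l| * om l :=
          sum_le_sum_of_subset_of_nonneg hsub fun l _ _ =>
            mul_nonneg (abs_nonneg _) (sep_om_pos l).le
      _ ≤ ∑ l ∈ c.support ∪ d.support, (p * (|c l| * om l) + q * (|d l| * om l)) := by
          refine sum_le_sum fun l _ => ?_
          have h1 : |(p • c + q • d) l| ≤ p * |c l| + q * |d l| := by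
            simp only [Finsupp.coe_add, Finsupp.coe_smul, Pi.add_apply, Pi.smul_apply, smul_eq_mul]
            calc |p * c l + q * d l| ≤ |p * c l| + |q * d l| := abs_add_le _ _
              _ = p * |c l| + q * |d l| := by rw [abs_mul, abs_mul, abs_of_nonneg hp,
                  abs_of_nonneg hq]
          have := mul_le_mul_of_nonneg_right h1 (sep_om_pos l).le
          linarith
      _ = p * ∑ l ∈ c.support, |c l| * om l + q * ∑ l ∈ d.support, |d l| * om l := by
          rw [sum_add_distrib, ← mul_sum, ← mul_sum]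
          congr 2
          · refine (sum_subset subset_union_left fun l _ hl => ?_).symm
            rw [Finsupp.notMem_support_iff.1 hl]; simp
          · refine (sum_subset subset_union_right fun l _ hl => ?_).symm
            rw [Finsupp.notMem_support_iff.1 hl]; simp
      _ ≤ p * a + q * a :=
          add_le_add (mul_le_mul_of_nonneg_left hc hp) (mul_le_mul_of_nonneg_left hd hq)
      _ = a := by rw [← add_mul, hpq, one_mul]
  · have hlin : ∀ e : ℕ →₀ ℝ, ∑ l ∈ e.support, e l • (A.S ^ l) x =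
        Finsupp.linearCombination ℝ (fun l => (A.S ^ l) x) e := fun e => rfl
    rw [hlin, hlin, hlin, map_add, map_smul, map_smul]

theorem sep {x y : X} {t : ℕ} (hx : A.Q t x = x) {a δ : ℝ} (ha : 0 < a) (hδ : 0 < δ)
    (hd : ∀ v ∈ A.KA a x, δ ≤ ‖y - v‖) {ε : ℝ} (hε : 0 < ε) :
    ∃ b : T × ℕ →₀ ℝ, (∀ q, ∃ r : ℚ, (r : ℝ) = b q) ∧ ∑ q ∈ b.support, |b q| ≤ 1 ∧
      (∀ l, |A.pair b ((A.S ^ l) x)| ≤ (‖y‖ / a + ε) * om l) ∧ δ / 2 - ε ≤ A.pair b y := by
  have hzero : (0 : X) ∈ A.KA a x := by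
    have := sep_mem_single A (a := a) x 0 (r := 0) (by simpa using ha.le)
    simpa using this
  -- Hahn-Banach
  obtain ⟨f, u, hf1, hf2⟩ := geometric_hahn_banach_open (convex_ball y δ) Metric.isOpen_ball
    (sep_convex A (a := a) x) (by
      rw [Set.disjoint_left]
      intro v hv1 hv2
      rw [Metric.mem_ball, dist_eq_norm, norm_sub_rev] at hv1
      exact absurd (hd v hv2) (not_le.2 hv1))
  have hf0 : f ≠ 0 := by
    rintro rfl
    have h1 := hf1 y (Metric.mem_ball_self hδ)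
    have h2 := hf2 0 hzero
    simp at h1 h2
    linarith
  have hN : 0 < ‖f‖ := norm_pos_iff.2 hf0
  have hball : ‖f‖ * δ ≤ u - f y := by
    have h1 : ∀ w : X, ‖w‖ < δ → f w ≤ u - f y := by
      intro w hw
      have h2 := hf1 (y + w) (by rw [Metric.mem_ball, dist_eq_norm]; simpa using hw)
      rw [map_add] at h2
      linarith
    have h0 : 0 ≤ u - f y := by simpa using h1 0 (by simpa using hδ)
    rw [← le_div_iff₀ hδ]
    refine f.opNorm_le_bound (div_nonneg h0 hδ.le) ?_
    intro w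
    rcases eq_or_ne w 0 with hw | hw
    · rw [hw]; simp
    · have hw0 : 0 < ‖w‖ := norm_pos_iff.2 hw
      -- scale to norm `< δ`
      have h3 : ∀ r : ℝ, 0 < r → r < δ → |f w| * r ≤ (u - f y) * ‖w‖ := by
        intro r hr hrδ
        have h4 : ‖(r / ‖w‖) • w‖ < δ := by
          rw [norm_smul, Real.norm_of_nonneg (by positivity), div_mul_cancel₀ _ hw0.ne']
          exact hrδ
        have h5 := h1 _ h4
        have h6 := h1 (-((r / ‖w‖) • w)) (by rw [norm_neg]; exact h4)
        rw [map_neg] at h6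
        rw [map_smul, smul_eq_mul] at h5 h6
        have h7 : |r / ‖w‖ * f w| ≤ u - f y := abs_le.2 ⟨by linarith, h5⟩
        rw [abs_mul, abs_of_pos (by positivity)] at h7
        calc |f w| * r = (r / ‖w‖ * |f w|) * ‖w‖ := by field_simp
          _ ≤ (u - f y) * ‖w‖ := mul_le_mul_of_nonneg_right h7 hw0.le
      rw [div_mul_eq_mul_div, le_div_iff₀ hδ, Real.norm_eq_abs]
      have h8 : Tendsto (fun r : ℝ => |f w| * r) (𝓝[<] δ) (𝓝 (|f w| * δ)) :=
        (tendsto_const_nhds.mul tendsto_id).mono_left nhdsWithin_le_nhds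
      refine le_of_tendsto h8 ?_
      filter_upwards [Ioo_mem_nhdsLT hδ] with r hr
      exact h3 r hr.1 hr.2
  -- the normalised functional
  obtain ⟨φ, hφ⟩ : ∃ φ : X →L[ℝ] ℝ, φ = (-‖f‖⁻¹) • f := ⟨_, rfl⟩
  have hφn : ∀ z, |φ z| ≤ ‖z‖ := by
    intro z
    rw [hφ, _root_.smul_apply, smul_eq_mul, abs_mul, abs_neg, abs_of_pos
      (inv_pos.2 hN)]
    have := f.le_opNorm z
    rw [Real.norm_eq_abs] at this
    rw [inv_mul_le_iff₀ hN]
    exact this
  have hφK : ∀ v ∈ A.KA a x, φ v ≤ φ y - δ := by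
    intro v hv
    have h1 := hf2 v hv
    rw [hφ]
    simp only [_root_.smul_apply, smul_eq_mul]
    have h2 : ‖f‖ * δ ≤ f v - f y := by linarith
    have h3 : δ ≤ ‖f‖⁻¹ * (f v - f y) := by
      rw [le_inv_mul_iff₀ hN]; exact h2
    linarith
  have hφy : δ ≤ φ y := by
    have := hφK 0 hzero
    rw [map_zero] at this
    linarith
  have hφS : ∀ l, |φ ((A.S ^ l) x)| ≤ ‖y‖ / a * om l := by
    intro l
    have ho := sep_om_pos l
    have h1 : ∀ r : ℝ, |r| = a / om l → r * φ ((A.S ^ l) x) ≤ ‖y‖ := by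
      intro r hr
      have h2 := hφK _ (sep_mem_single A x l (r := r) (a := a)
        (by rw [hr, div_mul_cancel₀ _ ho.ne']))
      rw [map_smul, smul_eq_mul] at h2
      have h3 := (abs_le.1 (hφn y)).2
      linarith
    have hpos : 0 < a / om l := div_pos ha ho
    have h2 := h1 (a / om l) (abs_of_pos hpos)
    have h3 := h1 (-(a / om l)) (by rw [abs_neg, abs_of_pos hpos])
    have h4 : a / om l * |φ ((A.S ^ l) x)| ≤ ‖y‖ := by
      rcases abs_cases (φ ((A.S ^ l) x)) with h | h <;> rw [h.1]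
      · exact h2
      · linarith
    calc |φ ((A.S ^ l) x)| = (a / om l * |φ ((A.S ^ l) x)|) * (om l / a) := by field_simp
      _ ≤ ‖y‖ * (om l / a) := mul_le_mul_of_nonneg_right h4 (by positivity)
      _ = ‖y‖ / a * om l := by ring
  -- approximation
  obtain ⟨n, hnt, hny⟩ : ∃ n, t ≤ n ∧ ‖y - A.Q n y‖ ≤ ε := by
    have h1 := A.Q_tendsto y
    rw [Metric.tendsto_atTop] at h1
    obtain ⟨N, hN⟩ := h1 ε hε
    refine ⟨max N t, le_max_right _ _, ?_⟩
    have := hN (max N t) (le_max_left _ _)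
    rw [dist_eq_norm, norm_sub_rev] at this
    exact this.le
  obtain ⟨b₀, hb1, _, hb3⟩ := A.rep_functional φ hφn n
  have hM : 0 < 2 * (‖x‖ + ‖y‖ + 1) := by positivity
  obtain ⟨b, hbr, hbl, hba⟩ := A.rat_approx b₀ hb1 (ε := ε / (2 * (‖x‖ + ‖y‖ + 1)))
    (div_pos hε hM)
  have hεx : ε / (2 * (‖x‖ + ‖y‖ + 1)) * ‖x‖ ≤ ε / 2 := by
    rw [div_mul_eq_mul_div, div_le_div_iff₀ hM two_pos]
    nlinarith [norm_nonneg x, norm_nonneg y]
  have hεy : ε / (2 * (‖x‖ + ‖y‖ + 1)) * ‖y‖ ≤ ε / 2 := by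
    rw [div_mul_eq_mul_div, div_le_div_iff₀ hM two_pos]
    nlinarith [norm_nonneg x, norm_nonneg y]
  refine ⟨b, hbr, hbl, fun l => ?_, ?_⟩
  · have ho := sep_om_pos l
    have hQx : A.Q n x = x := by
      conv_lhs => rw [← hx]
      rw [A.Q_Q, min_eq_right hnt, hx]
    have h1 := hba ((A.S ^ l) x)
    rw [hb3, A.Q_Spow, hQx] at h1
    have h2 := hφS l
    have h3 := A.norm_Spow l x
    have h4 : ε / (2 * (‖x‖ + ‖y‖ + 1)) * ‖(A.S ^ l) x‖ ≤ ε * om l := by
      calc ε / (2 * (‖x‖ + ‖y‖ + 1)) * ‖(A.S ^ l) x‖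
          ≤ ε / (2 * (‖x‖ + ‖y‖ + 1)) * (om l * ‖x‖) :=
            mul_le_mul_of_nonneg_left h3 (by positivity)
        _ = (ε / (2 * (‖x‖ + ‖y‖ + 1)) * ‖x‖) * om l := by ring
        _ ≤ (ε / 2) * om l := mul_le_mul_of_nonneg_right hεx ho.le
        _ ≤ ε * om l := mul_le_mul_of_nonneg_right (by linarith) ho.le
    have h5 : |A.pair b ((A.S ^ l) x)| ≤ |φ ((A.S ^ l) x)| / 2 + ε * om l := by
      have h6 : |A.pair b ((A.S ^ l) x)| ≤ |φ ((A.S ^ l) x) / 2| +
          |A.pair b ((A.S ^ l) x) - φ ((A.S ^ l) x) / 2| := by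
        have := abs_add_le (φ ((A.S ^ l) x) / 2)
          (A.pair b ((A.S ^ l) x) - φ ((A.S ^ l) x) / 2)
        rwa [add_sub_cancel] at this
      rw [abs_div, abs_two] at h6
      linarith
    have h7 : 0 ≤ |φ ((A.S ^ l) x)| := abs_nonneg _
    rw [add_mul]
    linarith
  · have h1 := (abs_le.1 (hba y)).1
    rw [hb3] at h1
    have h2 := (abs_le.1 (hφn (y - A.Q n y))).2
    rw [map_sub] at h2
    linarith

end AHData

end Pool.Agent.MP0d518c
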