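import Pool.Agent.Lib.MP_0d518c_an.EP
import Pool.Agent.Lib.MP_0d518c_an.DepC
import Pool.Agent.Lib.MP_0d518c_an.Sep

/-! Task M: on an RIS every operator is close to combinations of powers of `S`. -/

namespace Pool.Agent.MP0d518c

open Finset Filter Topology

variable {T X : Type} [NormedAddCommGroup X] [NormedSpace ℝ X] (A : AHData T X)

namespace AHData

theorem propM (V : X →L[ℝ] X) {C δ : ℝ} (hC : 1 ≤ C) (hδ : 0 < δ) :
    ∃ a : ℝ, 0 < a ∧ ∀ (x : ℕ → X) (s t j : ℕ → ℕ), (∀ N, A.RIS C N x s t j) →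
      ∀ᶠ k in atTop, ∃ v ∈ A.KA a (x k), ‖V (x k) - v‖ < δ := by
  have hC0 : 0 ≤ C := by linarith
  obtain ⟨K, hK⟩ := exists_nat_gt (18 * (18 * C) * ‖V‖ * 4 / δ)
  set w : ℕ := 2 * K + 1 with hw
  have hwo : Odd w := ⟨K, rfl⟩
  have hmw : 18 * (18 * C) * ‖V‖ < δ / 4 * mm w := by
    have h1 : K ≤ mm w := by
      have := mm_strictMono.le_apply (x := w)
      omega
    have h2 : (K : ℝ) ≤ mm w := by exact_mod_cast h1
    have h3 : 18 * (18 * C) * ‖V‖ * 4 / δ < mm w := lt_of_lt_of_le hK h2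
    rw [div_lt_iff₀ hδ] at h3
    nlinarith
  have hn : (0 : ℝ) < nn w := by exact_mod_cast nn_pos w
  have hVC : 0 ≤ ‖V‖ * C := by positivity
  set a : ℝ := 2 * nn w * (‖V‖ * C + 1) with ha
  have ha0 : 0 < a := by positivity
  have hVa : ‖V‖ * C / a ≤ (nn w : ℝ)⁻¹ / 2 := by
    rw [div_le_iff₀ ha0, ha]
    have : (nn w : ℝ)⁻¹ / 2 * (2 * nn w * (‖V‖ * C + 1)) = ‖V‖ * C + 1 := by field_simp
    rw [this]; linarith
  set ε0 : ℝ := min ((nn w : ℝ)⁻¹ / 2) (δ / 16) with hε0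
  have hε0p : 0 < ε0 := by
    rw [hε0]; apply lt_min <;> positivity
  have hε1 : ε0 ≤ (nn w : ℝ)⁻¹ / 2 := min_le_left _ _
  have hε2 : ε0 ≤ δ / 16 := min_le_right _ _
  refine ⟨a, ha0, ?_⟩
  intro x s t j hR
  by_contra hcon
  rw [Filter.not_eventually] at hcon
  obtain ⟨f, hf, hfk⟩ := Filter.extraction_of_frequently_atTop hcon
  push Not at hfk
  have hR' := AHData.RIS.subseq A hR hf
  have hblk : ∀ k, A.Blk (s (f k)) (t (f k)) (x (f k)) := fun k =>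
    (hR (f k + 1)).blk (f k) (Nat.lt_succ_self _)
  have hnx : ∀ k, ‖x (f k)‖ ≤ C := fun k => (hR (f k + 1)).nrm (f k) (Nat.lt_succ_self _)
  have hsep : ∀ k, ∃ b : T × ℕ →₀ ℝ, (∀ q, ∃ r : ℚ, (r : ℝ) = b q) ∧
      ∑ q ∈ b.support, |b q| ≤ 1 ∧
      (∀ l, |A.pair b ((A.S ^ l) (x (f k)))| ≤ (‖V (x (f k))‖ / a + ε0) * om l) ∧
      δ / 2 - ε0 ≤ A.pair b (V (x (f k))) := fun k =>
    A.sep (hblk k).2 ha0 hδ (fun v hv => hfk k v hv) hε0p
  choose b hb1 hb2 hb3 hb4 using hsep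
  have hgood : A.Good V C ((nn w : ℝ)⁻¹) (δ / 2 - ε0) (x ∘ f) (s ∘ f) (t ∘ f) (j ∘ f) b := by
    refine
      { ris := hR'
        rat := hb1
        l1 := hb2
        small := ?_
        big := hb4 }
    intro k l
    refine (hb3 k l).trans ?_
    have ho := om_pos l
    apply mul_le_mul_of_nonneg_right _ ho.le
    have h1 : ‖V (x (f k))‖ ≤ ‖V‖ * C :=
      (V.le_opNorm _).trans (mul_le_mul_of_nonneg_left (hnx k) (norm_nonneg _))
    have h2 : ‖V (x (f k))‖ / a ≤ ‖V‖ * C / a := by gcongr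
    linarith
  have hsup : A.Supply V (18 * C) ((nn w : ℝ)⁻¹) (δ / 4) := by
    intro J hJ p0 ε hε
    obtain ⟨z, η, t0, a1, a2, a3, a4, a5, a6, a7⟩ := A.exists_exact hC0 (by linarith) hgood hJ p0
      (lt_min hε (show (0 : ℝ) < δ / 8 by positivity))
    refine ⟨z, η, t0, a1, a2, a3, a4, ?_, a6.trans (min_le_left _ _), a7.trans (min_le_left _ _)⟩
    have := min_le_right ε (δ / 8)
    linarith
  have h9 := A.dep_contra (by linarith) hsup hwo le_rfl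
  linarith

end AHData

end Pool.Agent.MP0d518c
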