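import Pool.Agent.Lib.MP_0d518c_an.Basic

/-! Task R1: the finite dimensional pieces `Q n X`. -/

namespace Pool.Agent.MP0d518c

open Finset Filter Topology

variable {T X : Type} [NormedAddCommGroup X] [NormedSpace ℝ X] (A : AHData T X)

namespace AHData

/-- `‖Q n x‖ ≤ 2 sup_{rank < n} |ev q x|` -/
theorem Q_le_coord {n : ℕ} {x : X} {c : ℝ} (hc : 0 ≤ c)
    (h : ∀ q : T × ℕ, A.rank q.1 < n → |A.ev q x| ≤ c) : ‖A.Q n x‖ ≤ 2 * c := by
  obtain ⟨x', h1, h2, h3⟩ := A.ext n (fun q => if A.rank q.1 < n then A.ev q x else 0) c hc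
    (fun q => by
      by_cases hq : A.rank q.1 < n
      · simpa [hq] using h q hq
      · simpa [hq] using hc)
  have h0 : A.Q n (x' - x) = 0 := by
    refine A.Q_eq_zero n _ fun q hq => ?_
    rcases le_or_gt q.2 (A.rank q.1) with h4 | h4
    · rw [map_sub, h2 q hq h4]
      simp [hq]
    · exact A.ev_dead q _ h4
  have h5 : A.Q n x = x' := by
    rw [map_sub, h1, sub_eq_zero] at h0
    exact h0.symm
  rw [h5]
  exact h3

/-- the dual basis -/
theorem exists_dual (n : ℕ) : ∃ (F : Finset (T × ℕ)) (v : T × ℕ → X),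
    (∀ q, q ∈ F ↔ A.rank q.1 < n ∧ q.2 ≤ A.rank q.1) ∧
    (∀ q ∈ F, A.Q n (v q) = v q) ∧
    (∀ q ∈ F, A.ev q (v q) = 1) ∧
    (∀ q ∈ F, ∀ r ∈ F, q ≠ r → A.ev q (v r) = 0) ∧
    (∀ x, A.Q n x = ∑ q ∈ F, A.ev q x • v q) := by
  classical
  have hfin : {q : T × ℕ | A.rank q.1 < n ∧ q.2 ≤ A.rank q.1}.Finite := by
    refine ((A.fin n).prod (Set.finite_Iic n)).subset ?_
    rintro ⟨τ, k⟩ ⟨h1, h2⟩
    simp only at h1 h2
    exact ⟨le_of_lt h1, by simp only [Set.mem_Iic]; omega⟩
  have hv : ∀ r : T × ℕ, ∃ x, A.Q n x = x ∧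
      (∀ q : T × ℕ, A.rank q.1 < n → q.2 ≤ A.rank q.1 → A.ev q x = if q = r then 1 else 0) := by
    intro r
    obtain ⟨x, h1, h2, -⟩ := A.ext n (fun q => if q = r then 1 else 0) 1 zero_le_one
      (fun q => by by_cases hq : q = r <;> simp [hq])
    exact ⟨x, h1, h2⟩
  choose v hv1 hv2 using hv
  have hF : ∀ q, q ∈ hfin.toFinset ↔ A.rank q.1 < n ∧ q.2 ≤ A.rank q.1 := by
    intro q
    rw [Set.Finite.mem_toFinset]
    exact Iff.rfl
  refine ⟨hfin.toFinset, v, hF, fun q _ => hv1 q, ?_, ?_, ?_⟩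
  · intro q hq
    rw [hv2 q q ((hF q).1 hq).1 ((hF q).1 hq).2, if_pos rfl]
  · intro q hq r _ hqr
    rw [hv2 r q ((hF q).1 hq).1 ((hF q).1 hq).2, if_neg hqr]
  · intro x
    have h0 : A.Q n (x - ∑ q ∈ hfin.toFinset, A.ev q x • v q) = 0 := by
      refine A.Q_eq_zero n _ fun q hq => ?_
      rcases le_or_gt q.2 (A.rank q.1) with h4 | h4
      · have hqF : q ∈ hfin.toFinset := (hF q).2 ⟨hq, h4⟩
        rw [map_sub, map_sum, sub_eq_zero]
        rw [Finset.sum_eq_single q]
        · rw [map_smul, hv2 q q hq h4, if_pos rfl]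
          simp
        · intro r _ hrq
          rw [map_smul, hv2 r q hq h4, if_neg (Ne.symm hrq)]
          simp
        · intro h
          exact absurd hqF h
      · exact A.ev_dead q _ h4
    rw [map_sub, sub_eq_zero] at h0
    rw [h0, map_sum]
    refine Finset.sum_congr rfl fun q _ => ?_
    rw [map_smul, hv1 q]

/-- every functional of norm `≤ 1` composed with `Q n` is a combination of coordinates of
rank `< n` with `ℓ_1`-norm `≤ 2` -/
theorem rep_functional (φ : X →L[ℝ] ℝ) (hφ : ∀ x, |φ x| ≤ ‖x‖) (n : ℕ) :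
    ∃ b : T × ℕ →₀ ℝ, ∑ q ∈ b.support, |b q| ≤ 2 ∧ (∀ q ∈ b.support, A.rank q.1 < n) ∧
      ∀ x, A.pair b x = φ (A.Q n x) := by
  classical
  obtain ⟨F, v, hF, hv, hv1, hv0, hQ⟩ := A.exists_dual n
  let b : T × ℕ →₀ ℝ := Finsupp.onFinset F (fun q => if q ∈ F then φ (v q) else 0)
    (fun q hq => by
      by_contra h
      simp [h] at hq)
  have hb : ∀ q, b q = if q ∈ F then φ (v q) else 0 := fun q => rfl
  have hsub : b.support ⊆ F := Finsupp.support_onFinset_subset
  refine ⟨b, ?_, fun q hq => ((hF q).1 (hsub hq)).1, ?_⟩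
  · have h1 : ∑ q ∈ b.support, |b q| = ∑ q ∈ F, |φ (v q)| := by
      rw [Finset.sum_subset hsub]
      · refine Finset.sum_congr rfl fun q hq => ?_
        rw [hb, if_pos hq]
      · intro q _ hq
        rw [Finsupp.notMem_support_iff.1 hq, abs_zero]
    rw [h1]
    set sg : T × ℕ → ℝ := fun q => if 0 ≤ φ (v q) then 1 else -1 with hsg
    have hsg1 : ∀ q, |sg q| ≤ 1 := by
      intro q
      by_cases h : 0 ≤ φ (v q) <;> simp [hsg, h]
    have hsg2 : ∀ q, sg q * φ (v q) = |φ (v q)| := by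
      intro q
      by_cases h : 0 ≤ φ (v q)
      · simp [hsg, h, abs_of_nonneg h]
      · push Not at h
        simp [hsg, not_le.2 h, abs_of_neg h]
    set y : X := ∑ q ∈ F, sg q • v q with hy
    have hQy : A.Q n y = y := by
      rw [hy, map_sum]
      refine Finset.sum_congr rfl fun q hq => ?_
      rw [map_smul, hv q hq]
    have hφy : φ y = ∑ q ∈ F, |φ (v q)| := by
      rw [hy, map_sum]
      refine Finset.sum_congr rfl fun q hq => ?_
      rw [map_smul, smul_eq_mul, hsg2]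
    have hny : ‖A.Q n y‖ ≤ 2 * 1 := by
      refine A.Q_le_coord zero_le_one fun q hq => ?_
      rcases le_or_gt q.2 (A.rank q.1) with h4 | h4
      · have hqF : q ∈ F := (hF q).2 ⟨hq, h4⟩
        have : A.ev q y = sg q := by
          rw [hy, map_sum, Finset.sum_eq_single q]
          · rw [map_smul, hv1 q hqF]
            simp
          · intro r hr hrq
            rw [map_smul, hv0 q hqF r hr (Ne.symm hrq)]
            simp
          · intro h
            exact absurd hqF h
        rw [this]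
        exact hsg1 q
      · rw [A.ev_dead q _ h4, abs_zero]
        exact zero_le_one
    rw [← hφy]
    calc φ y ≤ |φ y| := le_abs_self _
      _ ≤ ‖y‖ := hφ y
      _ = ‖A.Q n y‖ := by rw [hQy]
      _ ≤ 2 := by linarith
  · intro x
    have h1 : A.pair b x = ∑ q ∈ F, φ (v q) * A.ev q x := by
      unfold AHData.pair
      rw [Finset.sum_subset hsub]
      · refine Finset.sum_congr rfl fun q hq => ?_
        rw [hb, if_pos hq]
      · intro q _ hq
        rw [Finsupp.notMem_support_iff.1 hq, zero_mul]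
    rw [h1, hQ x, map_sum]
    refine Finset.sum_congr rfl fun q _ => ?_
    rw [map_smul, smul_eq_mul, mul_comm]

end AHData

end Pool.Agent.MP0d518c
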