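import Pool.Agent.Lib.MP_0d518c_an.PropM
import Pool.Agent.Lib.MP_0d518c_an.Bvec

/-! Task RP1: polynomials approximating `V` on the base vectors. -/

namespace Pool.Agent.MP0d518c

open Finset Filter Topology

variable {T X : Type} [NormedAddCommGroup X] [NormedSpace ℝ X] (A : AHData T X)

namespace AHData

/-- by `propM` for the RIS `(y_n)` -/
theorem exists_pn (V : X →L[ℝ] X) (y : ℕ → X) (hy : ∀ n, A.IsBase n (y n)) :
    ∃ p : ℕ → ℕ → ℝ, Tendsto (fun n => ‖V (y n) - ∑ l ∈ Finset.range (n + 1),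
      p n l • (A.S ^ l) (y n)‖) atTop (𝓝 0) := by
  -- almost optimal coefficients
  have h1 : ∀ n : ℕ, ∃ p : ℕ → ℝ, ∀ c : ℕ → ℝ,
      ‖V (y n) - ∑ l ∈ Finset.range (n + 1), p l • (A.S ^ l) (y n)‖ ≤
        ‖V (y n) - ∑ l ∈ Finset.range (n + 1), c l • (A.S ^ l) (y n)‖ + 1 / ((n : ℝ) + 1) := by
    intro n
    set D : Set ℝ := Set.range fun c : ℕ → ℝ =>
      ‖V (y n) - ∑ l ∈ Finset.range (n + 1), c l • (A.S ^ l) (y n)‖ with hD
    have hne : D.Nonempty := Set.range_nonempty _
    have hbd : BddBelow D := ⟨0, by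
      rintro _ ⟨c, rfl⟩
      exact norm_nonneg _⟩
    have hpos : (0 : ℝ) < 1 / ((n : ℝ) + 1) := by positivity
    obtain ⟨_, ⟨p, rfl⟩, hp⟩ := exists_lt_of_csInf_lt hne
      (show sInf D < sInf D + 1 / ((n : ℝ) + 1) by linarith)
    refine ⟨p, fun c => ?_⟩
    have h2 : sInf D ≤ ‖V (y n) - ∑ l ∈ Finset.range (n + 1), c l • (A.S ^ l) (y n)‖ :=
      csInf_le hbd ⟨c, rfl⟩
    linarith
  choose p hp using h1
  refine ⟨p, ?_⟩
  rw [Metric.tendsto_atTop']
  intro ε hε
  have hris : ∀ N, A.RIS 8 N y (fun k => k) (fun k => k + 1) (fun k => k + k) :=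
    A.ris_of_all (C := 8) (x := y) (s := fun k => k) (t := fun k => k + 1)
      (fun k => (hy k).blk) (fun k => Nat.le_succ k) (fun k => le_refl _)
      (fun k => (hy k).nrm.trans (by norm_num)) (fun k q i hq => (hy k).wtb q i hq)
  obtain ⟨a, _, ha⟩ := A.propM V (C := 8) (δ := ε / 2) (by norm_num) (by positivity)
  have h3 := ha y _ _ _ hris
  have h4 : ∀ᶠ n : ℕ in atTop, 1 / ((n : ℝ) + 1) < ε / 2 :=
    tendsto_one_div_add_atTop_nhds_zero_nat.eventually (gt_mem_nhds (by positivity))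
  obtain ⟨N, hN⟩ := Filter.eventually_atTop.1 (h3.and h4)
  refine ⟨N, fun n hn => ?_⟩
  obtain ⟨⟨v, ⟨c, _, hv⟩, hvn⟩, hn2⟩ := hN n hn.le
  rw [A.KA_sum_range (hy n).blk.2 c] at hv
  rw [dist_zero_right, norm_norm]
  have h5 := hp n (fun l => c l)
  rw [← hv] at h5
  linarith

/-- one pair of base vectors -/
private theorem RP1_pair (V : X →L[ℝ] X) {n m : ℕ} (hnm : n < m) {yn ym : X}
    (hn : A.IsBase n yn) (hm : A.IsBase m ym) (a b c : ℕ → ℝ) {δ : ℝ}
    (h1 : ‖V yn - ∑ l ∈ Finset.range (n + 1), a l • (A.S ^ l) yn‖ < δ)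
    (h2 : ‖V ym - ∑ l ∈ Finset.range (m + 1), b l • (A.S ^ l) ym‖ < δ)
    (h3 : ‖V (yn + ym) - ∑ l ∈ Finset.range (m + 1), c l • (A.S ^ l) (yn + ym)‖ < δ) :
    ∑ l ∈ Finset.range (n + 1), |a l - b l| * om l ≤ 15 * δ := by
  have hcn : ∑ l ∈ Finset.range (m + 1), c l • (A.S ^ l) yn =
      ∑ l ∈ Finset.range (n + 1), c l • (A.S ^ l) yn := by
    symm
    apply Finset.sum_subset (Finset.range_mono (by omega))
    intro l _ hl
    rw [Finset.mem_range, not_lt] at hl
    rw [A.Spow_dead hn.blk.2 hl, smul_zero]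
  set P : X := ∑ l ∈ Finset.range (n + 1), (a l - c l) • (A.S ^ l) yn with hP
  set R : X := ∑ l ∈ Finset.range (m + 1), (b l - c l) • (A.S ^ l) ym with hR
  have hPR : P + R = -(V yn - ∑ l ∈ Finset.range (n + 1), a l • (A.S ^ l) yn) -
      (V ym - ∑ l ∈ Finset.range (m + 1), b l • (A.S ^ l) ym) +
      (V (yn + ym) - ∑ l ∈ Finset.range (m + 1), c l • (A.S ^ l) (yn + ym)) := by
    have e1 : P = ∑ l ∈ Finset.range (n + 1), a l • (A.S ^ l) yn -
        ∑ l ∈ Finset.range (n + 1), c l • (A.S ^ l) yn := by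
      rw [hP, ← Finset.sum_sub_distrib]
      exact Finset.sum_congr rfl fun l _ => sub_smul _ _ _
    have e2 : R = ∑ l ∈ Finset.range (m + 1), b l • (A.S ^ l) ym -
        ∑ l ∈ Finset.range (m + 1), c l • (A.S ^ l) ym := by
      rw [hR, ← Finset.sum_sub_distrib]
      exact Finset.sum_congr rfl fun l _ => sub_smul _ _ _
    have e3 : ∑ l ∈ Finset.range (m + 1), c l • (A.S ^ l) (yn + ym) =
        ∑ l ∈ Finset.range (n + 1), c l • (A.S ^ l) yn +
        ∑ l ∈ Finset.range (m + 1), c l • (A.S ^ l) ym := by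
      rw [← hcn, ← Finset.sum_add_distrib]
      exact Finset.sum_congr rfl fun l _ => by rw [map_add, smul_add]
    rw [e1, e2, e3, map_add]
    abel
  have hPRn : ‖P + R‖ ≤ 3 * δ := by
    rw [hPR]
    refine (norm_add_le _ _).trans ?_
    have := norm_sub_le (-(V yn - ∑ l ∈ Finset.range (n + 1), a l • (A.S ^ l) yn))
      (V ym - ∑ l ∈ Finset.range (m + 1), b l • (A.S ^ l) ym)
    rw [norm_neg] at this
    linarith
  have hPb : A.Blk n (n + 1) P := by
    rw [hP]
    apply Blk.sum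
    intro l _
    exact Blk.smul A (Blk.Spow A hn.blk l) _
  have hRb : A.Blk m (m + 1) R := by
    rw [hR]
    apply Blk.sum
    intro l _
    exact Blk.smul A (Blk.Spow A hm.blk l) _
  have hPn : ‖P‖ ≤ 6 * δ := by
    have e1 : A.Q (n + 1) (P + R) = P := by
      rw [map_add, Blk.Q_le A hRb (by omega), hPb.2, add_zero]
    have e2 := A.Q_norm (n + 1) (P + R)
    rw [e1] at e2
    linarith
  have hRn : ‖R‖ ≤ 9 * δ := by
    have e1 : R = (P + R) - P := by abel
    rw [e1]
    refine (norm_sub_le _ _).trans ?_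
    linarith
  have i1 := (hn.indep fun l => a l - c l).trans hPn
  have i2 := (hm.indep fun l => b l - c l).trans hRn
  have i3 : ∑ l ∈ Finset.range (n + 1), |b l - c l| * om l ≤
      ∑ l ∈ Finset.range (m + 1), |b l - c l| * om l := by
    apply Finset.sum_le_sum_of_subset_of_nonneg (Finset.range_mono (by omega))
    intro l _ _
    exact mul_nonneg (abs_nonneg _) (om_pos l).le
  have i4 : ∑ l ∈ Finset.range (n + 1), |a l - b l| * om l ≤
      ∑ l ∈ Finset.range (n + 1), |a l - c l| * om l +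
      ∑ l ∈ Finset.range (n + 1), |b l - c l| * om l := by
    rw [← Finset.sum_add_distrib]
    apply Finset.sum_le_sum
    intro l _
    rw [← add_mul]
    apply mul_le_mul_of_nonneg_right _ (om_pos l).le
    have := abs_sub_le (a l) (c l) (b l)
    rwa [abs_sub_comm (c l) (b l)] at this
  linarith

/-- by `propM` for RIS of the form `(y_(n_k) + y_(m_k))` -/
theorem pair_trick (V : X →L[ℝ] X) (y : ℕ → X) (hy : ∀ n, A.IsBase n (y n)) {p : ℕ → ℕ → ℝ}
    (hp : Tendsto (fun n => ‖V (y n) - ∑ l ∈ Finset.range (n + 1),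
      p n l • (A.S ^ l) (y n)‖) atTop (𝓝 0)) {δ : ℝ} (hδ : 0 < δ) :
    ∃ N : ℕ, ∀ n m, N ≤ n → n < m →
      ∑ l ∈ Finset.range (n + 1), |p n l - p m l| * om l < δ := by
  by_contra hcon
  push Not at hcon
  choose f g hf hfg hbig using hcon
  -- the recursively defined thresholds
  let M : ℕ → ℕ := fun k => Nat.rec 0 (fun _ r => g r + 1) k
  have hM : ∀ k, M (k + 1) = g (M k) + 1 := fun _ => rfl
  have hts : ∀ k, g (M k) + 1 ≤ f (M (k + 1)) := by
    intro k
    rw [← hM]
    exact hf _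
  have hMk : ∀ k, k ≤ M k := by
    intro k
    induction k with
    | zero => exact Nat.zero_le _
    | succ k ih =>
      rw [hM]
      have h1 := hf (M k)
      have h2 := hfg (M k)
      omega
  have hfk : ∀ k, k ≤ f (M k) := fun k => (hMk k).trans (hf _)
  have hgk : ∀ k, k ≤ g (M k) := fun k => (hfk k).trans (hfg _).le
  have hris : ∀ N, A.RIS 16 N (fun k => y (f (M k)) + y (g (M k))) (fun k => f (M k))
      (fun k => g (M k) + 1) (fun k => f (M k) + k) := by
    apply A.ris_of_all (C := 16)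
    · intro k
      have h1 := hfg (M k)
      exact Blk.add A (Blk.mono A (hy _).blk (le_refl _) (by omega))
        (Blk.mono A (hy _).blk h1.le (le_refl _))
    · intro k
      have h1 := hfg (M k)
      change f (M k) ≤ g (M k) + 1
      omega
    · exact hts
    · intro k
      have h1 := (hy (f (M k))).nrm
      have h2 := (hy (g (M k))).nrm
      have h3 := norm_add_le (y (f (M k))) (y (g (M k)))
      change ‖y (f (M k)) + y (g (M k))‖ ≤ 16
      linarith
    · intro k q i hq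
      have h1 := (hy (f (M k))).wtb q i hq
      have h2 := (hy (g (M k))).wtb q i hq
      change |A.ev q (y (f (M k)) + y (g (M k)))| ≤ _
      rw [map_add]
      refine (abs_add_le _ _).trans ?_
      linarith
  obtain ⟨a, _, ha⟩ := A.propM V (C := 16) (δ := δ / 100) (by norm_num) (by positivity)
  have h3 := ha _ _ _ _ hris
  have hp' := hp.eventually (gt_mem_nhds (show (0 : ℝ) < δ / 100 by positivity))
  have hf_tend : Tendsto (fun k => f (M k)) atTop atTop :=
    tendsto_atTop_mono hfk tendsto_id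
  have hg_tend : Tendsto (fun k => g (M k)) atTop atTop :=
    tendsto_atTop_mono hgk tendsto_id
  obtain ⟨k, ⟨v, ⟨c, _, hv⟩, hvk⟩, hk1, hk2⟩ :=
    (h3.and ((hf_tend.eventually hp').and (hg_tend.eventually hp'))).exists
  have hQ : A.Q (g (M k) + 1) (y (f (M k)) + y (g (M k))) = y (f (M k)) + y (g (M k)) :=
    (hris (k + 1)).blk k (Nat.lt_succ_self k) |>.2
  rw [A.KA_sum_range hQ c] at hv
  rw [hv] at hvk
  have h5 := RP1_pair A V (hfg (M k)) (hy _) (hy _) (p (f (M k))) (p (g (M k)))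
    (fun l => c l) hk1 hk2 hvk
  have h6 := hbig (M k)
  linarith

end AHData

end Pool.Agent.MP0d518c
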