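import Pool.Agent.Lib.MP_0d518c_an.RP1

/-! Task RP2: coefficients along the base vectors. -/

namespace Pool.Agent.MP0d518c

open Finset Filter Topology

variable {T X : Type} [NormedAddCommGroup X] [NormedSpace ℝ X] (A : AHData T X)

namespace AHData

/-- coefficients along the base vectors -/
theorem base_coeff [CompleteSpace X] (V : X →L[ℝ] X) (y : ℕ → X) (hy : ∀ n, A.IsBase n (y n)) :
    ∃ μ : ℕ → ℝ, (Summable fun l => |μ l| * om l) ∧
      Tendsto (fun n => (V - ∑' l, μ l • A.S ^ l) (y n)) atTop (𝓝 0) := by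
  obtain ⟨p, hp⟩ := A.exists_pn V y hy
  have hpair := fun {δ : ℝ} (hδ : 0 < δ) => A.pair_trick V y hy hp hδ
  -- each column is Cauchy
  have hcau : ∀ l, CauchySeq (fun n => p n l) := by
    intro l
    rw [Metric.cauchySeq_iff']
    intro ε hε
    obtain ⟨N, hN⟩ := hpair (mul_pos hε (om_pos l))
    refine ⟨max N l, fun n hn => ?_⟩
    rcases eq_or_lt_of_le hn with h | h
    · rw [← h]; simpa using hε
    · have h1 := hN (max N l) n (le_max_left _ _) h
      have h2 : |p (max N l) l - p n l| * om l ≤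
          ∑ i ∈ Finset.range (max N l + 1), |p (max N l) i - p n i| * om i :=
        Finset.single_le_sum (f := fun i => |p (max N l) i - p n i| * om i)
          (fun i _ => mul_nonneg (abs_nonneg _) (om_pos i).le)
          (Finset.mem_range.mpr (Nat.lt_succ_of_le (le_max_right _ _)))
      have h3 : |p (max N l) l - p n l| * om l < ε * om l := lt_of_le_of_lt h2 h1
      have h4 := lt_of_mul_lt_mul_right h3 (om_pos l).le
      rw [Real.dist_eq, abs_sub_comm]
      exact h4
  have hlim : ∀ l, ∃ c, Tendsto (fun n => p n l) atTop (𝓝 c) :=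
    fun l => cauchySeq_tendsto_of_complete (hcau l)
  choose μ hμ using hlim
  -- limit of the pair estimate
  have hlimest : ∀ δ : ℝ, 0 < δ → ∃ N, ∀ n, N ≤ n →
      ∑ l ∈ Finset.range (n + 1), |p n l - μ l| * om l ≤ δ := by
    intro δ hδ
    obtain ⟨N, hN⟩ := hpair hδ
    refine ⟨N, fun n hn => ?_⟩
    have ht : Tendsto (fun m => ∑ l ∈ Finset.range (n + 1), |p n l - p m l| * om l) atTop
        (𝓝 (∑ l ∈ Finset.range (n + 1), |p n l - μ l| * om l)) := by
      refine tendsto_finsetSum _ fun l _ => ?_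
      exact ((tendsto_const_nhds.sub (hμ l)).abs).mul_const _
    refine le_of_tendsto ht ?_
    filter_upwards [eventually_gt_atTop n] with m hm
    exact (hN n m hn hm).le
  -- boundedness of partial sums
  obtain ⟨N1, hN1⟩ := hlimest 1 one_pos
  obtain ⟨N2, hN2⟩ := (hp.eventually (gt_mem_nhds (zero_lt_one' ℝ))).exists_forall_of_atTop
  have hbound : ∀ n, max N1 N2 ≤ n →
      ∑ l ∈ Finset.range (n + 1), |μ l| * om l ≤ 2 * ‖V‖ + 2 := by
    intro n hn
    have h1 := hN1 n (le_trans (le_max_left _ _) hn)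
    have h2 := hN2 n (le_trans (le_max_right _ _) hn)
    have h3 := (hy n).indep (p n)
    have h4 : ‖∑ l ∈ Finset.range (n + 1), p n l • (A.S ^ l) (y n)‖ ≤ ‖V (y n)‖ + 1 := by
      have : ∑ l ∈ Finset.range (n + 1), p n l • (A.S ^ l) (y n) =
          V (y n) - (V (y n) - ∑ l ∈ Finset.range (n + 1), p n l • (A.S ^ l) (y n)) := by abel
      rw [this]
      refine (norm_sub_le _ _).trans ?_
      linarith
    have h5 : ‖V (y n)‖ ≤ ‖V‖ * 2 := (V.le_opNorm _).trans
      (mul_le_mul_of_nonneg_left (hy n).nrm (norm_nonneg _))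
    have h6 : ∑ l ∈ Finset.range (n + 1), |μ l| * om l ≤
        ∑ l ∈ Finset.range (n + 1), |p n l| * om l +
          ∑ l ∈ Finset.range (n + 1), |p n l - μ l| * om l := by
      rw [← Finset.sum_add_distrib]
      refine Finset.sum_le_sum fun l _ => ?_
      rw [← add_mul]
      refine mul_le_mul_of_nonneg_right ?_ (om_pos l).le
      have : μ l = p n l - (p n l - μ l) := by ring
      calc |μ l| = |p n l - (p n l - μ l)| := by rw [← this]
        _ ≤ |p n l| + |p n l - μ l| := abs_sub _ _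
    linarith
  have hnn : ∀ l, 0 ≤ |μ l| * om l := fun l => mul_nonneg (abs_nonneg _) (om_pos l).le
  have hsum : Summable fun l => |μ l| * om l := by
    refine summable_of_sum_range_le hnn (c := 2 * ‖V‖ + 2) fun n => ?_
    refine le_trans ?_ (hbound (max (max N1 N2) n) (le_max_left _ _))
    refine Finset.sum_le_sum_of_subset_of_nonneg ?_ fun i _ _ => hnn i
    intro i hi
    rw [Finset.mem_range] at hi ⊢
    exact lt_of_lt_of_le hi (le_trans (le_max_right _ _) (Nat.le_succ _))
  refine ⟨μ, hsum, ?_⟩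
  rw [tendsto_zero_iff_norm_tendsto_zero]
  rw [Metric.tendsto_atTop]
  intro ε hε
  obtain ⟨N3, hN3⟩ := hlimest (ε / 8) (by positivity)
  obtain ⟨N4, hN4⟩ := (hp.eventually (gt_mem_nhds
    (show (0 : ℝ) < ε / 2 by positivity))).exists_forall_of_atTop
  refine ⟨max N3 N4, fun n hn => ?_⟩
  have h1 := hN3 n (le_trans (le_max_left _ _) hn)
  have h2 := hN4 n (le_trans (le_max_right _ _) hn)
  rw [dist_zero_right, norm_norm]
  have h3 : (V - ∑' l, μ l • A.S ^ l) (y n) =
      (V (y n) - ∑ l ∈ Finset.range (n + 1), p n l • (A.S ^ l) (y n)) +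
        ∑ l ∈ Finset.range (n + 1), (p n l - μ l) • (A.S ^ l) (y n) := by
    rw [ContinuousLinearMap.sub_apply, A.tsum_apply_base hsum (hy n).blk.2]
    simp only [sub_smul, Finset.sum_sub_distrib]
    abel
  rw [h3]
  refine (norm_add_le _ _).trans_lt ?_
  have h4 : ‖∑ l ∈ Finset.range (n + 1), (p n l - μ l) • (A.S ^ l) (y n)‖ ≤
      2 * ∑ l ∈ Finset.range (n + 1), |p n l - μ l| * om l := by
    refine (norm_sum_le _ _).trans ?_
    rw [Finset.mul_sum]
    refine Finset.sum_le_sum fun l _ => ?_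
    rw [norm_smul, Real.norm_eq_abs]
    have h5 : ‖(A.S ^ l) (y n)‖ ≤ om l * 2 :=
      ((A.S ^ l).le_opNorm _).trans (mul_le_mul (A.opNorm_Spow l) (hy n).nrm (norm_nonneg _)
        (om_pos l).le)
    calc |p n l - μ l| * ‖(A.S ^ l) (y n)‖ ≤ |p n l - μ l| * (om l * 2) :=
          mul_le_mul_of_nonneg_left h5 (abs_nonneg _)
      _ = 2 * (|p n l - μ l| * om l) := by ring
  linarith

end AHData

end Pool.Agent.MP0d518c
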