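import Pool.Agent.Lib.MP_0d518c_an.SpDefs
import Pool.Agent.Lib.MP_0d518c_an.Par

/-! Task SA1: truncations, the transpose of the shift, the pairing. -/

namespace Pool.Agent.MP0d518c

open Finset Filter Topology

variable {T : Type} (D : TreeData T)

namespace TreeData

theorem SA1_tr_single (n : ℕ) (q : T × ℕ) (c : ℝ) :
    D.tr n (Finsupp.single q c) = if D.rank q.1 < n then Finsupp.single q c else 0 := by
  unfold tr
  rw [Finsupp.linearCombination_single]
  split_ifs
  · rw [Finsupp.smul_single, smul_eq_mul, mul_one]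
  · rw [smul_zero]

theorem tr_apply (n : ℕ) (f : T × ℕ →₀ ℝ) (q : T × ℕ) :
    D.tr n f q = if D.rank q.1 < n then f q else 0 := by
  induction f using Finsupp.induction_linear with
  | zero => simp
  | add f g hf hg =>
    rw [map_add, Finsupp.add_apply, hf, hg, Finsupp.add_apply]
    split_ifs
    · rfl
    · rw [add_zero]
  | single r c =>
    rw [SA1_tr_single]
    by_cases hr : r = q
    · subst hr
      split_ifs <;> simp
    · have h1 : (Finsupp.single r c : T × ℕ →₀ ℝ) q = 0 := Finsupp.single_eq_of_ne' hr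
      rw [h1]
      split_ifs <;> simp [h1]

theorem tr_tr (n k : ℕ) (f : T × ℕ →₀ ℝ) : D.tr n (D.tr k f) = D.tr (min n k) f := by
  ext q
  rw [tr_apply, tr_apply, tr_apply]
  by_cases h1 : D.rank q.1 < n <;> by_cases h2 : D.rank q.1 < k <;> simp [h1, h2]

theorem tr_zero (f : T × ℕ →₀ ℝ) : D.tr 0 f = 0 := by
  ext q
  rw [tr_apply]
  simp

theorem Sst_single (q : T × ℕ) (c : ℝ) : D.Sst (Finsupp.single q c) =
    if q.2 + 1 ≤ D.rank q.1 then Finsupp.single (q.1, q.2 + 1) (c * (om (q.2 + 1) / om q.2))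
    else 0 := by
  unfold Sst
  rw [Finsupp.linearCombination_single]
  split_ifs
  · rw [Finsupp.smul_single, smul_eq_mul]
  · rw [smul_zero]

theorem tr_Sst (n : ℕ) (f : T × ℕ →₀ ℝ) : D.tr n (D.Sst f) = D.Sst (D.tr n f) := by
  induction f using Finsupp.induction_linear with
  | zero => simp
  | add f g hf hg => rw [map_add, map_add, hf, hg, map_add, map_add]
  | single r c =>
    rw [SA1_tr_single, Sst_single]
    split_ifs with h1 h2 h2
    · rw [SA1_tr_single, if_pos h2, Sst_single, if_pos h1]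
    · rw [SA1_tr_single, if_neg h2, map_zero]
    · rw [Sst_single, if_neg h1, map_zero]
    · rw [map_zero, map_zero]

theorem tr_Sst_pow (n k : ℕ) (f : T × ℕ →₀ ℝ) :
    D.tr n ((D.Sst ^ k) f) = (D.Sst ^ k) (D.tr n f) := by
  induction k with
  | zero => rfl
  | succ k ih => rw [pow_succ', Module.End.mul_apply, tr_Sst, ih, Module.End.mul_apply]

theorem SA1_pr_eq (f x : T × ℕ →₀ ℝ) :
    pr f x = Finsupp.linearCombination ℝ (fun q => x q) f := rfl

theorem pr_add_left (f g x : T × ℕ →₀ ℝ) : pr (f + g) x = pr f x + pr g x := by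
  simp only [SA1_pr_eq, map_add]

theorem pr_smul_left (c : ℝ) (f x : T × ℕ →₀ ℝ) : pr (c • f) x = c * pr f x := by
  simp only [SA1_pr_eq, map_smul, smul_eq_mul]

theorem pr_sum_left {ι : Type} (s : Finset ι) (f : ι → T × ℕ →₀ ℝ) (x : T × ℕ →₀ ℝ) :
    pr (∑ i ∈ s, f i) x = ∑ i ∈ s, pr (f i) x := by
  simp only [SA1_pr_eq, map_sum]

theorem pr_zero_left (x : T × ℕ →₀ ℝ) : pr 0 x = 0 := by
  simp only [SA1_pr_eq, map_zero]

theorem pr_single_left (q : T × ℕ) (c : ℝ) (x : T × ℕ →₀ ℝ) :
    pr (Finsupp.single q c) x = c * x q := by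
  rw [SA1_pr_eq, Finsupp.linearCombination_single, smul_eq_mul]

theorem pr_add_right (f x y : T × ℕ →₀ ℝ) : pr f (x + y) = pr f x + pr f y := by
  simp only [pr, Finsupp.add_apply, mul_add, Finset.sum_add_distrib]

theorem pr_smul_right (c : ℝ) (f x : T × ℕ →₀ ℝ) : pr f (c • x) = c * pr f x := by
  simp only [pr, Finsupp.smul_apply, smul_eq_mul, Finset.mul_sum]
  exact Finset.sum_congr rfl fun q _ => by ring

theorem pr_tr (n : ℕ) (f x : T × ℕ →₀ ℝ) : pr (D.tr n f) x = pr f (D.tr n x) := by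
  induction f using Finsupp.induction_linear with
  | zero => rw [map_zero, pr_zero_left, pr_zero_left]
  | add f g hf hg => rw [map_add, pr_add_left, hf, hg, pr_add_left]
  | single r c =>
    rw [SA1_tr_single, pr_single_left, tr_apply]
    split_ifs
    · rw [pr_single_left]
    · rw [pr_zero_left, mul_zero]

theorem SA1_SU_apply (x : T × ℕ →₀ ℝ) (q : T × ℕ) : D.SU x q =
    if q.2 + 1 ≤ D.rank q.1 then (om (q.2 + 1) / om q.2) * x (q.1, q.2 + 1) else 0 := by
  induction x using Finsupp.induction_linear with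
  | zero => simp
  | add f g hf hg =>
    rw [map_add, Finsupp.add_apply, hf, hg, Finsupp.add_apply]
    split_ifs
    · rw [mul_add]
    · rw [add_zero]
  | single r c =>
    unfold SU
    rw [Finsupp.linearCombination_single]
    by_cases hr : r = (q.1, q.2 + 1)
    · subst hr
      by_cases h : q.2 + 1 ≤ D.rank q.1
      · have h1 : 1 ≤ ((q.1, q.2 + 1) : T × ℕ).2 ∧
            ((q.1, q.2 + 1) : T × ℕ).2 ≤ D.rank ((q.1, q.2 + 1) : T × ℕ).1 :=
          ⟨Nat.le_add_left 1 q.2, h⟩
        rw [if_pos h1, if_pos h, Finsupp.smul_single, smul_eq_mul]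
        simp only [Nat.add_sub_cancel, Prod.mk.eta, Finsupp.single_eq_same]
        ring
      · have h1 : ¬ (1 ≤ ((q.1, q.2 + 1) : T × ℕ).2 ∧
            ((q.1, q.2 + 1) : T × ℕ).2 ≤ D.rank ((q.1, q.2 + 1) : T × ℕ).1) := fun h2 => h h2.2
        rw [if_neg h1, if_neg h, smul_zero, Finsupp.zero_apply]
    · have h2 : (Finsupp.single r c : T × ℕ →₀ ℝ) (q.1, q.2 + 1) = 0 :=
        Finsupp.single_eq_of_ne' hr
      rw [h2, mul_zero, ite_self]
      split_ifs with h1
      · rw [Finsupp.smul_single]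
        apply Finsupp.single_eq_of_ne'
        rintro rfl
        apply hr
        ext
        · rfl
        · show r.2 = r.2 - 1 + 1
          omega
      · rw [smul_zero, Finsupp.zero_apply]

theorem pr_Sst (f x : T × ℕ →₀ ℝ) : pr (D.Sst f) x = pr f (D.SU x) := by
  induction f using Finsupp.induction_linear with
  | zero => rw [map_zero, pr_zero_left, pr_zero_left]
  | add f g hf hg => rw [map_add, pr_add_left, hf, hg, pr_add_left]
  | single r c =>
    rw [Sst_single, pr_single_left, SA1_SU_apply]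
    split_ifs
    · rw [pr_single_left]
      ring
    · rw [pr_zero_left, mul_zero]

theorem tr_SU (n : ℕ) (x : T × ℕ →₀ ℝ) : D.tr n (D.SU x) = D.SU (D.tr n x) := by
  ext q
  rw [tr_apply, SA1_SU_apply, SA1_SU_apply, tr_apply]
  by_cases h1 : D.rank q.1 < n
  · have h2 : D.rank ((q.1, q.2 + 1) : T × ℕ).1 < n := h1
    rw [if_pos h1, if_pos h2]
  · have h2 : ¬ D.rank ((q.1, q.2 + 1) : T × ℕ).1 < n := h1
    rw [if_neg h1, if_neg h2, mul_zero, ite_self]

/-- every vector has finite rank -/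
theorem exists_tr (x : T × ℕ →₀ ℝ) : ∃ n, ∀ m ≥ n, D.tr m x = x := by
  refine ⟨(x.support.sup fun q => D.rank q.1) + 1, fun m hm => ?_⟩
  ext q
  rw [tr_apply]
  by_cases hq : q ∈ x.support
  · have h1 : D.rank q.1 ≤ x.support.sup fun q => D.rank q.1 :=
      Finset.le_sup (f := fun q : T × ℕ => D.rank q.1) hq
    rw [if_pos (by omega)]
  · rw [Finsupp.notMem_support_iff.1 hq, ite_self]

end TreeData

end Pool.Agent.MP0d518c
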