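import Pool.Agent.Lib.MP_0d518c_an.SA1

/-! Task SA2: the recursion for `E0` and the algebra of the functionals `E q`. -/

namespace Pool.Agent.MP0d518c

open Finset Filter Topology

variable {T : Type} (D : TreeData T)

namespace TreeData

theorem SA2_Estep_congr (F G : T → (T × ℕ →₀ ℝ)) (τ : T)
    (h : ∀ ξ, D.rank ξ < D.rank τ → F ξ = G ξ) : D.Estep F τ = D.Estep G τ := by
  have h1 : (D.prv τ).elim 0 F = (D.prv τ).elim 0 G := by
    cases hp : D.prv τ with
    | none => rfl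
    | some ξ => exact h ξ (D.prv_rank τ ξ hp)
  have h2 : D.Bst F τ = D.Bst G τ := by
    unfold Bst
    refine Finset.sum_congr rfl fun q hq => ?_
    rw [h q.1 (D.bb_rank τ q hq)]
  unfold Estep
  rw [h1, h2]

theorem SA2_Eup_eq (m : ℕ) : ∀ (k : ℕ) (τ : T), D.rank τ < m → D.rank τ < k →
    D.Eup m τ = D.Eup k τ := by
  induction m with
  | zero => intro k τ h; omega
  | succ m ih =>
    intro k τ h1 h2
    cases k with
    | zero => omega
    | succ k =>
      show D.Estep (D.Eup m) τ = D.Estep (D.Eup k) τ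
      apply SA2_Estep_congr
      intro ξ hξ
      exact ih k ξ (by omega) (by omega)

/-- independence of the fuel -/
theorem Eup_eq (τ : T) {m : ℕ} (h : D.rank τ < m) : D.Eup m τ = D.E0 τ :=
  D.SA2_Eup_eq m (D.rank τ + 1) τ h (Nat.lt_succ_self _)

theorem E_zero (τ : T) : D.E (τ, 0) = D.E0 τ := by
  show (om 0)⁻¹ • (D.Sst ^ 0) (D.E0 τ) = D.E0 τ
  rw [om_zero, inv_one, one_smul, pow_zero]
  rfl

/-- recursion for `E0` -/
theorem E0_eq (τ : T) : D.E0 τ = Finsupp.single (τ, 0) 1 +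
    ((D.prv τ).elim 0 fun ξ => D.E0 ξ) +
    ((D.wt τ).elim 0 fun i => (mm i : ℝ)⁻¹ •
        ((∑ q ∈ (D.bb τ).support, D.bb τ q • D.E q) -
          D.tr (D.lev τ) (∑ q ∈ (D.bb τ).support, D.bb τ q • D.E q))) := by
  have h1 : D.E0 τ = D.Estep D.E0 τ := by
    show D.Estep (D.Eup (D.rank τ)) τ = D.Estep D.E0 τ
    apply SA2_Estep_congr
    intro ξ hξ
    exact D.Eup_eq ξ hξ
  have h2 : D.Bst D.E0 τ = ∑ q ∈ (D.bb τ).support, D.bb τ q • D.E q := by
    unfold Bst
    refine Finset.sum_congr rfl fun q _ => ?_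
    rw [mul_smul]
    rfl
  conv_lhs => rw [h1]
  unfold Estep
  rw [h2]

theorem Sst_E (τ : T) (k : ℕ) :
    D.Sst (D.E (τ, k)) = (om (k + 1) / om k) • D.E (τ, k + 1) := by
  show D.Sst ((om k)⁻¹ • (D.Sst ^ k) (D.E0 τ))
    = (om (k + 1) / om k) • ((om (k + 1))⁻¹ • (D.Sst ^ (k + 1)) (D.E0 τ))
  rw [map_smul, smul_smul, pow_succ', Module.End.mul_apply]
  congr 1
  have := (om_pos (k + 1)).ne'
  field_simp

theorem Sst_pow_E (τ : T) (k j : ℕ) :
    (D.Sst ^ j) (D.E (τ, k)) = (om (k + j) / om k) • D.E (τ, k + j) := by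
  induction j with
  | zero =>
    rw [pow_zero, add_zero, div_self (om_pos k).ne', one_smul]
    rfl
  | succ j ih =>
    rw [pow_succ', Module.End.mul_apply, ih, map_smul, Sst_E, smul_smul, ← add_assoc]
    congr 1
    have := (om_pos (k + j)).ne'
    field_simp

end TreeData

end Pool.Agent.MP0d518c
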