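import Pool.Agent.Lib.MP_0d518c_an.SA2

/-! Task SA3: supports of the functionals `E q`. -/

namespace Pool.Agent.MP0d518c

open Finset Filter Topology

variable {T : Type} (D : TreeData T)

namespace TreeData

/-- functionals whose points are alive and have rank `< n` -/
def SA3_Z (n : ℕ) : Submodule ℝ (T × ℕ →₀ ℝ) where
  carrier := {f | ∀ r, f r ≠ 0 → D.rank r.1 < n ∧ r.2 ≤ D.rank r.1}
  add_mem' := by
    intro f g hf hg r hr
    by_cases h1 : f r = 0
    · apply hg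
      intro h2
      exact hr (by rw [Finsupp.add_apply, h1, h2, add_zero])
    · exact hf r h1
  zero_mem' := fun r hr => absurd rfl hr
  smul_mem' := by
    intro c f hf r hr
    apply hf
    intro h
    exact hr (by rw [Finsupp.smul_apply, h, smul_zero])

theorem SA3_Z_mono {m n : ℕ} (h : m ≤ n) {f : T × ℕ →₀ ℝ} (hf : f ∈ D.SA3_Z m) :
    f ∈ D.SA3_Z n := fun r hr => ⟨(hf r hr).1.trans_le h, (hf r hr).2⟩

theorem SA3_Z_tr {n : ℕ} (m : ℕ) {f : T × ℕ →₀ ℝ} (hf : f ∈ D.SA3_Z n) :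
    D.tr m f ∈ D.SA3_Z n := by
  intro r hr
  rw [tr_apply] at hr
  apply hf
  intro h
  rw [h, ite_self] at hr
  exact hr rfl

theorem SA3_Sst_apply (f : T × ℕ →₀ ℝ) (r : T × ℕ) : D.Sst f r =
    if 1 ≤ r.2 ∧ r.2 ≤ D.rank r.1 then (om r.2 / om (r.2 - 1)) * f (r.1, r.2 - 1) else 0 := by
  induction f using Finsupp.induction_linear with
  | zero => simp
  | add f g hf hg =>
    rw [map_add, Finsupp.add_apply, hf, hg, Finsupp.add_apply]
    split_ifs
    · rw [mul_add]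
    · rw [add_zero]
  | single q c =>
    rw [Sst_single]
    by_cases hr : r = (q.1, q.2 + 1)
    · subst hr
      by_cases h : q.2 + 1 ≤ D.rank q.1
      · have h1 : 1 ≤ ((q.1, q.2 + 1) : T × ℕ).2 ∧
            ((q.1, q.2 + 1) : T × ℕ).2 ≤ D.rank ((q.1, q.2 + 1) : T × ℕ).1 :=
          ⟨Nat.le_add_left 1 q.2, h⟩
        rw [if_pos h1, if_pos h]
        simp only [Nat.add_sub_cancel, Prod.mk.eta, Finsupp.single_eq_same]
        ring
      · have h1 : ¬ (1 ≤ ((q.1, q.2 + 1) : T × ℕ).2 ∧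
            ((q.1, q.2 + 1) : T × ℕ).2 ≤ D.rank ((q.1, q.2 + 1) : T × ℕ).1) := fun h2 => h h2.2
        rw [if_neg h1, if_neg h, Finsupp.zero_apply]
    · have h0 : (if q.2 + 1 ≤ D.rank q.1 then (Finsupp.single (q.1, q.2 + 1)
          (c * (om (q.2 + 1) / om q.2)) : T × ℕ →₀ ℝ) else 0) r = 0 := by
        split_ifs
        · exact Finsupp.single_eq_of_ne hr
        · rfl
      rw [h0]
      split_ifs with h1
      · have h2 : (Finsupp.single q c : T × ℕ →₀ ℝ) (r.1, r.2 - 1) = 0 := by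
          apply Finsupp.single_eq_of_ne
          rintro rfl
          apply hr
          ext
          · rfl
          · show r.2 = r.2 - 1 + 1
            omega
        rw [h2, mul_zero]
      · rfl

theorem SA3_Sst_ne {f : T × ℕ →₀ ℝ} {r : T × ℕ} (h : D.Sst f r ≠ 0) :
    (1 ≤ r.2 ∧ r.2 ≤ D.rank r.1) ∧ f (r.1, r.2 - 1) ≠ 0 := by
  rw [SA3_Sst_apply] at h
  split_ifs at h with h1
  · refine ⟨h1, fun h2 => h ?_⟩
    rw [h2, mul_zero]
  · exact absurd rfl h

theorem SA3_Z_Sst {n : ℕ} {f : T × ℕ →₀ ℝ} (hf : f ∈ D.SA3_Z n) : D.Sst f ∈ D.SA3_Z n := by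
  intro r hr
  obtain ⟨h1, h2⟩ := D.SA3_Sst_ne hr
  exact ⟨(hf _ h2).1, h1.2⟩

theorem SA3_Z_Sst_pow {n : ℕ} (k : ℕ) {f : T × ℕ →₀ ℝ} (hf : f ∈ D.SA3_Z n) :
    (D.Sst ^ k) f ∈ D.SA3_Z n := by
  induction k with
  | zero => exact hf
  | succ k ih =>
    rw [pow_succ', Module.End.mul_apply]
    exact D.SA3_Z_Sst ih

theorem SA3_Sst_pow_ne (k : ℕ) (f : T × ℕ →₀ ℝ) : ∀ r, (D.Sst ^ k) f r ≠ 0 → k ≤ r.2 := by
  induction k with
  | zero => intro r _; exact Nat.zero_le _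
  | succ k ih =>
    intro r hr
    rw [pow_succ', Module.End.mul_apply] at hr
    obtain ⟨h1, h2⟩ := D.SA3_Sst_ne hr
    have h3 : k ≤ r.2 - 1 := ih _ h2
    omega

theorem SA3_Sst_pow_eq_zero {n k : ℕ} (h : n ≤ k) {f : T × ℕ →₀ ℝ} (hf : f ∈ D.SA3_Z n) :
    (D.Sst ^ k) f = 0 := by
  ext r
  by_contra hr
  have h1 := D.SA3_Z_Sst_pow k hf r hr
  have h2 := D.SA3_Sst_pow_ne k f r hr
  omega

theorem SA3_Sst_pow_single (τ : T) (k : ℕ) : (D.Sst ^ k) (Finsupp.single (τ, 0) 1) =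
    if k ≤ D.rank τ then Finsupp.single (τ, k) (om k) else 0 := by
  induction k with
  | zero => rw [pow_zero, if_pos (Nat.zero_le _), om_zero]; rfl
  | succ k ih =>
    rw [pow_succ', Module.End.mul_apply, ih]
    by_cases h : k + 1 ≤ D.rank τ
    · rw [if_pos (by omega : k ≤ D.rank τ), if_pos h, Sst_single, if_pos h]
      congr 1
      have := (om_pos k).ne'
      show om k * (om (k + 1) / om k) = om (k + 1)
      field_simp
    · rw [if_neg h]
      split_ifs with h1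
      · rw [Sst_single, if_neg h]
      · exact map_zero _

theorem SA3_single_mem (τ : T) (c : ℝ) :
    (Finsupp.single (τ, 0) c : T × ℕ →₀ ℝ) ∈ D.SA3_Z (D.rank τ + 1) := by
  intro r hr
  have h : r = (τ, 0) := by
    by_contra h
    exact hr (Finsupp.single_eq_of_ne h)
  subst h
  exact ⟨Nat.lt_succ_self _, Nat.zero_le _⟩

theorem SA3_E0_mem (n : ℕ) : ∀ τ : T, D.rank τ = n →
    D.E0 τ - Finsupp.single (τ, 0) 1 ∈ D.SA3_Z (D.rank τ) := by
  induction n using Nat.strong_induction_on with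
  | _ n ih =>
    intro τ hτ
    have hE0 : ∀ ξ, D.rank ξ < D.rank τ → D.E0 ξ ∈ D.SA3_Z (D.rank τ) := by
      intro ξ hξ
      have h1 := D.SA3_Z_mono (Nat.le_succ _) (ih (D.rank ξ) (by omega) ξ rfl)
      have h2 := Submodule.add_mem _ h1 (D.SA3_single_mem ξ 1)
      rw [sub_add_cancel] at h2
      exact D.SA3_Z_mono hξ h2
    have hB : ∑ q ∈ (D.bb τ).support, D.bb τ q • D.E q ∈ D.SA3_Z (D.rank τ) := by
      refine Submodule.sum_mem _ fun q hq => Submodule.smul_mem _ _ ?_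
      exact Submodule.smul_mem _ _ (D.SA3_Z_Sst_pow _ (hE0 q.1 (D.bb_rank τ q hq)))
    rw [E0_eq, add_assoc, add_sub_cancel_left]
    refine Submodule.add_mem _ ?_ ?_
    · cases hp : D.prv τ with
      | none => exact Submodule.zero_mem _
      | some ξ => exact hE0 ξ (D.prv_rank τ ξ hp)
    · cases hw : D.wt τ with
      | none => exact Submodule.zero_mem _
      | some i =>
        exact Submodule.smul_mem _ _ (Submodule.sub_mem _ hB (D.SA3_Z_tr _ hB))

theorem SA3_E_mem {τ : T} {k : ℕ} (h : k ≤ D.rank τ) :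
    D.E (τ, k) - Finsupp.single (τ, k) 1 ∈ D.SA3_Z (D.rank τ) := by
  have h1 := Submodule.smul_mem _ (om k)⁻¹ (D.SA3_Z_Sst_pow k (D.SA3_E0_mem _ τ rfl))
  rw [map_sub, SA3_Sst_pow_single, if_pos h, smul_sub, Finsupp.smul_single, smul_eq_mul,
    inv_mul_cancel₀ (om_pos k).ne'] at h1
  exact h1

theorem SA3_E0_mem' (τ : T) : D.E0 τ ∈ D.SA3_Z (D.rank τ + 1) := by
  have h2 := Submodule.add_mem _ (D.SA3_Z_mono (Nat.le_succ _) (D.SA3_E0_mem _ τ rfl))
    (D.SA3_single_mem τ 1)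
  rw [sub_add_cancel] at h2
  exact h2

theorem SA3_E_mem' (q : T × ℕ) : D.E q ∈ D.SA3_Z (D.rank q.1 + 1) :=
  Submodule.smul_mem _ _ (D.SA3_Z_Sst_pow _ (D.SA3_E0_mem' q.1))

theorem E_dead {q : T × ℕ} (h : D.rank q.1 < q.2) : D.E q = 0 := by
  show (om q.2)⁻¹ • (D.Sst ^ q.2) (D.E0 q.1) = 0
  rw [D.SA3_Sst_pow_eq_zero h (D.SA3_E0_mem' q.1), smul_zero]

/-- supports: `E q` lives on ranks `< rank q.1` and the point `q` itself, all its points are
alive -/
theorem E_supp {q r : T × ℕ} (h : r ∈ (D.E q).support) :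
    (D.rank r.1 < D.rank q.1 ∨ r = q) ∧ r.2 ≤ D.rank r.1 := by
  have h0 : D.E q r ≠ 0 := Finsupp.mem_support_iff.1 h
  refine ⟨?_, (D.SA3_E_mem' q r h0).2⟩
  by_cases hr : r = q
  · exact Or.inr hr
  · left
    by_cases hq : q.2 ≤ D.rank q.1
    · have h1 := D.SA3_E_mem (τ := q.1) (k := q.2) hq r
      apply (h1 _).1
      intro h2
      rw [Finsupp.sub_apply, Finsupp.single_eq_of_ne (show r ≠ (q.1, q.2) from hr), sub_zero] at h2
      exact h0 h2
    · rw [D.E_dead (not_le.1 hq)] at h0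
      exact absurd rfl h0

theorem E_self {q : T × ℕ} (h : q.2 ≤ D.rank q.1) : D.E q q = 1 := by
  have h1 := D.SA3_E_mem (τ := q.1) (k := q.2) h q
  by_contra h2
  have h3 : (D.E (q.1, q.2) - Finsupp.single (q.1, q.2) 1 : T × ℕ →₀ ℝ) q ≠ 0 := by
    rw [Finsupp.sub_apply]
    intro h4
    apply h2
    have h5 : (Finsupp.single (q.1, q.2) 1 : T × ℕ →₀ ℝ) q = 1 := Finsupp.single_eq_same
    rw [h5, sub_eq_zero] at h4
    exact h4
  exact absurd (h1 h3).1 (lt_irrefl _)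

theorem tr_E_of_lt {n : ℕ} {q : T × ℕ} (h : D.rank q.1 < n) : D.tr n (D.E q) = D.E q := by
  ext r
  rw [tr_apply]
  split_ifs with h1
  · rfl
  · by_contra h2
    have h3 := (D.SA3_E_mem' q r (fun h4 => h2 h4.symm)).1
    omega

end TreeData

end Pool.Agent.MP0d518c
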