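import Pool.Agent.Lib.MP_0d518c_an.SA3

/-! Task SA4: the projections are bounded by 2. -/

namespace Pool.Agent.MP0d518c

open Finset Filter Topology

variable {T : Type} (D : TreeData T)

namespace TreeData

/-- combinations of living `E r`, `rank r < n`, with `ℓ_1`-norm of the coefficients `≤ c` -/
def SA4_K (n : ℕ) (c : ℝ) (f : T × ℕ →₀ ℝ) : Prop :=
  ∃ a : T × ℕ →₀ ℝ, ∑ r ∈ a.support, |a r| ≤ c ∧
    (∀ r ∈ a.support, D.rank r.1 < n ∧ r.2 ≤ D.rank r.1) ∧
    f = ∑ r ∈ a.support, a r • D.E r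

variable {D}

theorem SA4_mono {m n : ℕ} {c d : ℝ} (h : m ≤ n) (hcd : c ≤ d) {f : T × ℕ →₀ ℝ}
    (hf : D.SA4_K m c f) : D.SA4_K n d f := by
  obtain ⟨a, h1, h2, h3⟩ := hf
  exact ⟨a, h1.trans hcd, fun r hr => ⟨(h2 r hr).1.trans_le h, (h2 r hr).2⟩, h3⟩

theorem SA4_zero (n : ℕ) {c : ℝ} (hc : 0 ≤ c) : D.SA4_K n c 0 := by
  refine ⟨0, ?_, ?_, ?_⟩ <;> simp [hc]

theorem SA4_add {n : ℕ} {c d : ℝ} {f g : T × ℕ →₀ ℝ} (hf : D.SA4_K n c f)
    (hg : D.SA4_K n d g) : D.SA4_K n (c + d) (f + g) := by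
  classical
  obtain ⟨a, h1, h2, h3⟩ := hf
  obtain ⟨b, k1, k2, k3⟩ := hg
  have e1 : ∀ (x : T × ℕ →₀ ℝ) (s : Finset (T × ℕ)), x.support ⊆ s →
      ∑ r ∈ x.support, |x r| = ∑ r ∈ s, |x r| := by
    intro x s hs
    refine Finset.sum_subset hs fun r _ hr => ?_
    rw [Finsupp.notMem_support_iff.1 hr, abs_zero]
  have e2 : ∀ (x : T × ℕ →₀ ℝ) (s : Finset (T × ℕ)), x.support ⊆ s →
      ∑ r ∈ x.support, x r • D.E r = ∑ r ∈ s, x r • D.E r := by
    intro x s hs
    refine Finset.sum_subset hs fun r _ hr => ?_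
    rw [Finsupp.notMem_support_iff.1 hr, zero_smul]
  have ha : a.support ⊆ a.support ∪ b.support := Finset.subset_union_left
  have hb : b.support ⊆ a.support ∪ b.support := Finset.subset_union_right
  have hab : (a + b).support ⊆ a.support ∪ b.support := Finsupp.support_add
  refine ⟨a + b, ?_, ?_, ?_⟩
  · rw [e1 _ _ hab]
    rw [e1 _ _ ha] at h1
    rw [e1 _ _ hb] at k1
    calc ∑ r ∈ a.support ∪ b.support, |(a + b) r|
        ≤ ∑ r ∈ a.support ∪ b.support, (|a r| + |b r|) :=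
          Finset.sum_le_sum fun r _ => abs_add_le _ _
      _ = _ := Finset.sum_add_distrib
      _ ≤ c + d := add_le_add h1 k1
  · intro r hr
    rcases Finset.mem_union.1 (hab hr) with h | h
    · exact h2 r h
    · exact k2 r h
  · rw [h3, k3, e2 _ _ ha, e2 _ _ hb, e2 _ _ hab, ← Finset.sum_add_distrib]
    refine Finset.sum_congr rfl fun r _ => ?_
    rw [Finsupp.add_apply, add_smul]

theorem SA4_smul {n : ℕ} {c : ℝ} {f : T × ℕ →₀ ℝ} (t : ℝ) (hf : D.SA4_K n c f) :
    D.SA4_K n (|t| * c) (t • f) := by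
  by_cases ht : t = 0
  · subst ht
    rw [zero_smul, abs_zero, zero_mul]
    exact SA4_zero n le_rfl
  · obtain ⟨a, h1, h2, h3⟩ := hf
    have hs : (t • a).support = a.support := Finsupp.support_smul_eq ht
    refine ⟨t • a, ?_, ?_, ?_⟩
    · rw [hs]
      simp only [Finsupp.smul_apply, smul_eq_mul, abs_mul, ← Finset.mul_sum]
      exact mul_le_mul_of_nonneg_left h1 (abs_nonneg t)
    · rw [hs]; exact h2
    · rw [hs, h3, Finset.smul_sum]
      refine Finset.sum_congr rfl fun r _ => ?_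
      rw [Finsupp.smul_apply, smul_eq_mul, mul_smul]

theorem SA4_sum {n : ℕ} {ι : Type} (s : Finset ι) (t c : ι → ℝ) (f : ι → (T × ℕ →₀ ℝ))
    (h : ∀ i ∈ s, D.SA4_K n (c i) (f i)) :
    D.SA4_K n (∑ i ∈ s, |t i| * c i) (∑ i ∈ s, t i • f i) := by
  classical
  induction s using Finset.induction_on with
  | empty => simpa using SA4_zero n le_rfl
  | insert a s ha ih =>
    rw [Finset.sum_insert ha, Finset.sum_insert ha]
    exact SA4_add (SA4_smul _ (h a (Finset.mem_insert_self a s)))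
      (ih fun i hi => h i (Finset.mem_insert_of_mem hi))

theorem SA4_E {n : ℕ} {r : T × ℕ} (h : D.rank r.1 < n) : D.SA4_K n 1 (D.E r) := by
  by_cases hr : r.2 ≤ D.rank r.1
  · refine ⟨Finsupp.single r 1, ?_, ?_, ?_⟩
    · rw [Finsupp.support_single r (one_ne_zero : (1 : ℝ) ≠ 0)]; simp
    · rw [Finsupp.support_single r (one_ne_zero : (1 : ℝ) ≠ 0)]
      intro q hq
      rw [Finset.mem_singleton.1 hq]
      exact ⟨h, hr⟩
    · rw [Finsupp.support_single r (one_ne_zero : (1 : ℝ) ≠ 0)]; simp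
  · rw [D.E_dead (not_le.1 hr)]
    exact SA4_zero n zero_le_one

theorem SA4_shift {n : ℕ} {τ : T} (h : D.SA4_K n 2 (D.tr n (D.E (τ, 0)))) (k : ℕ) :
    D.SA4_K n 2 (D.tr n (D.E (τ, k))) := by
  obtain ⟨a, h1, h2, h3⟩ := h
  have e1 : D.tr n (D.E (τ, k)) = ∑ r ∈ a.support,
      (a r * ((om k)⁻¹ * (om (r.2 + k) / om r.2))) • D.E (r.1, r.2 + k) := by
    have e2 : D.E (τ, k) = (om k)⁻¹ • (D.Sst ^ k) (D.E (τ, 0)) := by
      rw [E_zero]; rfl
    rw [e2, map_smul, tr_Sst_pow, h3, map_sum, Finset.smul_sum]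
    refine Finset.sum_congr rfl fun r _ => ?_
    have e3 := D.Sst_pow_E r.1 r.2 k
    rw [map_smul]
    have e4 : (D.Sst ^ k) (D.E r) = (om (r.2 + k) / om r.2) • D.E (r.1, r.2 + k) := e3
    rw [e4, smul_smul, smul_smul]
    congr 1
    ring
  rw [e1]
  refine SA4_mono le_rfl ?_ (SA4_sum a.support
    (fun r => a r * ((om k)⁻¹ * (om (r.2 + k) / om r.2))) (fun _ => 1)
    (fun r => D.E (r.1, r.2 + k)) fun r hr => SA4_E (h2 r hr).1)
  refine le_trans (Finset.sum_le_sum fun r _ => ?_) h1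
  rw [mul_one, abs_mul]
  have hk := om_pos k
  have hr := om_pos r.2
  have hrk := om_pos (r.2 + k)
  have h5 : |(om k)⁻¹ * (om (r.2 + k) / om r.2)| ≤ 1 := by
    rw [abs_of_pos (by positivity)]
    rw [inv_mul_le_iff₀ hk, mul_one, div_le_iff₀ hr, mul_comm]
    exact om_add_le r.2 k
  calc |a r| * |(om k)⁻¹ * (om (r.2 + k) / om r.2)| ≤ |a r| * 1 :=
        mul_le_mul_of_nonneg_left h5 (abs_nonneg _)
    _ = |a r| := mul_one _

variable (D)

theorem SA4_main (N : ℕ) : ∀ (τ : T), D.rank τ = N → ∀ k n, D.SA4_K n 2 (D.tr n (D.E (τ, k))) := by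
  induction N using Nat.strong_induction_on with
  | _ N ih =>
    intro τ hτ k n
    apply SA4_shift
    by_cases hn : D.rank τ < n
    · rw [D.tr_E_of_lt (q := (τ, 0)) hn]
      exact SA4_mono le_rfl one_le_two (SA4_E hn)
    · have hB : ∀ l, D.SA4_K l 2 (D.tr l (∑ q ∈ (D.bb τ).support, D.bb τ q • D.E q)) := by
        intro l
        rw [map_sum]
        simp only [map_smul]
        refine SA4_mono le_rfl ?_ (SA4_sum (D.bb τ).support (fun q => D.bb τ q) (fun _ => 2)
          (fun q => D.tr l (D.E q)) fun q hq => ?_)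
        · rw [← Finset.sum_mul]
          have := D.bb_l1 τ
          linarith
        · exact ih (D.rank q.1) (by rw [← hτ]; exact D.bb_rank τ q hq) q.1 rfl q.2 l
      have h0 : D.tr n (Finsupp.single (τ, 0) (1 : ℝ)) = 0 := by
        rw [SA1_tr_single, if_neg hn]
      rw [E_zero, E0_eq, map_add, map_add, h0, zero_add]
      cases hw : D.wt τ with
      | none =>
        rw [D.base_prv τ hw]
        simp only [Option.elim_none, map_zero, add_zero]
        exact SA4_zero n zero_le_two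
      | some i =>
        simp only [Option.elim_some]
        have hm0 : (0 : ℝ) < (mm i : ℝ)⁻¹ := mm_inv_pos i
        have hm1 : (mm i : ℝ)⁻¹ ≤ 1 / 4 := mm_inv_le_quarter i
        cases hp : D.prv τ with
        | none =>
          have hlev : D.lev τ = 0 := by unfold lev; rw [hp]; rfl
          simp only [Option.elim_none, map_zero, zero_add]
          rw [hlev, tr_zero, sub_zero, map_smul]
          refine SA4_mono le_rfl ?_ (SA4_smul _ (hB n))
          rw [abs_of_pos hm0]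
          linarith
        | some ξ =>
          have hlev : D.lev τ = D.rank ξ + 1 := by unfold lev; rw [hp]; rfl
          have hξ := D.prv_rank τ ξ hp
          simp only [Option.elim_some]
          rw [map_smul, map_sub, tr_tr]
          by_cases hnl : n ≤ D.lev τ
          · rw [min_eq_left hnl, sub_self, smul_zero, add_zero, ← E_zero]
            exact ih (D.rank ξ) (by omega) ξ rfl 0 n
          · rw [min_eq_right (not_le.1 hnl).le]
            have h1 : D.tr n (D.E0 ξ) = D.E (ξ, 0) := by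
              rw [← E_zero, D.tr_E_of_lt (q := (ξ, 0))]
              show D.rank ξ < n
              omega
            rw [h1]
            have h2 : D.SA4_K n 1 (D.E (ξ, 0)) := SA4_E (by show D.rank ξ < n; omega)
            have h3 : D.SA4_K n (2 + |(-1 : ℝ)| * 2)
                (D.tr n (∑ q ∈ (D.bb τ).support, D.bb τ q • D.E q)
                  - D.tr (D.lev τ) (∑ q ∈ (D.bb τ).support, D.bb τ q • D.E q)) := by
              rw [sub_eq_add_neg, ← neg_one_smul ℝ (D.tr (D.lev τ) _)]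
              exact SA4_add (hB n) (SA4_smul _ (SA4_mono (not_le.1 hnl).le le_rfl (hB _)))
            refine SA4_mono le_rfl ?_ (SA4_add h2 (SA4_smul (mm i : ℝ)⁻¹ h3))
            rw [abs_of_pos hm0, abs_neg, abs_one]
            linarith

/-- the projections are bounded by 2: `tr n (E q)` is a combination of `E r`, `rank r < n`, with
`ℓ_1`-norm of the coefficients `≤ 2`.  Induction on `rank q.1`, first for `q = (τ,0)`. -/
theorem E_bound (q : T × ℕ) (n : ℕ) : ∃ a : T × ℕ →₀ ℝ, ∑ r ∈ a.support, |a r| ≤ 2 ∧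
    (∀ r ∈ a.support, D.rank r.1 < n ∧ r.2 ≤ D.rank r.1) ∧
    D.tr n (D.E q) = ∑ r ∈ a.support, a r • D.E r := D.SA4_main _ q.1 rfl q.2 n

end TreeData

end Pool.Agent.MP0d518c
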