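import Pool.Agent.Lib.MP_0d518c_an.SA3

/-! Task SA5: triangular systems. -/

namespace Pool.Agent.MP0d518c

open Finset Filter Topology

variable {T : Type} (D : TreeData T)

namespace TreeData

theorem SA5_fin (n : ℕ) : {q : T × ℕ | D.rank q.1 = n ∧ q.2 ≤ D.rank q.1}.Finite := by
  apply ((D.fin n).prod (Set.finite_Iic n)).subset
  rintro ⟨τ, k⟩ ⟨h1, h2⟩
  have h1' : D.rank τ = n := h1
  have h2' : k ≤ D.rank τ := h2
  exact ⟨h1'.le, by rw [h1'] at h2'; exact h2'⟩

theorem SA5_pr_single (f : T × ℕ →₀ ℝ) (q : T × ℕ) (c : ℝ) :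
    pr f (Finsupp.single q c) = f q * c := by
  induction f using Finsupp.induction_linear with
  | zero => rw [pr_zero_left, Finsupp.zero_apply, zero_mul]
  | add f g hf hg => rw [pr_add_left, hf, hg, Finsupp.add_apply, add_mul]
  | single r d =>
    rw [pr_single_left]
    by_cases h : r = q
    · subst h; simp
    · have h1 : (Finsupp.single q c : T × ℕ →₀ ℝ) r = 0 := Finsupp.single_eq_of_ne h
      have h2 : (Finsupp.single r d : T × ℕ →₀ ℝ) q = 0 := Finsupp.single_eq_of_ne' h
      rw [h1, h2, mul_zero, zero_mul]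

theorem SA5_pr_sum_right {ι : Type} (s : Finset ι) (f : T × ℕ →₀ ℝ) (x : ι → T × ℕ →₀ ℝ) :
    pr f (∑ i ∈ s, x i) = ∑ i ∈ s, pr f (x i) := by
  classical
  induction s using Finset.induction_on with
  | empty =>
    rw [Finset.sum_empty, Finset.sum_empty]
    unfold pr
    exact Finset.sum_eq_zero fun q _ => mul_zero _
  | insert a s ha ih => rw [Finset.sum_insert ha, Finset.sum_insert ha, pr_add_right, ih]

/-- triangular system: prescribed coordinates of rank `< n`; induction on `n` -/
theorem E_ext (n : ℕ) (u : T × ℕ → ℝ) : ∃ x : T × ℕ →₀ ℝ, D.tr n x = x ∧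
    ∀ q : T × ℕ, D.rank q.1 < n → q.2 ≤ D.rank q.1 → pr (D.E q) x = u q := by
  classical
  induction n with
  | zero => exact ⟨0, map_zero _, fun q hq => absurd hq (Nat.not_lt_zero _)⟩
  | succ n ih =>
    obtain ⟨x, hx, hu⟩ := ih
    let F : Finset (T × ℕ) := (D.SA5_fin n).toFinset
    have hF : ∀ q, q ∈ F ↔ D.rank q.1 = n ∧ q.2 ≤ D.rank q.1 := by
      intro q
      exact (D.SA5_fin n).mem_toFinset
    refine ⟨x + ∑ q ∈ F, Finsupp.single q (u q - pr (D.E q) x), ?_, ?_⟩
    · rw [map_add, map_sum]
      congr 1
      · conv_lhs => rw [← hx]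
        rw [tr_tr, min_eq_right (Nat.le_succ n), hx]
      · refine Finset.sum_congr rfl fun q hq => ?_
        rw [SA1_tr_single, if_pos]
        have := ((hF q).1 hq).1
        omega
    · intro q hq hq2
      rw [pr_add_right, SA5_pr_sum_right]
      simp only [SA5_pr_single]
      rcases Nat.lt_succ_iff_lt_or_eq.1 hq with h | h
      · rw [hu q h hq2, Finset.sum_eq_zero, add_zero]
        intro r hr
        have h1 : D.E q r = 0 := by
          by_contra h2
          have h3 := (D.E_supp (Finsupp.mem_support_iff.2 h2)).1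
          have h4 := ((hF r).1 hr).1
          rcases h3 with h3 | h3
          · omega
          · rw [h3] at h4; omega
        rw [h1, zero_mul]
      · have hqF : q ∈ F := (hF q).2 ⟨h, hq2⟩
        rw [Finset.sum_eq_single q, D.E_self hq2, one_mul]
        · ring
        · intro r hr hrq
          have h1 : D.E q r = 0 := by
            by_contra h2
            have h3 := (D.E_supp (Finsupp.mem_support_iff.2 h2)).1
            have h4 := ((hF r).1 hr).1
            rcases h3 with h3 | h3
            · omega
            · exact hrq h3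
          rw [h1, zero_mul]
        · intro h2
          exact absurd hqF h2

end TreeData

end Pool.Agent.MP0d518c
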