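import Pool.Agent.Lib.MP_0d518c_an.SA4
import Pool.Agent.Lib.MP_0d518c_an.SA5

/-! Task SB1: the embedding into `ℓ_∞(T × ℕ)` and the projections. -/

namespace Pool.Agent.MP0d518c

open Finset Filter Topology

variable {T : Type} (D : TreeData T)

namespace TreeData

/-- vectors with `tr n x = x` are bounded by twice their living coordinates of rank `< n` -/
theorem abs_pr_E_le {n : ℕ} {x : T × ℕ →₀ ℝ} (hx : D.tr n x = x) {c : ℝ} (hc : 0 ≤ c)
    (h : ∀ r : T × ℕ, D.rank r.1 < n → r.2 ≤ D.rank r.1 → |pr (D.E r) x| ≤ c) (q : T × ℕ) :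
    |pr (D.E q) x| ≤ 2 * c := by
  obtain ⟨a, h1, h2, h3⟩ := D.E_bound q n
  have e1 : pr (D.E q) x = ∑ r ∈ a.support, a r * pr (D.E r) x := by
    conv_lhs => rw [← hx]
    rw [← pr_tr, h3, pr_sum_left]
    exact Finset.sum_congr rfl fun r _ => pr_smul_left _ _ _
  rw [e1]
  calc |∑ r ∈ a.support, a r * pr (D.E r) x|
      ≤ ∑ r ∈ a.support, |a r * pr (D.E r) x| := Finset.abs_sum_le_sum_abs _ _
    _ ≤ ∑ r ∈ a.support, |a r| * c := by
        refine Finset.sum_le_sum fun r hr => ?_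
        rw [abs_mul]
        exact mul_le_mul_of_nonneg_left (h r (h2 r hr).1 (h2 r hr).2) (abs_nonneg _)
    _ = (∑ r ∈ a.support, |a r|) * c := by rw [Finset.sum_mul]
    _ ≤ 2 * c := mul_le_mul_of_nonneg_right h1 hc

theorem SB1_fin (n : ℕ) : {q : T × ℕ | D.rank q.1 < n ∧ q.2 ≤ D.rank q.1}.Finite := by
  apply ((D.fin n).prod (Set.finite_Iic n)).subset
  rintro ⟨τ, k⟩ ⟨h1, h2⟩
  have h1' : D.rank τ < n := h1
  have h2' : k ≤ D.rank τ := h2
  exact ⟨h1'.le, h2'.trans h1'.le⟩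

theorem SB1_bdd (x : T × ℕ →₀ ℝ) : ∃ C, 0 ≤ C ∧ ∀ q, |pr (D.E q) x| ≤ C := by
  obtain ⟨n, hn⟩ := exists_tr D x
  let F : Finset (T × ℕ) := (D.SB1_fin n).toFinset
  have hc : 0 ≤ ∑ q ∈ F, |pr (D.E q) x| := Finset.sum_nonneg fun _ _ => abs_nonneg _
  refine ⟨2 * ∑ q ∈ F, |pr (D.E q) x|, by positivity, fun q => ?_⟩
  apply D.abs_pr_E_le (hn n le_rfl) hc
  intro r h1 h2
  exact Finset.single_le_sum (f := fun q => |pr (D.E q) x|) (fun _ _ => abs_nonneg _)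
    ((D.SB1_fin n).mem_toFinset.2 ⟨h1, h2⟩)

theorem exists_Phi : ∃ Φ : (T × ℕ →₀ ℝ) →ₗ[ℝ] lp (fun _ : T × ℕ => ℝ) ⊤,
    ∀ x q, Φ x q = pr (D.E q) x := by
  have hmem : ∀ x : T × ℕ →₀ ℝ, Memℓp (fun q : T × ℕ => pr (D.E q) x) ⊤ := by
    intro x
    obtain ⟨C, _, hC⟩ := D.SB1_bdd x
    apply memℓp_infty
    refine ⟨C, ?_⟩
    rintro _ ⟨q, rfl⟩
    exact hC q
  refine ⟨{ toFun := fun x => ⟨fun q => pr (D.E q) x, hmem x⟩
            map_add' := ?_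
            map_smul' := ?_ }, fun x q => rfl⟩
  · intro x y
    apply lp.ext
    funext q
    exact pr_add_right _ _ _
  · intro c x
    apply lp.ext
    funext q
    exact pr_smul_right _ _ _

theorem exists_Sinf (T : Type) : ∃ Si : lp (fun _ : T × ℕ => ℝ) ⊤ →L[ℝ] lp (fun _ : T × ℕ => ℝ) ⊤,
    ∀ y (τ : T) (k : ℕ), Si y (τ, k) = (om (k + 1) / om k) * y (τ, k + 1) := by
  have hr : ∀ k, |om (k + 1) / om k| ≤ 1 := by
    intro k
    have h1 := om_pos k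
    have h2 := om_pos (k + 1)
    rw [abs_of_pos (by positivity), div_le_one h1]
    exact om_antitone (Nat.le_succ k)
  have hb : ∀ (y : lp (fun _ : T × ℕ => ℝ) ⊤) (q : T × ℕ),
      |(om (q.2 + 1) / om q.2) * y (q.1, q.2 + 1)| ≤ ‖y‖ := by
    intro y q
    rw [abs_mul]
    calc |om (q.2 + 1) / om q.2| * |y (q.1, q.2 + 1)| ≤ 1 * ‖y‖ := by
          apply mul_le_mul (hr _) _ (abs_nonneg _) zero_le_one
          exact lp.norm_apply_le_norm ENNReal.top_ne_zero y _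
      _ = ‖y‖ := one_mul _
  have hmem : ∀ y : lp (fun _ : T × ℕ => ℝ) ⊤,
      Memℓp (fun q : T × ℕ => (om (q.2 + 1) / om q.2) * y (q.1, q.2 + 1)) ⊤ := by
    intro y
    apply memℓp_infty
    refine ⟨‖y‖, ?_⟩
    rintro _ ⟨q, rfl⟩
    exact hb y q
  refine ⟨LinearMap.mkContinuous
    { toFun := fun y => ⟨fun q => (om (q.2 + 1) / om q.2) * y (q.1, q.2 + 1), hmem y⟩
      map_add' := ?_
      map_smul' := ?_ } 1 ?_, fun y τ k => rfl⟩
  · intro y z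
    apply lp.ext
    funext q
    exact mul_add _ _ _
  · intro c y
    apply lp.ext
    funext q
    show (om (q.2 + 1) / om q.2) * (c * y (q.1, q.2 + 1))
      = c * ((om (q.2 + 1) / om q.2) * y (q.1, q.2 + 1))
    ring
  · intro y
    rw [one_mul]
    exact lp.norm_le_of_forall_le (norm_nonneg _) fun q => hb y q

/-- `Qi y = Φ (Σ_{r living, rank r < n} y_r v_r)` with `v_r` from `E_ext` (`pr (E q) v_r = δ_qr`) -/
theorem exists_Qinf {Φ : (T × ℕ →₀ ℝ) →ₗ[ℝ] lp (fun _ : T × ℕ => ℝ) ⊤}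
    (hΦ : ∀ x q, Φ x q = pr (D.E q) x) (n : ℕ) :
    ∃ Qi : lp (fun _ : T × ℕ => ℝ) ⊤ →L[ℝ] lp (fun _ : T × ℕ => ℝ) ⊤,
      (∀ y, ‖Qi y‖ ≤ 2 * ‖y‖) ∧ (∀ x, Qi (Φ x) = Φ (D.tr n x)) ∧
      (∀ y, ∃ x, D.tr n x = x ∧ Qi y = Φ x) ∧
      (∀ y : lp (fun _ : T × ℕ => ℝ) ⊤,
        (∀ q : T × ℕ, D.rank q.1 < n → q.2 ≤ D.rank q.1 → y q = 0) → Qi y = 0) ∧
      (∀ (y : lp (fun _ : T × ℕ => ℝ) ⊤) (q : T × ℕ), D.rank q.1 < n → q.2 ≤ D.rank q.1 →
        Qi y q = y q) := by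
  classical
  choose v hv1 hv2 using fun r : T × ℕ => D.E_ext n (fun q => if q = r then (1 : ℝ) else 0)
  let F : Finset (T × ℕ) := (D.SB1_fin n).toFinset
  have hF : ∀ q, q ∈ F ↔ D.rank q.1 < n ∧ q.2 ≤ D.rank q.1 := fun q =>
    (D.SB1_fin n).mem_toFinset
  -- the vector `∑ y_r v_r`
  let w : (T × ℕ → ℝ) → (T × ℕ →₀ ℝ) := fun y => ∑ r ∈ F, y r • v r
  have hw1 : ∀ y, D.tr n (w y) = w y := by
    intro y
    show D.tr n (∑ r ∈ F, y r • v r) = ∑ r ∈ F, y r • v r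
    rw [map_sum]
    refine Finset.sum_congr rfl fun r _ => ?_
    rw [map_smul, hv1]
  have hw2 : ∀ y (q : T × ℕ), D.rank q.1 < n → q.2 ≤ D.rank q.1 → pr (D.E q) (w y) = y q := by
    intro y q h1 h2
    show pr (D.E q) (∑ r ∈ F, y r • v r) = y q
    rw [SA5_pr_sum_right]
    have e1 : ∀ r ∈ F, pr (D.E q) (y r • v r) = if q = r then y r else 0 := by
      intro r _
      rw [pr_smul_right, hv2 r q h1 h2]
      split_ifs
      · rw [mul_one]
      · rw [mul_zero]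
    rw [Finset.sum_congr rfl e1, Finset.sum_ite_eq, if_pos ((hF q).2 ⟨h1, h2⟩)]
  have hunique : ∀ z : T × ℕ →₀ ℝ, D.tr n z = z →
      (∀ q : T × ℕ, D.rank q.1 < n → q.2 ≤ D.rank q.1 → pr (D.E q) z = 0) → Φ z = 0 := by
    intro z h1 h2
    apply lp.ext
    funext q
    rw [hΦ]
    have h3 := D.abs_pr_E_le h1 le_rfl (fun r k1 k2 => by rw [h2 r k1 k2, abs_zero]) q
    rw [mul_zero] at h3
    exact abs_eq_zero.1 (le_antisymm h3 (abs_nonneg _))
  have hb : ∀ y : lp (fun _ : T × ℕ => ℝ) ⊤, ‖Φ (w y)‖ ≤ 2 * ‖y‖ := by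
    intro y
    apply lp.norm_le_of_forall_le (by positivity)
    intro q
    rw [hΦ]
    apply D.abs_pr_E_le (hw1 y) (norm_nonneg _)
    intro r h1 h2
    rw [hw2 y r h1 h2]
    exact lp.norm_apply_le_norm ENNReal.top_ne_zero y r
  let L : lp (fun _ : T × ℕ => ℝ) ⊤ →ₗ[ℝ] lp (fun _ : T × ℕ => ℝ) ⊤ :=
    { toFun := fun y => Φ (w y)
      map_add' := by
        intro y z
        rw [← map_add]
        congr 1
        show ∑ r ∈ F, (y r + z r) • v r = ∑ r ∈ F, y r • v r + ∑ r ∈ F, z r • v r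
        rw [← Finset.sum_add_distrib]
        exact Finset.sum_congr rfl fun r _ => add_smul _ _ _
      map_smul' := by
        intro c y
        rw [RingHom.id_apply, ← map_smul]
        congr 1
        show ∑ r ∈ F, (c * y r) • v r = c • ∑ r ∈ F, y r • v r
        rw [Finset.smul_sum]
        exact Finset.sum_congr rfl fun r _ => mul_smul _ _ _ }
  refine ⟨L.mkContinuous 2 hb, hb, ?_, fun y => ⟨w y, hw1 y, rfl⟩, ?_, ?_⟩
  · intro x
    show Φ (w (Φ x)) = Φ (D.tr n x)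
    rw [← sub_eq_zero, ← map_sub]
    apply hunique
    · rw [map_sub, hw1, tr_tr, min_self]
    · intro q h1 h2
      have e1 : w (Φ x) - D.tr n x = w (Φ x) + (-1 : ℝ) • D.tr n x := by
        rw [neg_one_smul, sub_eq_add_neg]
      rw [e1, pr_add_right, pr_smul_right, hw2 _ q h1 h2, hΦ, ← pr_tr, D.tr_E_of_lt h1]
      ring
  · intro y hy
    show Φ (w y) = 0
    apply hunique _ (hw1 y)
    intro q h1 h2
    rw [hw2 y q h1 h2, hy q h1 h2]
  · intro y q h1 h2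
    show Φ (w y) q = y q
    rw [hΦ, hw2 y q h1 h2]

end TreeData

end Pool.Agent.MP0d518c
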