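import Pool.Agent.Lib.MP_0d518c_an.Defs

/-! Construction of the space from the tree: definitions.  Everything takes place in the vector
space `T × ℕ →₀ ℝ`; a functional is written in the basis `d*_q`, a vector in the basis `d_q`. -/

namespace Pool.Agent.MP0d518c

open Finset Filter Topology

variable {T : Type}

namespace TreeData

/-- `S*` on the basis `d*`: `d*_(τ,k) ↦ (ω(k+1)/ω(k)) d*_(τ,k+1)`, zero if `k + 1 > rank τ` -/
noncomputable def Sst (D : TreeData T) : (T × ℕ →₀ ℝ) →ₗ[ℝ] (T × ℕ →₀ ℝ) :=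
  Finsupp.linearCombination ℝ (fun q : T × ℕ =>
    if q.2 + 1 ≤ D.rank q.1 then Finsupp.single (q.1, q.2 + 1) (om (q.2 + 1) / om q.2) else 0)

/-- truncation to ranks `< n` -/
noncomputable def tr (D : TreeData T) (n : ℕ) : (T × ℕ →₀ ℝ) →ₗ[ℝ] (T × ℕ →₀ ℝ) :=
  Finsupp.linearCombination ℝ (fun q : T × ℕ =>
    if D.rank q.1 < n then Finsupp.single q (1 : ℝ) else 0)

/-- the functional `Σ_q b_q e*_q` computed from the functionals `F ξ = e*_(ξ,0)` -/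
noncomputable def Bst (D : TreeData T) (F : T → (T × ℕ →₀ ℝ)) (τ : T) : T × ℕ →₀ ℝ :=
  ∑ q ∈ (D.bb τ).support, (D.bb τ q * (om q.2)⁻¹) • (D.Sst ^ q.2) (F q.1)

/-- one step of the recursion for `e*_(τ,0)` -/
noncomputable def Estep (D : TreeData T) (F : T → (T × ℕ →₀ ℝ)) (τ : T) : T × ℕ →₀ ℝ :=
  Finsupp.single (τ, 0) 1 + ((D.prv τ).elim 0 F) +
    ((D.wt τ).elim 0 fun i => (mm i : ℝ)⁻¹ • (D.Bst F τ - D.tr (D.lev τ) (D.Bst F τ)))

/-- approximations of `e*_(τ,0)` (recursion with fuel) -/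
noncomputable def Eup (D : TreeData T) : ℕ → T → (T × ℕ →₀ ℝ)
  | 0, _ => 0
  | (m + 1), τ => D.Estep (D.Eup m) τ

/-- `e*_(τ,0)` in the basis `d*` -/
noncomputable def E0 (D : TreeData T) (τ : T) : T × ℕ →₀ ℝ := D.Eup (D.rank τ + 1) τ

/-- `e*_(τ,k) = ω(k)⁻¹ (S*)^k e*_(τ,0)` in the basis `d*` -/
noncomputable def E (D : TreeData T) (q : T × ℕ) : T × ℕ →₀ ℝ :=
  (om q.2)⁻¹ • (D.Sst ^ q.2) (D.E0 q.1)

/-- pairing of a functional (basis `d*`) and a vector (basis `d`) -/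
noncomputable def pr (f x : T × ℕ →₀ ℝ) : ℝ := ∑ q ∈ f.support, f q * x q

/-- transpose of `Sst` on vectors -/
noncomputable def SU (D : TreeData T) : (T × ℕ →₀ ℝ) →ₗ[ℝ] (T × ℕ →₀ ℝ) :=
  Finsupp.linearCombination ℝ (fun q : T × ℕ =>
    if 1 ≤ q.2 ∧ q.2 ≤ D.rank q.1 then
      Finsupp.single (q.1, q.2 - 1) (om q.2 / om (q.2 - 1)) else 0)

end TreeData

end Pool.Agent.MP0d518c
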