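import Pool.Agent.Lib.MP_0d518c_an.TDefs
import Pool.Agent.Lib.MP_0d518c_an.Par

/-! Task T1: finitely many nodes of each rank. -/

namespace Pool.Agent.MP0d518c

open Finset Filter Topology

namespace TreeCon

private theorem TA_list {α : Type} {A : Set α} (hA : A.Finite) (n : ℕ) :
    {l : List α | l.length ≤ n ∧ ∀ q ∈ l, q ∈ A}.Finite := by
  have : Finite A := hA
  refine ((List.finite_length_le A n).image (List.map Subtype.val)).subset ?_
  rintro l ⟨h1, h2⟩
  lift l to List A using h2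
  exact ⟨l, by simpa using h1, rfl⟩

private theorem TA_step (r : ℕ) (V : Set ℕ) (hV : V.Finite)
    (h : ∀ n, Valid n → rkR n < r → n ∈ V) : {n : ℕ | Valid n ∧ rkR n ≤ r}.Finite := by
  set S : Set Fld := (Set.Iic r) ×ˢ (({none} ∪ some '' Set.Iic r : Set (Option ℕ)) ×ˢ
    ((Set.Iic (nn r)) ×ˢ ({s : Finset ℕ | s ⊆ Finset.range (r + 1)} ×ˢ
    (({none} ∪ some '' V : Set (Option ℕ)) ×ˢ
    {l : List (ℕ × ℕ × ℤ) | l.length ≤ r ∧ ∀ q ∈ l, q ∈ V ×ˢ ((Set.Iic r) ×ˢ
      (Set.Icc (-(r.factorial : ℤ)) (r.factorial : ℤ)))})))) with hS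
  have hSf : S.Finite := by
    refine (Set.finite_Iic r).prod (Set.Finite.prod ?_ ((Set.finite_Iic _).prod
      (Set.Finite.prod ?_ (Set.Finite.prod ?_ ?_))))
    · exact (Set.finite_singleton _).union ((Set.finite_Iic r).image _)
    · have : {s : Finset ℕ | s ⊆ Finset.range (r + 1)}
          = ↑((Finset.range (r + 1)).powerset) := by
        ext s
        rw [Finset.mem_coe, Finset.mem_powerset, Set.mem_setOf_eq]
      rw [this]
      exact Finset.finite_toSet _
    · exact (Set.finite_singleton _).union (hV.image _)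
    · exact TA_list (hV.prod ((Set.finite_Iic r).prod (Set.finite_Icc _ _))) r
  refine (hSf.preimage (f := dec) dec.injective.injOn).subset ?_
  rintro n ⟨hn, hr⟩
  show dec n ∈ S
  have hmem : ∀ (a : ℕ) (b : Option ℕ) (c : ℕ) (d : Finset ℕ) (e : Option ℕ)
      (f : List (ℕ × ℕ × ℤ)), a ≤ r → (b = none ∨ ∃ i ≤ r, some i = b) → c ≤ nn r →
      d ⊆ Finset.range (r + 1) → (e = none ∨ ∃ ξ ∈ V, some ξ = e) →
      (f.length ≤ r ∧ ∀ q ∈ f, q.1 ∈ V ∧ q.2.1 ≤ r ∧ |q.2.2| ≤ (r.factorial : ℤ)) →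
      ((a, b, c, d, e, f) : Fld) ∈ S := by
    intro a b c d e f ha hb hc hd he hf
    refine ⟨ha, ?_, hc, hd, ?_, hf.1, fun q hq => ⟨(hf.2 q hq).1, (hf.2 q hq).2.1, ?_⟩⟩
    · rcases hb with hb | ⟨i, hi, hb⟩
      · exact Or.inl hb
      · exact Or.inr ⟨i, hi, hb⟩
    · rcases he with he | ⟨ξ, hξ, he⟩
      · exact Or.inl he
      · exact Or.inr ⟨ξ, hξ, he⟩
    · exact Set.mem_Icc.mpr (abs_le.mp (hf.2 q hq).2.2)
  have heq : dec n = ((rkR n, wtR n, agR n, sgR n, prR n, lsR n) : Fld) := rfl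
  rw [heq]
  cases hn with
  | base _ hw ha hs hp hl =>
    refine hmem _ _ _ _ _ _ hr (Or.inl hw) (by rw [ha]; exact Nat.zero_le _)
      (hs.trans (Finset.range_subset_range.mpr (by omega))) (Or.inl hp) ?_
    rw [hl]
    exact ⟨Nat.zero_le _, fun q hq => absurd hq List.not_mem_nil⟩
  | nd _ i hw hi hs ha1 ha2 hp hp' hl hl' hlen hsum hodd =>
    refine hmem _ _ _ _ _ _ hr (Or.inr ⟨i, hi.trans hr, hw.symm⟩)
      (ha2.trans (nn_strictMono.monotone (hi.trans hr))) (by rw [hs]; exact Finset.empty_subset _)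
      ?_ ⟨hlen.trans hr, fun q hq => ⟨?_, ?_, ?_⟩⟩
    · cases hpr : prR n with
      | none => exact Or.inl rfl
      | some ξ =>
        exact Or.inr ⟨ξ, h ξ (hp ξ hpr) (lt_of_lt_of_le (hp' ξ hpr).2.1 hr), rfl⟩
    · exact h q.1 (hl q hq) (lt_of_lt_of_le (hl' q hq).1 hr)
    · exact (hl' q hq).2.trans hr
    · have h1 : |q.2.2| ≤ ((lsR n).map (fun q => |q.2.2|)).sum := by
        refine List.single_le_sum ?_ _ (List.mem_map_of_mem hq)
        intro x hx
        obtain ⟨q', -, rfl⟩ := List.mem_map.mp hx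
        exact abs_nonneg _
      refine h1.trans (hsum.trans ?_)
      exact_mod_cast Nat.factorial_le hr

/-- induction on `r`: the decoded fields lie in a finite set -/
theorem finite_raw (r : ℕ) : {n : ℕ | Valid n ∧ rkR n ≤ r}.Finite := by
  induction r with
  | zero => exact TA_step 0 ∅ Set.finite_empty fun n _ h => absurd h (Nat.not_lt_zero _)
  | succ r ih => exact TA_step (r + 1) _ ih fun n h1 h2 => ⟨h1, Nat.lt_succ_iff.mp h2⟩

theorem finite_rank (r : ℕ) : {τ : TT | rkT τ ≤ r}.Finite := by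
  refine ((finite_raw r).preimage (f := Subtype.val) Subtype.val_injective.injOn).subset ?_
  intro τ hτ
  exact ⟨τ.2, hτ⟩

end TreeCon

end Pool.Agent.MP0d518c
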