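import Pool.Agent.Lib.MP_0d518c_an.WBase

/-! Task W2: counting lemma for the auxiliary norming set. -/

namespace Pool.Agent.MP0d518c

open Finset Filter Topology

theorem WCount_union {L : List (ℕ → ℝ)} {θ : ℝ} (hθ : 0 ≤ θ) {c : ℕ} {I : Finset ℕ}
    (hL : ∀ g ∈ L, (I.filter (fun k => θ < g k)).card ≤ c)
    (hd : L.Pairwise (fun f g => ∀ k, f k = 0 ∨ g k = 0)) :
    (I.filter (fun k => θ < (L.map (fun f => f k)).sum)).card ≤ L.length * c := by
  classical
  have h1 : I.filter (fun k => θ < (L.map (fun f => f k)).sum) ⊆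
      L.toFinset.biUnion (fun g => I.filter (fun k => θ < g k)) := by
    intro k hk
    rw [Finset.mem_filter] at hk
    rw [Finset.mem_biUnion]
    rcases sum_map_eq hd k with h | ⟨g, hg, h⟩
    · rw [h] at hk
      exact absurd hk.2 (not_lt.2 hθ)
    · refine ⟨g, List.mem_toFinset.2 hg, Finset.mem_filter.2 ⟨hk.1, ?_⟩⟩
      rw [← h]
      exact hk.2
  calc _ ≤ _ := Finset.card_le_card h1
    _ ≤ L.toFinset.card * c := Finset.card_biUnion_le_card_mul _ _ _ fun g hg =>
        hL g (List.mem_toFinset.1 hg)
    _ ≤ L.length * c := Nat.mul_le_mul_right _ L.toFinset_card_le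

/-- counting lemma: `f ∈ W P` exceeds `max (4^(-e)) τ` at no more than `N_j^e` points, if all
weights `m_i`, `i ≥ j`, allowed in `P` satisfy `1/m_i ≤ τ`.  Induction on `W`. -/
theorem W_count {P : ℕ → Prop} {j : ℕ} {τ : ℝ} (hτ : 0 ≤ τ)
    (hP : ∀ i, P i → j ≤ i → (mm i : ℝ)⁻¹ ≤ τ) {f : ℕ → ℝ} (h : W P f) (e : ℕ)
    (I : Finset ℕ) :
    (I.filter (fun k => max ((1 / 4 : ℝ) ^ e) τ < f k)).card ≤ (NN j) ^ e := by
  induction h generalizing e I with
  | single k' =>
    cases e with
    | zero =>
      rw [Finset.card_eq_zero.2]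
      · exact Nat.zero_le _
      · rw [Finset.filter_eq_empty_iff]
        intro k _ hk
        have h1 := W_le_one (W.single (P := P) k') k
        have h2 := (le_max_left ((1 / 4 : ℝ) ^ 0) τ).trans_lt hk
        rw [pow_zero] at h2
        exact absurd h1 (not_le.2 h2)
    | succ e =>
      have h1 : I.filter (fun k => max ((1 / 4 : ℝ) ^ (e + 1)) τ <
          (Pi.single k' 1 : ℕ → ℝ) k) ⊆ {k'} := by
        intro k hk
        rw [Finset.mem_filter] at hk
        rw [Finset.mem_singleton]
        by_contra hne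
        have h2 : (Pi.single k' 1 : ℕ → ℝ) k = 0 := by simp [Pi.single_apply, hne]
        rw [h2] at hk
        exact absurd (hτ.trans (le_max_right _ _)) (not_le.2 hk.2)
      calc _ ≤ _ := Finset.card_le_card h1
        _ = 1 := Finset.card_singleton _
        _ ≤ NN j ^ (e + 1) := Nat.one_le_pow _ _ (one_le_NN j)
  | node i hi L hlen hL hd ih =>
    cases e with
    | zero =>
      rw [Finset.card_eq_zero.2]
      · exact Nat.zero_le _
      · rw [Finset.filter_eq_empty_iff]
        intro k _ hk
        have h1 := W_le_one (W.node (P := P) i hi L hlen hL hd) k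
        have h2 := (le_max_left ((1 / 4 : ℝ) ^ 0) τ).trans_lt hk
        rw [pow_zero] at h2
        exact absurd h1 (not_le.2 h2)
    | succ e =>
      by_cases hji : j ≤ i
      · rw [Finset.card_eq_zero.2]
        · exact Nat.zero_le _
        · rw [Finset.filter_eq_empty_iff]
          intro k _ hk
          have h1 : (mm i : ℝ)⁻¹ * (L.map (fun f => f k)).sum ≤ τ :=
            (mul_le_of_le_one_right (mm_inv_pos i).le (WBase_sum_le hL hd k)).trans (hP i hi hji)
          have h2 := (le_max_right ((1 / 4 : ℝ) ^ (e + 1)) τ).trans_lt hk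
          exact absurd h1 (not_le.2 h2)
      · have hij : i < j := not_le.1 hji
        have h1 : I.filter (fun k => max ((1 / 4 : ℝ) ^ (e + 1)) τ <
            (mm i : ℝ)⁻¹ * (L.map (fun f => f k)).sum) ⊆
            I.filter (fun k => max ((1 / 4 : ℝ) ^ e) τ < (L.map (fun f => f k)).sum) := by
          intro k hk
          rw [Finset.mem_filter] at hk ⊢
          refine ⟨hk.1, ?_⟩
          have hS : 0 ≤ (L.map (fun f => f k)).sum := List.sum_nonneg fun x hx => by
            obtain ⟨f, hf, rfl⟩ := List.mem_map.1 hx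
            exact W_nonneg (hL f hf) k
          have h2 : (mm i : ℝ)⁻¹ * (L.map (fun f => f k)).sum
              ≤ 1 / 4 * (L.map (fun f => f k)).sum :=
            mul_le_mul_of_nonneg_right (mm_inv_le_quarter i) hS
          have h3 := hk.2.trans_le h2
          rw [max_lt_iff] at h3 ⊢
          constructor
          · have := h3.1
            rw [pow_succ] at this
            linarith
          · have := h3.2
            linarith
        calc _ ≤ _ := Finset.card_le_card h1
          _ ≤ L.length * NN j ^ e := by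
              refine WCount_union (hτ.trans (le_max_right _ _)) (fun g hg => ih g hg e I) hd
          _ ≤ (4 * nn i) * NN j ^ e := Nat.mul_le_mul_right _ hlen
          _ ≤ NN j * NN j ^ e := Nat.mul_le_mul_right _ (four_nn_le_NN hij)
          _ = NN j ^ (e + 1) := by rw [pow_succ, mul_comm]

/-- the same for sums of disjointly supported members of `W P` -/
theorem W_count_list {P : ℕ → Prop} {j : ℕ} {τ : ℝ} (hτ : 0 ≤ τ)
    (hP : ∀ i, P i → j ≤ i → (mm i : ℝ)⁻¹ ≤ τ) {L : List (ℕ → ℝ)} (hL : ∀ f ∈ L, W P f)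
    (hd : L.Pairwise (fun f g => ∀ k, f k = 0 ∨ g k = 0)) (e : ℕ) (I : Finset ℕ) :
    (I.filter (fun k => max ((1 / 4 : ℝ) ^ e) τ < (L.map (fun f => f k)).sum)).card ≤
      L.length * (NN j) ^ e :=
  WCount_union (hτ.trans (le_max_right _ _)) (fun g hg => W_count hτ hP (hL g hg) e I) hd

end Pool.Agent.MP0d518c
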